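import Mathlib

set_option autoImplicit false

/-!
# Energy of products of letter weights in a finite commutative group
-/

namespace Pool.Agent.Helper22.Morley.Abs

open Finset

variable {G : Type*} [CommGroup G] [Fintype G] [DecidableEq G]

theorem card_ratio (A B : Finset ℕ) (f : ℕ → G) (lam : G) :
    2 * ((A ×ˢ B).filter (fun p => f p.1 * f p.2 = lam)).card ≤
      ((A ×ˢ A).filter (fun p => f p.1 = f p.2)).card +
      ((B ×ˢ B).filter (fun p => f p.1 = f p.2)).card := by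
  have key : ∀ (C : Finset ℕ), ((C ×ˢ C).filter (fun p => f p.1 = f p.2)).card
      = ∑ μ : G, (C.filter (fun x => f x = μ)).card ^ 2 := by
    intro C
    have hmap : (((C ×ˢ C).filter (fun p => f p.1 = f p.2) : Finset (ℕ × ℕ)) :
        Set (ℕ × ℕ)).MapsTo (fun p => f p.1) ((univ : Finset G) : Set G) := by
      intro p _; simp
    rw [card_eq_sum_card_fiberwise hmap]
    apply sum_congr rfl
    intro μ _
    rw [pow_two, ← card_product]
    congr 1
    ext p
    simp only [mem_filter, mem_product]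
    constructor
    · rintro ⟨⟨⟨h1, h2⟩, h3⟩, h4⟩
      exact ⟨⟨h1, h4⟩, h2, by rw [← h3, h4]⟩
    · rintro ⟨⟨h1, h4⟩, h2, h3⟩
      exact ⟨⟨⟨h1, h2⟩, by rw [h4, h3]⟩, h4⟩
  have hmap : (((A ×ˢ B).filter (fun p => f p.1 * f p.2 = lam) : Finset (ℕ × ℕ)) :
        Set (ℕ × ℕ)).MapsTo (fun p => f p.1) ((univ : Finset G) : Set G) := by
      intro p _; simp
  rw [card_eq_sum_card_fiberwise hmap, key A, key B]
  have hB : ∑ μ : G, (B.filter (fun x => f x = μ)).card ^ 2
      = ∑ μ : G, (B.filter (fun x => f x = lam / μ)).card ^ 2 :=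
    ((Equiv.divLeft lam).sum_comp (fun μ => (B.filter (fun x => f x = μ)).card ^ 2)).symm
  rw [hB, ← sum_add_distrib, mul_sum]
  apply sum_le_sum
  intro μ _
  have hle : (((A ×ˢ B).filter (fun p => f p.1 * f p.2 = lam)).filter (fun p => f p.1 = μ)).card
      ≤ (A.filter (fun x => f x = μ)).card * (B.filter (fun x => f x = lam / μ)).card := by
    rw [← card_product]
    apply card_le_card
    intro p
    simp only [mem_filter, mem_product]
    rintro ⟨⟨⟨h1, h2⟩, h3⟩, h4⟩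
    refine ⟨⟨h1, h4⟩, h2, ?_⟩
    rw [← h4, eq_div_iff_mul_eq', mul_comm]
    exact h3
  have := two_mul_le_add_sq (A.filter (fun x => f x = μ)).card
    (B.filter (fun x => f x = lam / μ)).card
  nlinarith

/-- The data: base `Q`, letters `D`, weights `f`, codes `κ < M`. -/
structure Data (G : Type*) [CommGroup G] where
  Q : ℕ
  Qpos : 0 < Q
  D : Finset ℕ
  hD : ∀ t ∈ D, t < Q
  f : ℕ → G
  κ : ℕ → ℕ
  M : ℕ
  hκ : ∀ t ∈ D, κ t < M

namespace Data

variable (X : Data G)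

/-- Words of length `k`. -/
def S : ℕ → Finset ℕ
  | 0 => {0}
  | k + 1 => (X.D ×ˢ S k).image (fun p => p.1 + X.Q * p.2)

omit [Fintype G] [DecidableEq G] in
theorem mem_S_succ {k t : ℕ} : t ∈ X.S (k + 1) ↔ t % X.Q ∈ X.D ∧ t / X.Q ∈ X.S k := by
  simp only [S, mem_image, mem_product]
  constructor
  · rintro ⟨p, ⟨h1, h2⟩, rfl⟩
    have hlt := X.hD _ h1
    rw [Nat.add_mul_mod_self_left, Nat.mod_eq_of_lt hlt, Nat.add_mul_div_left _ _ X.Qpos,
      Nat.div_eq_of_lt hlt, zero_add]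
    exact ⟨h1, h2⟩
  · rintro ⟨h1, h2⟩
    exact ⟨(t % X.Q, t / X.Q), ⟨h1, h2⟩, Nat.mod_add_div t X.Q⟩

/-- Product of the weights. -/
def Y : ℕ → ℕ → G
  | 0, _ => 1
  | k + 1, t => X.f (t % X.Q) * Y k (t / X.Q)

/-- Code of a word. -/
def cd : ℕ → ℕ → ℕ
  | 0, _ => 0
  | k + 1, t => X.κ (t % X.Q) + X.M * cd k (t / X.Q)

theorem cd_lt (k t : ℕ) (ht : t ∈ X.S k) : X.cd k t < X.M ^ k := by
  induction k generalizing t with
  | zero => simp [cd]
  | succ k ih =>
    rw [mem_S_succ] at ht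
    have h1 := X.hκ _ ht.1
    have h3 := ih _ ht.2
    simp only [cd]
    calc X.κ (t % X.Q) + X.M * X.cd k (t / X.Q) < X.M + X.M * X.cd k (t / X.Q) :=
          Nat.add_lt_add_right h1 _
      _ = X.M * (X.cd k (t / X.Q) + 1) := by ring
      _ ≤ X.M * X.M ^ k := Nat.mul_le_mul_left _ h3
      _ = X.M ^ (k + 1) := by ring

/-- Pairs with the same code. -/
def P (k : ℕ) : Finset (ℕ × ℕ) := (X.S k ×ˢ X.S k).filter (fun p => X.cd k p.1 = X.cd k p.2)

/-- Pairs with the same code and ratio `ρ`. -/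
def R (k : ℕ) (ρ : G) : Finset (ℕ × ℕ) := (X.P k).filter (fun p => X.Y k p.2 = ρ * X.Y k p.1)

/-- Pairs of letters with the same code. -/
def LP : Finset (ℕ × ℕ) := (X.D ×ˢ X.D).filter (fun p => X.κ p.1 = X.κ p.2)

theorem code_eq {x y z w M : ℕ} (hx : x < M) (hy : y < M) (h : x + M * z = y + M * w) :
    x = y ∧ z = w := by
  have hM : 0 < M := by omega
  have h1 : (x + M * z) % M = (y + M * w) % M := by rw [h]
  rw [Nat.add_mul_mod_self_left, Nat.add_mul_mod_self_left, Nat.mod_eq_of_lt hx,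
    Nat.mod_eq_of_lt hy] at h1
  have h2 : (x + M * z) / M = (y + M * w) / M := by rw [h]
  rw [Nat.add_mul_div_left _ _ hM, Nat.add_mul_div_left _ _ hM, Nat.div_eq_of_lt hx,
    Nat.div_eq_of_lt hy, zero_add, zero_add] at h2
  exact ⟨h1, h2⟩

theorem mem_P_succ {k : ℕ} {p : ℕ × ℕ} (hp : p ∈ X.P (k + 1)) :
    (p.1 % X.Q, p.2 % X.Q) ∈ X.LP ∧ (p.1 / X.Q, p.2 / X.Q) ∈ X.P k := by
  unfold P at hp ⊢
  unfold LP
  rw [mem_filter, mem_product, mem_S_succ, mem_S_succ] at hp
  rw [mem_filter, mem_product, mem_filter, mem_product]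
  obtain ⟨⟨⟨h1, h3⟩, h4, h5⟩, h6⟩ := hp
  simp only [cd] at h6
  have h7 := code_eq (X.hκ _ h1) (X.hκ _ h4) h6
  exact ⟨⟨⟨h1, h4⟩, h7.1⟩, ⟨h3, h5⟩, h7.2⟩

omit [Fintype G] [DecidableEq G] in
theorem fibre_bound (A : Finset (ℕ × ℕ)) (B : Finset (ℕ × ℕ)) (F : ℕ × ℕ → Finset (ℕ × ℕ))
    (h : ∀ p ∈ A, (p.1 / X.Q, p.2 / X.Q) ∈ B ∧ (p.1 % X.Q, p.2 % X.Q) ∈ F (p.1 / X.Q, p.2 / X.Q)) :
    A.card ≤ ∑ b ∈ B, (F b).card := by
  have hmap : (A : Set (ℕ × ℕ)).MapsTo (fun p => (p.1 / X.Q, p.2 / X.Q))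
      (B : Finset (ℕ × ℕ)) := by
    intro p hp
    exact (h p hp).1
  rw [card_eq_sum_card_fiberwise hmap]
  apply sum_le_sum
  intro b _
  apply card_le_card_of_injOn (fun p => (p.1 % X.Q, p.2 % X.Q))
  · intro p hp
    rw [mem_coe, mem_filter] at hp
    have := (h p hp.1).2
    rw [hp.2] at this
    exact this
  · intro p hp p' hp' hpp
    rw [mem_coe, mem_filter] at hp hp'
    have e1 : (p.1 / X.Q, p.2 / X.Q) = (p'.1 / X.Q, p'.2 / X.Q) := by rw [hp.2, hp'.2]
    rw [Prod.mk.injEq] at e1 hpp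
    ext
    · rw [← Nat.mod_add_div p.1 X.Q, ← Nat.mod_add_div p'.1 X.Q, e1.1, hpp.1]
    · rw [← Nat.mod_add_div p.2 X.Q, ← Nat.mod_add_div p'.2 X.Q, e1.2, hpp.2]

omit [Fintype G] [DecidableEq G] in
/-- The dual version: fibres over the letters. -/
theorem fibre_bound' (A : Finset (ℕ × ℕ)) (B : Finset (ℕ × ℕ)) (F : ℕ × ℕ → Finset (ℕ × ℕ))
    (h : ∀ p ∈ A, (p.1 % X.Q, p.2 % X.Q) ∈ B ∧ (p.1 / X.Q, p.2 / X.Q) ∈ F (p.1 % X.Q, p.2 % X.Q)) :
    A.card ≤ ∑ b ∈ B, (F b).card := by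
  have hmap : (A : Set (ℕ × ℕ)).MapsTo (fun p => (p.1 % X.Q, p.2 % X.Q))
      (B : Finset (ℕ × ℕ)) := by
    intro p hp
    exact (h p hp).1
  rw [card_eq_sum_card_fiberwise hmap]
  apply sum_le_sum
  intro b _
  apply card_le_card_of_injOn (fun p => (p.1 / X.Q, p.2 / X.Q))
  · intro p hp
    rw [mem_coe, mem_filter] at hp
    have := (h p hp.1).2
    rw [hp.2] at this
    exact this
  · intro p hp p' hp' hpp
    rw [mem_coe, mem_filter] at hp hp'
    have e1 : (p.1 % X.Q, p.2 % X.Q) = (p'.1 % X.Q, p'.2 % X.Q) := by rw [hp.2, hp'.2]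
    rw [Prod.mk.injEq] at e1 hpp
    ext
    · rw [← Nat.mod_add_div p.1 X.Q, ← Nat.mod_add_div p'.1 X.Q, e1.1, hpp.1]
    · rw [← Nat.mod_add_div p.2 X.Q, ← Nat.mod_add_div p'.2 X.Q, e1.2, hpp.2]

theorem card_P_le (k : ℕ) : (X.P k).card ≤ X.LP.card ^ k := by
  induction k with
  | zero =>
    have : (X.P 0).card ≤ (({0} : Finset ℕ) ×ˢ ({0} : Finset ℕ)).card := by
      apply card_le_card
      intro p hp
      unfold P S at hp
      rw [mem_filter] at hp
      exact hp.1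
    simpa using this
  | succ k ih =>
    have h := X.fibre_bound (X.P (k + 1)) (X.P k) (fun _ => X.LP) (by
        intro p hp
        have := X.mem_P_succ hp
        exact ⟨this.2, this.1⟩)
    calc _ ≤ _ := h
      _ = (X.P k).card * X.LP.card := by rw [sum_const, smul_eq_mul]
      _ ≤ X.LP.card ^ k * X.LP.card := Nat.mul_le_mul_right _ ih
      _ = _ := by ring

/-- The bound sequence. -/
def Bd (n dg o b : ℕ) : ℕ → ℕ
  | 0 => 1
  | k + 1 => (n + dg) * Bd n dg o b k + o * b ^ k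

theorem card_R_le (deg : ℕ → ℕ → Prop) [∀ x y, Decidable (deg x y)] (dg o : ℕ)
    (hdg : (X.LP.filter (fun p => p.1 ≠ p.2 ∧ deg p.1 p.2)).card ≤ dg)
    (ho : ∀ ρ : G, (X.LP.filter (fun p => p.1 ≠ p.2 ∧ ¬ deg p.1 p.2 ∧ X.f p.2 = ρ * X.f p.1)).card
      ≤ o) (k : ℕ) (ρ : G) :
    (X.R k ρ).card ≤ Bd X.D.card dg o X.LP.card k := by
  induction k generalizing ρ with
  | zero =>
    have h1 : (X.R 0 ρ).card ≤ (X.P 0).card := card_le_card (filter_subset _ _)
    have h2 := X.card_P_le 0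
    simp only [pow_zero] at h2
    simp only [Bd]
    omega
  | succ k ih =>
    set A1 := (X.R (k + 1) ρ).filter (fun p => p.1 % X.Q = p.2 % X.Q ∨
      deg (p.1 % X.Q) (p.2 % X.Q)) with hA1
    set A2 := (X.R (k + 1) ρ).filter (fun p => ¬ (p.1 % X.Q = p.2 % X.Q ∨
      deg (p.1 % X.Q) (p.2 % X.Q))) with hA2
    have hsplit : (X.R (k + 1) ρ).card = A1.card + A2.card :=
      (card_filter_add_card_filter_not _).symm
    set B1 := X.LP.filter (fun p => p.1 = p.2 ∨ deg p.1 p.2) with hB1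
    have hB1c : B1.card ≤ X.D.card + dg := by
      have hsub : B1 ⊆ (X.D.image (fun t => (t, t))) ∪
          (X.LP.filter (fun p => p.1 ≠ p.2 ∧ deg p.1 p.2)) := by
        intro p hp
        rw [hB1, mem_filter] at hp
        rw [mem_union]
        by_cases h : p.1 = p.2
        · left
          rw [mem_image]
          have := hp.1
          unfold LP at this
          rw [mem_filter, mem_product] at this
          exact ⟨p.1, this.1.1, by ext <;> simp [h]⟩
        · right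
          rw [mem_filter]
          exact ⟨hp.1, h, hp.2.resolve_left h⟩
      refine (card_le_card hsub).trans ((card_union_le _ _).trans ?_)
      exact Nat.add_le_add card_image_le hdg
    have hR : ∀ p ∈ X.R (k + 1) ρ, (p.1 % X.Q, p.2 % X.Q) ∈ X.LP ∧
        (p.1 / X.Q, p.2 / X.Q) ∈ X.P k ∧
        X.f (p.2 % X.Q) * X.Y k (p.2 / X.Q) = ρ * (X.f (p.1 % X.Q) * X.Y k (p.1 / X.Q)) := by
      intro p hp
      unfold R at hp
      rw [mem_filter] at hp
      have := X.mem_P_succ hp.1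
      exact ⟨this.1, this.2, hp.2⟩
    have hA1c : A1.card ≤ (X.D.card + dg) * Bd X.D.card dg o X.LP.card k := by
      have h := X.fibre_bound' A1 B1
        (fun b => X.R k (ρ * X.f b.1 / X.f b.2)) (by
          intro p hp
          rw [hA1, mem_filter] at hp
          obtain ⟨h1, h2, h3⟩ := hR p hp.1
          refine ⟨?_, ?_⟩
          · rw [hB1, mem_filter]; exact ⟨h1, hp.2⟩
          · show _ ∈ X.R k (ρ * X.f (p.1 % X.Q) / X.f (p.2 % X.Q))
            unfold R
            rw [mem_filter]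
            refine ⟨h2, ?_⟩
            show X.Y k (p.2 / X.Q) = ρ * X.f (p.1 % X.Q) / X.f (p.2 % X.Q) * X.Y k (p.1 / X.Q)
            rw [div_mul_eq_mul_div, eq_div_iff_mul_eq', mul_comm (X.Y k (p.2 / X.Q)), h3]
            simp only [mul_assoc])
      calc A1.card ≤ _ := h
        _ ≤ ∑ b ∈ B1, Bd X.D.card dg o X.LP.card k := sum_le_sum (fun b _ => ih _)
        _ = B1.card * Bd X.D.card dg o X.LP.card k := by rw [sum_const, smul_eq_mul]
        _ ≤ _ := Nat.mul_le_mul_right _ hB1c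
    have hA2c : A2.card ≤ o * X.LP.card ^ k := by
      have h := X.fibre_bound A2 (X.P k)
        (fun b => X.LP.filter (fun p => p.1 ≠ p.2 ∧ ¬ deg p.1 p.2 ∧
          X.f p.2 = (ρ * X.Y k b.1 / X.Y k b.2) * X.f p.1)) (by
          intro p hp
          rw [hA2, mem_filter] at hp
          obtain ⟨h1, h2, h3⟩ := hR p hp.1
          refine ⟨h2, ?_⟩
          rw [mem_filter]
          push Not at hp
          refine ⟨h1, hp.2.1, hp.2.2, ?_⟩
          show X.f (p.2 % X.Q) = ρ * X.Y k (p.1 / X.Q) / X.Y k (p.2 / X.Q) * X.f (p.1 % X.Q)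
          rw [div_mul_eq_mul_div, eq_div_iff_mul_eq', h3]
          rw [mul_assoc, mul_comm (X.Y k (p.1 / X.Q))])
      calc A2.card ≤ _ := h
        _ ≤ ∑ b ∈ X.P k, o := sum_le_sum (fun b _ => ho _)
        _ = (X.P k).card * o := by rw [sum_const, smul_eq_mul]
        _ ≤ X.LP.card ^ k * o := Nat.mul_le_mul_right _ (X.card_P_le k)
        _ = _ := by ring
    rw [hsplit]
    simp only [Bd]
    exact Nat.add_le_add hA1c hA2c

/-- A set of pairs of words on which the product of the weights is a function of the codes. -/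
theorem card_pairs_le (k : ℕ) (T : Finset (ℕ × ℕ)) (hT : ∀ p ∈ T, p.1 ∈ X.S k ∧ p.2 ∈ X.S k)
    (hY : ∀ p ∈ T, ∀ p' ∈ T, X.cd k p.1 = X.cd k p'.1 → X.cd k p.2 = X.cd k p'.2 →
      X.Y k p.1 * X.Y k p.2 = X.Y k p'.1 * X.Y k p'.2) :
    T.card ≤ X.M ^ k * (X.R k 1).card := by
  classical
  set A : ℕ → Finset ℕ := fun x => (X.S k).filter (fun s => X.cd k s = x) with hA
  set E : ℕ → ℕ := fun x => ((A x ×ˢ A x).filter (fun p => X.Y k p.1 = X.Y k p.2)).card with hE
  have hmap : (T : Set (ℕ × ℕ)).MapsTo (fun p => (X.cd k p.1, X.cd k p.2))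
      (range (X.M ^ k) ×ˢ range (X.M ^ k) : Finset (ℕ × ℕ)) := by
    intro p hp
    rw [mem_coe, mem_product, mem_range, mem_range]
    exact ⟨X.cd_lt k _ (hT p hp).1, X.cd_lt k _ (hT p hp).2⟩
  have hEsum : ∑ x ∈ range (X.M ^ k), E x ≤ (X.R k 1).card := by
    have hmap' : ((X.R k 1 : Finset (ℕ × ℕ)) : Set (ℕ × ℕ)).MapsTo
        (fun p => X.cd k p.1) (range (X.M ^ k) : Finset ℕ) := by
      intro p hp
      unfold R P at hp
      rw [mem_coe, mem_filter, mem_filter, mem_product] at hp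
      rw [mem_coe, mem_range]
      exact X.cd_lt k _ hp.1.1.1
    rw [card_eq_sum_card_fiberwise hmap']
    apply sum_le_sum
    intro x _
    rw [hE]
    apply card_le_card
    intro p
    simp only [mem_filter, mem_product, hA, R, P]
    rintro ⟨⟨⟨h1, h3⟩, h4, h5⟩, h6⟩
    exact ⟨⟨⟨⟨h1, h4⟩, by rw [h3, h5]⟩, by rw [one_mul, h6]⟩, h3⟩
  have h3 : 2 * T.card ≤ 2 * (X.M ^ k * ∑ x ∈ range (X.M ^ k), E x) := by
    rw [card_eq_sum_card_fiberwise hmap, mul_sum]
    calc ∑ b ∈ range (X.M ^ k) ×ˢ range (X.M ^ k),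
          2 * (T.filter (fun p => (X.cd k p.1, X.cd k p.2) = b)).card
        ≤ ∑ b ∈ range (X.M ^ k) ×ˢ range (X.M ^ k), (E b.1 + E b.2) := by
          apply sum_le_sum
          intro b _
          rcases (T.filter (fun p => (X.cd k p.1, X.cd k p.2) = b)).eq_empty_or_nonempty with h | h
          · rw [h]; simp
          · obtain ⟨p₀, hp₀⟩ := h
            rw [mem_filter] at hp₀
            refine le_trans ?_ (card_ratio (A b.1) (A b.2) (X.Y k) (X.Y k p₀.1 * X.Y k p₀.2))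
            apply Nat.mul_le_mul_left
            apply card_le_card
            intro p hp
            rw [mem_filter] at hp
            have e0 := hp₀.2
            have e1 := hp.2
            rw [Prod.ext_iff] at e0 e1
            simp only [mem_filter, mem_product, hA]
            refine ⟨⟨⟨(hT p hp.1).1, e1.1⟩, (hT p hp.1).2, e1.2⟩, ?_⟩
            exact hY p hp.1 p₀ hp₀.1 (e1.1.trans e0.1.symm) (e1.2.trans e0.2.symm)
      _ = 2 * (X.M ^ k * ∑ x ∈ range (X.M ^ k), E x) := by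
          rw [sum_product]
          simp only [sum_add_distrib, sum_const, card_range, smul_eq_mul]
          rw [← mul_sum]
          ring
  calc T.card ≤ X.M ^ k * ∑ x ∈ range (X.M ^ k), E x := by omega
    _ ≤ _ := Nat.mul_le_mul_left _ hEsum

end Data

end Pool.Agent.Helper22.Morley.Abs
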