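import Pool.Agent.Helper22.Morley.Smooth

set_option autoImplicit false

/-!
# Asymptotic estimates
-/

namespace Pool.Agent.Helper22.Morley

open Filter Topology

/-- `R L = √(L log L)`. -/
noncomputable def RR (L : ℝ) : ℝ := √(L * Real.log L)

theorem ev_log_le (η : ℝ) (hη : 0 < η) : ∀ᶠ L : ℝ in atTop, Real.log L ≤ η * L := by
  have h := Real.isLittleO_log_id_atTop.bound hη
  filter_upwards [h, eventually_ge_atTop 1] with L h1 h2
  rw [Real.norm_of_nonneg (Real.log_nonneg h2), id, Real.norm_of_nonneg (by linarith)] at h1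
  exact h1

theorem ev_RR_le (η : ℝ) (hη : 0 < η) : ∀ᶠ L : ℝ in atTop, RR L ≤ η * L := by
  filter_upwards [ev_log_le (η ^ 2) (by positivity), eventually_ge_atTop 1] with L h1 h2
  unfold RR
  rw [Real.sqrt_le_left (by positivity)]
  nlinarith

theorem ev_RR_ge (T : ℝ) : ∀ᶠ L : ℝ in atTop, T ≤ RR L := by
  filter_upwards [eventually_ge_atTop (max (T ^ 2) 3)] with L h1
  have h2 : T ^ 2 ≤ L := le_trans (le_max_left _ _) h1
  have h3 : 3 ≤ L := le_trans (le_max_right _ _) h1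
  have hlog : 1 ≤ Real.log L := by
    rw [Real.le_log_iff_exp_le (by linarith)]
    have := Real.exp_one_lt_d9
    linarith
  unfold RR
  apply Real.le_sqrt_of_sq_le
  nlinarith

theorem ev_rpow (β η : ℝ) (hβ : β < 1 / 2) (hη : 0 < η) :
    ∀ᶠ L : ℝ in atTop, 4 * (L ^ β * (10 + 4 * Real.log L)) ≤ η * RR L := by
  set γ : ℝ := (1 / 2 - β) / 2 with hγ
  have hγ0 : 0 < γ := by rw [hγ]; linarith
  have h1 := (isLittleO_log_rpow_atTop hγ0).bound (show (0 : ℝ) < 1 by norm_num)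
  have h2 := (tendsto_rpow_neg_atTop hγ0).eventually (gt_mem_nhds (show (0 : ℝ) < η / 56 by positivity))
  filter_upwards [h1, h2, eventually_ge_atTop 3] with L h1 h2 h3
  have hL0 : 0 < L := by linarith
  have hlog : 1 ≤ Real.log L := by
    rw [Real.le_log_iff_exp_le (by linarith)]
    have := Real.exp_one_lt_d9
    linarith
  rw [Real.norm_of_nonneg (by linarith), Real.norm_of_nonneg (by positivity), one_mul] at h1
  have hL1 : 1 ≤ L ^ γ := Real.one_le_rpow (by linarith) hγ0.le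
  have e1 : L ^ β * L ^ γ = L ^ (1 / 2 : ℝ) * L ^ (-γ) := by
    rw [← Real.rpow_add hL0, ← Real.rpow_add hL0]
    congr 1
    rw [hγ]; ring
  have hR : L ^ (1 / 2 : ℝ) ≤ RR L := by
    rw [← Real.sqrt_eq_rpow]
    unfold RR
    apply Real.sqrt_le_sqrt
    nlinarith
  have hLh : 0 < L ^ (1 / 2 : ℝ) := by positivity
  calc 4 * (L ^ β * (10 + 4 * Real.log L)) ≤ 4 * (L ^ β * (14 * L ^ γ)) := by
        gcongr
        linarith
    _ = 56 * (L ^ β * L ^ γ) := by ring
    _ = 56 * (L ^ (1 / 2 : ℝ) * L ^ (-γ)) := by rw [e1]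
    _ ≤ 56 * (L ^ (1 / 2 : ℝ) * (η / 56)) := by gcongr
    _ = η * L ^ (1 / 2 : ℝ) := by ring
    _ ≤ η * RR L := by gcongr

/-- `C exp(-(c+η) R) ≤ (1/4) exp(-c R)` eventually. -/
theorem ev_exp_gap (C c c' : ℝ) (hc : c < c') :
    ∀ᶠ L : ℝ in atTop, C * Real.exp (-c' * RR L) ≤ 1 / 4 * Real.exp (-c * RR L) := by
  have hη : 0 < c' - c := by linarith
  filter_upwards [ev_RR_ge (Real.log (4 * (|C| + 1)) / (c' - c))] with L h
  rw [div_le_iff₀ hη] at h
  have hC : 0 < 4 * (|C| + 1) := by positivity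
  have h1 : 4 * (|C| + 1) ≤ Real.exp (RR L * (c' - c)) := by
    rw [← Real.log_le_iff_le_exp hC]; exact h
  have h2 : Real.exp (-c * RR L) = Real.exp (-c' * RR L) * Real.exp (RR L * (c' - c)) := by
    rw [← Real.exp_add]; congr 1; ring
  rw [h2]
  have h3 : 0 < Real.exp (-c' * RR L) := Real.exp_pos _
  have h4 : C ≤ |C| := le_abs_self C
  nlinarith

/-- Power saving terms. -/
theorem ev_power (C δ c : ℝ) (hδ : 0 < δ) (hc : 0 ≤ c) :
    ∀ᶠ L : ℝ in atTop, C * Real.exp (-δ * L) * (1 + L) ≤ 1 / 4 * Real.exp (-c * RR L) := by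
  have hη : 0 < δ / (4 * (c + 1)) := by positivity
  have ht : Tendsto (fun L : ℝ => L * (δ / 4)) atTop atTop :=
    tendsto_id.atTop_mul_const (by positivity)
  filter_upwards [ev_RR_le _ hη, ev_log_le (δ / 8) (by positivity), eventually_ge_atTop 3,
    ht.eventually_ge_atTop (Real.log (4 * (|C| + 1)))] with L h1 h2 h3 h4
  have hL0 : 0 < L := by linarith
  have hlog : 1 ≤ Real.log L := by
    rw [Real.le_log_iff_exp_le (by linarith)]
    have := Real.exp_one_lt_d9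
    linarith
  have hC : 0 < 4 * (|C| + 1) := by positivity
  have b1 : 4 * (|C| + 1) ≤ Real.exp (L * (δ / 4)) := by
    rw [← Real.log_le_iff_le_exp hC]; exact h4
  have b2 : 1 + L ≤ Real.exp (δ / 4 * L) := by
    have : 1 + L ≤ L * L := by nlinarith
    refine this.trans ?_
    have e : L * L = Real.exp (Real.log L + Real.log L) := by
      rw [Real.exp_add, Real.exp_log hL0]
    rw [e]
    apply Real.exp_le_exp.mpr
    linarith
  have b3 : c * RR L ≤ δ / 4 * L := by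
    have hR0 : 0 ≤ RR L := Real.sqrt_nonneg _
    calc c * RR L ≤ (c + 1) * RR L := by nlinarith
      _ ≤ (c + 1) * (δ / (4 * (c + 1)) * L) := by gcongr
      _ = δ / 4 * L := by field_simp
  have b4 : Real.exp (-(δ / 4 * L)) ≤ Real.exp (-c * RR L) := by
    apply Real.exp_le_exp.mpr
    linarith
  have b5 : C ≤ |C| + 1 := by linarith [le_abs_self C]
  have e0 : Real.exp (-δ * L) * Real.exp (L * (δ / 4)) * Real.exp (δ / 4 * L)
      * Real.exp (δ / 4 * L) = Real.exp (-(δ / 4 * L)) := by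
    rw [← Real.exp_add, ← Real.exp_add, ← Real.exp_add]
    congr 1; ring
  have hE : 0 < Real.exp (-δ * L) := Real.exp_pos _
  have hE2 : 1 ≤ Real.exp (δ / 4 * L) := by
    apply Real.one_le_exp; positivity
  calc C * Real.exp (-δ * L) * (1 + L)
      ≤ (|C| + 1) * Real.exp (-δ * L) * (1 + L) := by gcongr
    _ = 1 / 4 * (Real.exp (-δ * L) * (4 * (|C| + 1)) * (1 + L)) := by ring
    _ ≤ 1 / 4 * (Real.exp (-δ * L) * Real.exp (L * (δ / 4)) * Real.exp (δ / 4 * L)) := by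
        gcongr
    _ ≤ 1 / 4 * (Real.exp (-δ * L) * Real.exp (L * (δ / 4)) * Real.exp (δ / 4 * L)
        * Real.exp (δ / 4 * L)) := by
        have : 0 < Real.exp (-δ * L) * Real.exp (L * (δ / 4)) * Real.exp (δ / 4 * L) := by
          positivity
        nlinarith
    _ = 1 / 4 * Real.exp (-(δ / 4 * L)) := by rw [e0]
    _ ≤ 1 / 4 * Real.exp (-c * RR L) := by gcongr

/-- The smooth part. -/
theorem ev_smooth (c₁ : ℝ) (hc0 : 0 < c₁) (hc1 : c₁ * √2 < 1) (η : ℝ) (hη : 0 < η) :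
    ∀ᶠ L : ℝ in atTop, ∀ x : ℕ, 1 ≤ x → Real.log x = L →
      ((Smooth x (Real.exp (RR L / √2))).card : ℝ) ≤ x * Real.exp (-(c₁ - η) * RR L) := by
  have hs2 : 0 < √(2 : ℝ) := by positivity
  have hs2' : √(2 : ℝ) * √2 = 2 := Real.mul_self_sqrt (by norm_num)
  have hβ : c₁ / √2 < 1 / 2 := by
    rw [div_lt_iff₀ hs2]
    nlinarith
  filter_upwards [ev_rpow (c₁ / √2) η hβ hη, ev_RR_le (1 / (2 * (c₁ + 1))) (by positivity),
    ev_RR_ge 2, ev_RR_le 1 one_pos, eventually_ge_atTop 3] with L h1 h2 h3 h4 h5 x hx hxL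
  have hL0 : 0 < L := by linarith
  have hlog : 1 ≤ Real.log L := by
    rw [Real.le_log_iff_exp_le (by linarith)]
    have := Real.exp_one_lt_d9
    linarith
  have hR2 : RR L * RR L = L * Real.log L := Real.mul_self_sqrt (by nlinarith)
  have hR0 : 0 < RR L := by linarith
  set y := Real.exp (RR L / √2) with hy
  have hsq : √(2 : ℝ) ≤ 2 := by
    rw [Real.sqrt_le_left (by norm_num)]; norm_num
  have hlogy : Real.log y = RR L / √2 := Real.log_exp _
  have hRs : 1 ≤ RR L / √2 := by rw [one_le_div hs2]; linarith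
  have hy2 : 2 ≤ y := by
    rw [hy]
    have := Real.add_one_le_exp (RR L / √2)
    linarith
  set τ : ℝ := c₁ * RR L / L with hτ
  have hτ0 : 0 ≤ τ := by positivity
  have hτ1 : τ ≤ 1 / 2 := by
    rw [hτ, div_le_iff₀ hL0]
    calc c₁ * RR L ≤ (c₁ + 1) * RR L := by nlinarith
      _ ≤ (c₁ + 1) * (1 / (2 * (c₁ + 1)) * L) := by gcongr
      _ = 1 / 2 * L := by field_simp
  have hb := smooth_bound x y (1 - τ) hy2 (by linarith) (by linarith)
  have hx0 : (0 : ℝ) < x := by exact_mod_cast hx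
  have e1 : (x : ℝ) ^ (1 - τ) = x * Real.exp (-c₁ * RR L) := by
    rw [Real.rpow_sub hx0, Real.rpow_one, div_eq_mul_inv]
    congr 1
    rw [Real.rpow_def_of_pos hx0, ← Real.exp_neg, hxL]
    congr 1
    rw [hτ]; field_simp
  have e2 : y ^ (1 - (1 - τ)) = L ^ (c₁ / √2) := by
    rw [show 1 - (1 - τ) = τ by ring, hy, Real.rpow_def_of_pos (Real.exp_pos _),
      Real.log_exp, Real.rpow_def_of_pos hL0]
    congr 1
    rw [hτ]
    calc RR L / √2 * (c₁ * RR L / L) = (RR L * RR L) * c₁ / (√2 * L) := by field_simp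
      _ = L * Real.log L * c₁ / (√2 * L) := by rw [hR2]
      _ = Real.log L * (c₁ / √2) := by field_simp
  rw [e1, e2] at hb
  have e3 : Real.log (Real.log y) ≤ Real.log L := by
    apply Real.log_le_log
    · rw [hlogy]; linarith
    · rw [hlogy, div_le_iff₀ hs2]
      have : 1 ≤ √(2 : ℝ) := by
        apply Real.le_sqrt_of_sq_le; norm_num
      nlinarith
  calc ((Smooth x y).card : ℝ) ≤ x * Real.exp (-c₁ * RR L) *
        Real.exp (4 * (L ^ (c₁ / √2) * (10 + 4 * Real.log (Real.log y)))) := hb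
    _ ≤ x * Real.exp (-c₁ * RR L) * Real.exp (η * RR L) := by
        apply mul_le_mul_of_nonneg_left _ (by positivity)
        apply Real.exp_le_exp.mpr
        refine le_trans ?_ h1
        gcongr
    _ = x * Real.exp (-(c₁ - η) * RR L) := by
        rw [mul_assoc, ← Real.exp_add]
        congr 2; ring

/-- The main estimate. -/
theorem main_estimate (c : ℝ) (hc : c < 1 / √2) :
    ∃ x₀ : ℕ, ∀ x : ℕ, x₀ ≤ x →
      ((Sol x).card : ℝ) ≤ x * Real.exp (-c * √(Real.log x * Real.log (Real.log x))) := by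
  have hs2 : 0 < √(2 : ℝ) := by positivity
  have hs2' : √(2 : ℝ) * √2 = 2 := Real.mul_self_sqrt (by norm_num)
  have hs15 : √(2 : ℝ) < 3 / 2 := by
    rw [Real.sqrt_lt' (by norm_num)]; norm_num
  have hhalf : (1 / 2 : ℝ) < 1 / √2 := by
    apply one_div_lt_one_div_of_lt hs2; linarith
  set c0 : ℝ := max c (1 / 2) with hc0
  have hc0lt : c0 < 1 / √2 := max_lt hc hhalf
  have hc0pos : 0 < c0 := lt_of_lt_of_le (by norm_num) (le_max_right _ _)
  set c1 : ℝ := (c0 + 1 / √2) / 2 with hc1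
  have hc01 : c0 < c1 := by rw [hc1]; linarith
  have hc1lt : c1 < 1 / √2 := by rw [hc1]; linarith
  have hc1s : c1 * √2 < 1 := by
    rw [lt_div_iff₀ hs2] at hc1lt; exact hc1lt
  -- the number of digits
  obtain ⟨l, hl1, hl2⟩ : ∃ l : ℕ, 1 ≤ l ∧ 2 / ((l : ℝ) + 1) ≤ 1 - c1 * √2 := by
    obtain ⟨l, hl⟩ := exists_nat_gt (2 / (1 - c1 * √2))
    have hpos : 0 < 1 - c1 * √2 := by linarith
    refine ⟨l + 1, by omega, ?_⟩
    rw [div_lt_iff₀ hpos] at hl
    rw [div_le_iff₀ (by positivity)]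
    push_cast
    nlinarith
  obtain ⟨C, hC0, hC⟩ := main_inequality l hl1
  set η : ℝ := (c1 - c0) / 2 with hη
  have hη0 : 0 < η := by rw [hη]; linarith
  have hδ : (0 : ℝ) < 1 / (6 * (l : ℝ) + 3) := by positivity
  have hev := (ev_smooth c1 (by linarith) hc1s η hη0).and
    ((ev_exp_gap 1 c0 (c1 - η) (by rw [hη]; linarith)).and
    ((ev_exp_gap C c0 c1 hc01).and
    ((ev_power 12 (1 / (6 * (l : ℝ) + 3)) c0 hδ hc0pos.le).and
    ((ev_power 20 (1 / 3) c0 (by norm_num) hc0pos.le).and (eventually_ge_atTop 3)))))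
  have htend : Tendsto (fun x : ℕ => Real.log (x : ℝ)) atTop atTop :=
    Real.tendsto_log_atTop.comp tendsto_natCast_atTop_atTop
  obtain ⟨x₀, hx₀⟩ := eventually_atTop.mp ((htend.eventually hev).and (eventually_ge_atTop 1))
  refine ⟨x₀, fun x hx => ?_⟩
  obtain ⟨⟨h1, h2, h3, h4, h5, h6⟩, h7⟩ := hx₀ x hx
  set L := Real.log (x : ℝ) with hL
  have hx1 : (1 : ℝ) ≤ x := by exact_mod_cast h7
  have hx0 : (0 : ℝ) < x := by linarith
  have hR0 : 0 ≤ RR L := Real.sqrt_nonneg _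
  set y := Real.exp (RR L / √2) with hy
  have hy1 : 1 ≤ y := Real.one_le_exp (by positivity)
  have hmain := hC x y h7 hy1
  have hsm := h1 x h7 rfl
  -- second term
  have t2 : C * x * y ^ (-1 + 2 / ((l : ℝ) + 1)) ≤ x * (1 / 4 * Real.exp (-c0 * RR L)) := by
    have e1 : y ^ (-1 + 2 / ((l : ℝ) + 1)) ≤ Real.exp (-c1 * RR L) := by
      rw [hy, Real.rpow_def_of_pos (Real.exp_pos _), Real.log_exp]
      apply Real.exp_le_exp.mpr
      have : -1 + 2 / ((l : ℝ) + 1) ≤ -(c1 * √2) := by linarith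
      calc RR L / √2 * (-1 + 2 / ((l : ℝ) + 1)) ≤ RR L / √2 * (-(c1 * √2)) := by gcongr
        _ = -c1 * RR L := by field_simp
    calc C * x * y ^ (-1 + 2 / ((l : ℝ) + 1)) ≤ C * x * Real.exp (-c1 * RR L) := by gcongr
      _ = x * (C * Real.exp (-c1 * RR L)) := by ring
      _ ≤ _ := by gcongr
  have t3 : 12 * x * (x : ℝ) ^ (-(1 / (6 * (l : ℝ) + 3))) * (1 + Real.log x)
      ≤ x * (1 / 4 * Real.exp (-c0 * RR L)) := by
    have e1 : (x : ℝ) ^ (-(1 / (6 * (l : ℝ) + 3))) = Real.exp (-(1 / (6 * (l : ℝ) + 3)) * L) := by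
      rw [Real.rpow_def_of_pos hx0]; congr 1; ring
    rw [e1]
    calc 12 * x * Real.exp (-(1 / (6 * (l : ℝ) + 3)) * L) * (1 + L)
        = x * (12 * Real.exp (-(1 / (6 * (l : ℝ) + 3)) * L) * (1 + L)) := by ring
      _ ≤ _ := by gcongr
  have t4 : 20 * (x : ℝ) ^ (2 / 3 : ℝ) ≤ x * (1 / 4 * Real.exp (-c0 * RR L)) := by
    have e1 : (x : ℝ) ^ (2 / 3 : ℝ) = x * Real.exp (-(1 / 3) * L) := by
      rw [show (2 / 3 : ℝ) = 1 - 1 / 3 by norm_num, Real.rpow_sub hx0, Real.rpow_one,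
        div_eq_mul_inv, Real.rpow_def_of_pos hx0, ← Real.exp_neg]
      congr 2
      rw [← hL]; ring
    rw [e1]
    calc 20 * (x * Real.exp (-(1 / 3) * L)) = x * (20 * Real.exp (-(1 / 3) * L) * 1) := by ring
      _ ≤ x * (20 * Real.exp (-(1 / 3) * L) * (1 + L)) := by
          gcongr
          linarith
      _ ≤ _ := by gcongr
  have t1 : ((Smooth x y).card : ℝ) ≤ x * (1 / 4 * Real.exp (-c0 * RR L)) := by
    refine hsm.trans ?_
    rw [one_mul] at h2
    gcongr
  have hfin : ((Sol x).card : ℝ) ≤ x * Real.exp (-c0 * RR L) := by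
    calc ((Sol x).card : ℝ) ≤ _ := hmain
      _ ≤ x * (1 / 4 * Real.exp (-c0 * RR L)) + x * (1 / 4 * Real.exp (-c0 * RR L))
          + x * (1 / 4 * Real.exp (-c0 * RR L)) + x * (1 / 4 * Real.exp (-c0 * RR L)) := by
          gcongr
      _ = _ := by ring
  refine hfin.trans ?_
  have hRR : √(Real.log x * Real.log (Real.log x)) = RR L := rfl
  rw [hRR]
  have : c ≤ c0 := le_max_left _ _
  gcongr

end Pool.Agent.Helper22.Morley
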