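import Mathlib

set_option autoImplicit false

/-!
# The normalised central binomial coefficients modulo an odd prime
-/

namespace Pool.Agent.Helper22.Morley

open Finset

/-- `u q t = C(2t,t) (-16)^(-t)` in `ZMod q`. -/
def u (q : ℕ) (t : ℕ) : ZMod q := (Nat.centralBinom t : ZMod q) * ((-16 : ZMod q)⁻¹) ^ t

variable {q : ℕ} [hq : Fact q.Prime]

theorem two_ne (h2 : q ≠ 2) : (2 : ZMod q) ≠ 0 := by
  intro h
  have h' : ((2 : ℕ) : ZMod q) = 0 := by exact_mod_cast h
  rw [ZMod.natCast_eq_zero_iff] at h'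
  exact h2 ((Nat.prime_dvd_prime_iff_eq hq.out Nat.prime_two).mp h')

theorem sixteen_ne (h2 : q ≠ 2) : (-16 : ZMod q) ≠ 0 := by
  have := two_ne h2
  have h : (-16 : ZMod q) = -(2 * 2 * 2 * 2) := by norm_num
  rw [h]
  simp [this]

theorem centralBinom_add_mul (t0 t' : ℕ) (ht : t0 < q) :
    (Nat.centralBinom (t0 + q * t') : ZMod q)
      = (Nat.centralBinom t0 : ZMod q) * (Nat.centralBinom t' : ZMod q) := by
  have hq0 : 0 < q := hq.out.pos
  have key := @Choose.choose_modEq_choose_mod_mul_choose_div_nat (2 * (t0 + q * t'))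
    (t0 + q * t') q _
  have key2 := @Choose.choose_modEq_choose_mod_mul_choose_div_nat (2 * t0) t0 q _
  rw [← ZMod.natCast_eq_natCast_iff] at key key2
  push_cast at key key2
  rw [Nat.centralBinom_eq_two_mul_choose, Nat.centralBinom_eq_two_mul_choose,
    Nat.centralBinom_eq_two_mul_choose, key]
  have hmod : (t0 + q * t') % q = t0 := by
    rw [Nat.add_mul_mod_self_left, Nat.mod_eq_of_lt ht]
  have hdiv : (t0 + q * t') / q = t' := by
    rw [Nat.add_mul_div_left _ _ hq0, Nat.div_eq_of_lt ht, zero_add]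
  have hmod2 : (2 * (t0 + q * t')) % q = (2 * t0) % q := by
    rw [show 2 * (t0 + q * t') = 2 * t0 + q * (2 * t') by ring, Nat.add_mul_mod_self_left]
  rw [hmod, hdiv, hmod2]
  by_cases h : 2 * t0 < q
  · have hdiv2 : (2 * (t0 + q * t')) / q = 2 * t' := by
      rw [show 2 * (t0 + q * t') = 2 * t0 + q * (2 * t') by ring,
        Nat.add_mul_div_left _ _ hq0, Nat.div_eq_of_lt h, zero_add]
    rw [hdiv2, Nat.mod_eq_of_lt h]
  · push Not at h
    have hm : (2 * t0) % q < t0 := by
      rw [Nat.mod_eq_sub_mod h, Nat.mod_eq_of_lt (by omega)]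
      omega
    have h0 : Nat.choose ((2 * t0) % q) t0 = 0 := Nat.choose_eq_zero_of_lt hm
    have h1 : (2 * t0).choose t0 = ((0 : ℕ) : ZMod q) := by
      rw [key2, Nat.mod_eq_of_lt ht, h0]; simp
    rw [h0, h1]; simp

theorem u_add_mul (t0 t' : ℕ) (ht : t0 < q) : u q (t0 + q * t') = u q t0 * u q t' := by
  unfold u
  rw [centralBinom_add_mul t0 t' ht, pow_add, pow_mul, ZMod.pow_card]
  ring

theorem u_eq (s : ℕ) : u q s = u q (s % q) * u q (s / q) := by
  rw [← u_add_mul _ _ (Nat.mod_lt _ hq.out.pos), Nat.mod_add_div]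

theorem u_ne_zero (h2 : q ≠ 2) {t : ℕ} (ht : 2 * t < q) : u q t ≠ 0 := by
  unfold u
  apply mul_ne_zero
  · rw [Ne, ZMod.natCast_eq_zero_iff]
    intro h
    have h3 : q ∣ (2 * t).factorial := by
      have : t.factorial * t.factorial * Nat.centralBinom t = (2 * t).factorial := by
        rw [Nat.centralBinom_eq_two_mul_choose]
        have := Nat.choose_mul_factorial_mul_factorial (show t ≤ 2 * t by omega)
        rw [show 2 * t - t = t by omega] at this
        linarith
      rw [← this]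
      exact h.mul_left _
    rw [hq.out.dvd_factorial] at h3
    omega
  · exact pow_ne_zero _ (inv_ne_zero (sixteen_ne h2))

theorem u_eq_zero {t : ℕ} (ht : t < q) (ht2 : q ≤ 2 * t) : u q t = 0 := by
  have key2 := @Choose.choose_modEq_choose_mod_mul_choose_div_nat (2 * t) t q _
  rw [← ZMod.natCast_eq_natCast_iff] at key2
  push_cast at key2
  have hm : (2 * t) % q < t := by
    rw [Nat.mod_eq_sub_mod ht2, Nat.mod_eq_of_lt (by omega)]
    omega
  unfold u
  rw [Nat.centralBinom_eq_two_mul_choose, key2, Nat.mod_eq_of_lt ht, Nat.choose_eq_zero_of_lt hm]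
  simp

theorem u_ne_zero_iff (h2 : q ≠ 2) {t : ℕ} (ht : t < q) : u q t ≠ 0 ↔ 2 * t < q := by
  constructor
  · intro h
    by_contra h'
    exact h (u_eq_zero ht (by omega))
  · exact u_ne_zero h2

theorem u_zero : u q 0 = 1 := by simp [u]

theorem u_step (h2 : q ≠ 2) (t : ℕ) :
    (-8 * ((t : ZMod q) + 1)) * u q (t + 1) = (2 * (t : ZMod q) + 1) * u q t := by
  have h16 := sixteen_ne (q := q) h2
  have h := congrArg (fun n : ℕ => (n : ZMod q)) (Nat.succ_mul_centralBinom_succ t)
  push_cast at h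
  unfold u
  rw [pow_succ]
  have hx : (-16 : ZMod q) * (-16)⁻¹ = 1 := mul_inv_cancel₀ h16
  have h2' := two_ne (q := q) h2
  have e1 : (-8 * ((t : ZMod q) + 1)) * ((Nat.centralBinom (t + 1) : ZMod q) *
      ((-16)⁻¹ ^ t * (-16)⁻¹)) =
      -8 * (((t : ZMod q) + 1) * (Nat.centralBinom (t + 1) : ZMod q)) * (-16)⁻¹ ^ t * (-16)⁻¹ := by
    ring
  rw [e1, h]
  have e2 : -8 * (2 * (2 * (t : ZMod q) + 1) * (Nat.centralBinom t : ZMod q)) * (-16)⁻¹ ^ t
      * (-16)⁻¹ = (2 * (t : ZMod q) + 1) * (Nat.centralBinom t : ZMod q) * (-16)⁻¹ ^ t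
      * ((-16 : ZMod q) * (-16)⁻¹) := by ring
  rw [e2, hx]
  ring

theorem u_steps (h2 : q ≠ 2) (t d : ℕ) :
    (∏ i ∈ range d, (-8 * ((t : ZMod q) + (i + 1)))) * u q (t + d)
      = (∏ i ∈ range d, (2 * (t : ZMod q) + (2 * i + 1))) * u q t := by
  induction d with
  | zero => simp
  | succ d ih =>
    rw [prod_range_succ, prod_range_succ]
    have h := u_step (q := q) h2 (t + d)
    push_cast at h
    have e : (∏ i ∈ range d, (-8 * ((t : ZMod q) + (i + 1)))) * (-8 * ((t : ZMod q) + (d + 1)))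
        * u q (t + (d + 1)) = (∏ i ∈ range d, (-8 * ((t : ZMod q) + (i + 1)))) *
        ((-8 * ((t : ZMod q) + d + 1)) * u q (t + d + 1)) := by
      rw [show t + (d + 1) = t + d + 1 by ring]; ring
    rw [e, h]
    have e' : (∏ i ∈ range d, (-8 * ((t : ZMod q) + (i + 1)))) *
        ((2 * ((t : ZMod q) + d) + 1) * u q (t + d)) =
        ((∏ i ∈ range d, (-8 * ((t : ZMod q) + (i + 1)))) * u q (t + d)) *
        (2 * (t : ZMod q) + (2 * d + 1)) := by ring
    rw [e', ih]; ring

open Polynomial in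
/-- For fixed `d ≥ 1` and `ρ ≠ 0` there are at most `d` places `t` with `u (t+d) = ρ u t`. -/
theorem card_shift_le (h2 : q ≠ 2) (ρ : ZMod q) (hρ : ρ ≠ 0) (d : ℕ) (hd : 1 ≤ d)
    (hdq : 2 * d ≤ q) :
    ((range q).filter (fun t => 2 * t < q ∧ u q (t + d) = ρ * u q t)).card ≤ d := by
  classical
  set P : (ZMod q)[X] := (C ρ) * ∏ i ∈ range d, (C (-8) * (X + C ((i : ZMod q) + 1)))
    - ∏ i ∈ range d, (C 2 * X + C (2 * (i : ZMod q) + 1)) with hP
  have h2' := two_ne (q := q) h2
  have hne : P ≠ 0 := by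
    intro h0
    have hev : P.eval (-(2 : ZMod q)⁻¹) = 0 := by rw [h0]; simp
    rw [hP] at hev
    simp only [eval_sub, eval_mul, eval_C, eval_prod, eval_add, eval_X] at hev
    have hz : ∏ i ∈ range d, (2 * (-(2 : ZMod q)⁻¹) + (2 * (i : ZMod q) + 1)) = 0 := by
      apply prod_eq_zero (mem_range.mpr (show 0 < d by omega))
      rw [mul_neg, mul_inv_cancel₀ h2']; simp
    rw [hz, sub_zero, mul_eq_zero] at hev
    rcases hev with h | h
    · exact hρ h
    · rw [prod_eq_zero_iff] at h
      obtain ⟨i, hi, h⟩ := h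
      rw [mem_range] at hi
      rw [mul_eq_zero] at h
      rcases h with h | h
      · have : (2 : ZMod q) * 2 * 2 = 0 := by
          have : (2 : ZMod q) * 2 * 2 = - (-8) := by norm_num
          rw [this, h]; simp
        simp [h2'] at this
      · have h3 : ((2 * i + 1 : ℕ) : ZMod q) = 0 := by
          push_cast
          have : (2 : ZMod q) * (-(2 : ZMod q)⁻¹ + ((i : ZMod q) + 1)) = 0 := by rw [h]; simp
          have e : (2 : ZMod q) * (-(2 : ZMod q)⁻¹ + ((i : ZMod q) + 1))
            = -(2 * (2 : ZMod q)⁻¹) + 2 * i + 2 := by ring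
          rw [e, mul_inv_cancel₀ h2'] at this
          rw [← this]; ring
        rw [ZMod.natCast_eq_zero_iff] at h3
        have := Nat.le_of_dvd (by omega) h3
        omega
  have hdeg : P.natDegree ≤ d := by
    rw [hP]
    refine (natDegree_sub_le _ _).trans (max_le ?_ ?_)
    · refine (natDegree_C_mul_le _ _).trans ?_
      refine (natDegree_prod_le _ _).trans ?_
      calc ∑ i ∈ range d, (C (-8) * (X + C ((i : ZMod q) + 1))).natDegree
          ≤ ∑ i ∈ range d, 1 := by
            apply sum_le_sum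
            intro i _
            refine (natDegree_C_mul_le _ _).trans ?_
            exact (natDegree_X_add_C _).le
        _ = d := by simp
    · refine (natDegree_prod_le _ _).trans ?_
      calc ∑ i ∈ range d, (C 2 * X + C (2 * (i : ZMod q) + 1)).natDegree
          ≤ ∑ i ∈ range d, 1 := by
            apply sum_le_sum
            intro i _
            exact natDegree_linear_le
        _ = d := by simp
  set T := (range q).filter (fun t => 2 * t < q ∧ u q (t + d) = ρ * u q t) with hT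
  have hinj : Set.InjOn (fun t : ℕ => (t : ZMod q)) (T : Set ℕ) := by
    intro a ha b hb hab
    simp only [hT, coe_filter, mem_range, Set.mem_ofPred_eq] at ha hb
    have : (a : ZMod q) = (b : ZMod q) := hab
    rw [ZMod.natCast_eq_natCast_iff] at this
    exact Nat.ModEq.eq_of_lt_of_lt this ha.1 hb.1
  rw [← card_image_of_injOn hinj]
  refine le_trans ?_ hdeg
  apply Polynomial.card_le_degree_of_subset_roots
  intro z hz
  rw [Finset.mem_val, mem_image] at hz
  obtain ⟨t, ht, rfl⟩ := hz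
  rw [hT, mem_filter, mem_range] at ht
  rw [mem_roots hne, IsRoot, hP]
  simp only [eval_sub, eval_mul, eval_C, eval_prod, eval_add, eval_X]
  have h := u_steps (q := q) h2 t d
  rw [ht.2.2] at h
  have hu := u_ne_zero (q := q) h2 ht.2.1
  have h' : (ρ * (∏ i ∈ range d, (-8 * ((t : ZMod q) + (i + 1)))) -
    (∏ i ∈ range d, (2 * (t : ZMod q) + (2 * i + 1)))) * u q t = 0 := by
    rw [sub_mul, ← h]; ring
  rw [mul_eq_zero] at h'
  rcases h' with h' | h'
  · exact h'
  · exact absurd h' hu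

end Pool.Agent.Helper22.Morley
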