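import Pool.Agent.Helper22.Morley.Link

set_option autoImplicit false

/-!
# Bounds for the number of solutions divisible by a given prime
-/

namespace Pool.Agent.Helper22.Morley

open Finset

section
variable {q : ℕ} [hq : Fact q.Prime]

theorem card_D_le (h2 : q ≠ 2) : (D q).card ≤ q := by
  have := card_D_odd (q := q) h2
  have := hq.out.two_le
  omega

/-- Admissible block length. -/
theorem K_ok (a : ℝ) (_ha : 1 ≤ a) (haq : a ^ 2 ≤ (q : ℝ)) : 2 * (⌊a⌋₊ + 1) ≤ q + 2 := by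
  have h1 : ⌊a⌋₊ ^ 2 ≤ q := by
    have : ((⌊a⌋₊ ^ 2 : ℕ) : ℝ) ≤ (q : ℝ) := by
      push_cast
      calc ((⌊a⌋₊ : ℝ)) ^ 2 ≤ a ^ 2 := by
            apply pow_le_pow_left₀ (by positivity)
            exact Nat.floor_le (by linarith)
        _ ≤ (q : ℝ) := haq
    exact_mod_cast this
  have := hq.out.two_le
  rcases Nat.lt_or_ge ⌊a⌋₊ 2 with h | h
  · omega
  · nlinarith

/-- Numbers with `2l` digits. -/
theorem card_digits_real (h2 : q ≠ 2) (l : ℕ) (hl : 1 ≤ l) (lam : ZMod q) (hlam : lam ≠ 0) :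
    (((range (q ^ (2 * l))).filter (fun s => u q s = lam)).card : ℝ)
      ≤ (2 * l + 1) * 4 ^ l * (q : ℝ) ^ (2 * l - 1 + 1 / ((l : ℝ) + 1)) := by
  have hq0 : 0 < q := hq.out.pos
  have hq1 : (1 : ℝ) ≤ q := by exact_mod_cast hq.out.one_le
  have hqpos : (0 : ℝ) < q := by linarith
  have hl' : (1 : ℝ) ≤ l := by exact_mod_cast hl
  set e : ℝ := 1 / ((l : ℝ) + 1) with he
  have he0 : 0 < e := by positivity
  have he2 : e ≤ 1 / 2 := by
    rw [he]
    apply one_div_le_one_div_of_le <;> linarith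
  set a : ℝ := (q : ℝ) ^ e with ha
  have ha1 : 1 ≤ a := Real.one_le_rpow hq1 he0.le
  have haq : a ^ 2 ≤ (q : ℝ) := by
    rw [ha, ← Real.rpow_natCast, ← Real.rpow_mul hqpos.le]
    calc (q : ℝ) ^ (e * (2 : ℕ)) ≤ (q : ℝ) ^ (1 : ℝ) := by
          apply Real.rpow_le_rpow_of_exponent_le hq1
          push_cast; linarith
      _ = q := Real.rpow_one _
  have haq' : a ≤ q := by nlinarith
  set K := ⌊a⌋₊ + 1 with hK
  set N := (D q).card with hN
  set M := N / K + 1 with hM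
  have hKpos : 0 < K := by omega
  have hNM : N ≤ M * K := by
    have := Nat.div_add_mod N K
    have h1 := Nat.mod_lt N hKpos
    rw [hM, Nat.add_mul, one_mul, mul_comm]
    omega
  have hcard := card_even_digits (q := q) h2 hKpos hNM l lam hlam
  have hR := card_R_bound (q := q) h2 hKpos hNM (K_ok a ha1 haq) l 1 one_ne_zero
  have hNle : (N : ℝ) ≤ q := by exact_mod_cast card_D_le h2
  have hKle : (K : ℝ) ≤ 2 * a := by
    rw [hK]; push_cast
    have := Nat.floor_le (show 0 ≤ a by linarith)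
    linarith
  have hKge : a ≤ K := by
    rw [hK]; push_cast
    exact (Nat.lt_floor_add_one a).le
  have hMle : (M : ℝ) ≤ 2 * q / a := by
    rw [hM]; push_cast
    have h1 : ((N / K : ℕ) : ℝ) ≤ (N : ℝ) / K := Nat.cast_div_le
    have h3 : (N : ℝ) / K ≤ q / a := div_le_div₀ hqpos.le hNle (by linarith) hKge
    have h4 : 1 ≤ (q : ℝ) / a := by rw [one_le_div (by linarith)]; exact haq'
    calc ((N / K : ℕ) : ℝ) + 1 ≤ q / a + q / a := by linarith
      _ = 2 * q / a := by ring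
  have hapos : 0 < a := by linarith
  calc (((range (q ^ (2 * l))).filter (fun s => u q s = lam)).card : ℝ)
      ≤ (M : ℝ) ^ l * ((N : ℝ) ^ l + l * ((N : ℝ) ^ (l - 1) * (K : ℝ) ^ (l + 1))) := by
        have := hcard.trans (Nat.mul_le_mul_left _ hR)
        exact_mod_cast this
    _ ≤ (2 * q / a) ^ l * ((q : ℝ) ^ l + l * ((q : ℝ) ^ (l - 1) * (2 * a) ^ (l + 1))) := by
        gcongr
    _ = 2 ^ l * ((q : ℝ) ^ (2 * l) / a ^ l) + l * 2 ^ (2 * l + 1) * ((q : ℝ) ^ (2 * l - 1) * a) := by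
        have e1 : (q : ℝ) ^ (2 * l) = (q : ℝ) ^ l * (q : ℝ) ^ l := by rw [← pow_add]; congr 1; omega
        have e2 : (q : ℝ) ^ (2 * l - 1) = (q : ℝ) ^ l * (q : ℝ) ^ (l - 1) := by
          rw [← pow_add]; congr 1; omega
        rw [e1, e2, div_pow, mul_pow, mul_pow]
        field_simp
        ring
    _ = 2 ^ l * (q : ℝ) ^ (2 * l - 1 + e) + l * 2 ^ (2 * l + 1) * (q : ℝ) ^ (2 * l - 1 + e) := by
        have e1 : (q : ℝ) ^ (2 * l) / a ^ l = (q : ℝ) ^ (2 * (l : ℝ) - 1 + e) := by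
          rw [ha, ← Real.rpow_natCast, ← Real.rpow_natCast, ← Real.rpow_mul hqpos.le,
            ← Real.rpow_sub hqpos]
          congr 1
          push_cast
          rw [he]
          field_simp
          ring
        have e2 : (q : ℝ) ^ (2 * l - 1) * a = (q : ℝ) ^ (2 * (l : ℝ) - 1 + e) := by
          rw [ha, ← Real.rpow_natCast, ← Real.rpow_add hqpos]
          congr 1
          rw [Nat.cast_sub (by omega)]
          push_cast
          ring
        rw [e1, e2]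
    _ = (2 ^ l + 2 * l * 4 ^ l) * (q : ℝ) ^ (2 * l - 1 + e) := by
        have : (2 : ℝ) ^ (2 * l + 1) = 2 * 4 ^ l := by
          rw [pow_succ, pow_mul]; norm_num; ring
        rw [this]; ring
    _ ≤ (2 * l + 1) * 4 ^ l * (q : ℝ) ^ (2 * l - 1 + e) := by
        have h24 : (2 : ℝ) ^ l ≤ 4 ^ l := pow_le_pow_left₀ (by norm_num) (by norm_num) l
        have hpos : (0 : ℝ) ≤ (q : ℝ) ^ (2 * l - 1 + e) := by positivity
        apply mul_le_mul_of_nonneg_right _ hpos
        linarith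

open scoped Classical in
/-- Solutions divisible by `q`, `q^(2l+1) ≤ x`. -/
theorem card_Sol_A (h2 : q ≠ 2) (l : ℕ) (hl : 1 ≤ l) (x : ℕ) (hx : q ^ (2 * l + 1) ≤ x) :
    (((Sol x).filter (fun n => q ∣ n)).card : ℝ)
      ≤ 2 * ((2 * l + 1) * 4 ^ l) * x * (q : ℝ) ^ (-2 + 1 / ((l : ℝ) + 1)) := by
  have hq0 : 0 < q := hq.out.pos
  have hqpos : (0 : ℝ) < q := by exact_mod_cast hq0
  set e : ℝ := 1 / ((l : ℝ) + 1) with he
  set CC : ℝ := (2 * l + 1) * 4 ^ l with hCC
  set C : ℝ := CC * (q : ℝ) ^ (2 * l - 1 + e) with hC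
  have hC0 : 0 ≤ C := by positivity
  have h1 := card_Sol_dvd (q := q) h2 x
  have h3 := card_lift (q := q) (2 * l) (x / q) ⌊C⌋₊ (by
    intro lam hlam
    rw [Nat.le_floor_iff hC0]
    refine le_trans ?_ (card_digits_real h2 l hl lam hlam)
    exact_mod_cast card_le_card (by
      intro s hs
      rw [mem_filter] at hs ⊢
      exact ⟨hs.1, hs.2.2⟩))
  have h4 : q ^ (2 * l) ≤ x / q := by
    rw [Nat.le_div_iff_mul_le hq0, ← pow_succ]; exact hx
  have h5 : (((x / q) / q ^ (2 * l) + 1 : ℕ) : ℝ) ≤ 2 * x / (q : ℝ) ^ (2 * l + 1) := by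
    have hqp : (0 : ℝ) < (q : ℝ) ^ (2 * l + 1) := by positivity
    have a1 : ((x / q / q ^ (2 * l) : ℕ) : ℝ) ≤ x / (q : ℝ) ^ (2 * l + 1) := by
      rw [Nat.div_div_eq_div_mul, ← pow_succ']
      refine Nat.cast_div_le.trans ?_
      push_cast; exact le_rfl
    have a2 : (1 : ℝ) ≤ x / (q : ℝ) ^ (2 * l + 1) := by
      rw [one_le_div hqp]; exact_mod_cast hx
    push_cast
    calc ((x / q / q ^ (2 * l) : ℕ) : ℝ) + 1 ≤ x / (q : ℝ) ^ (2 * l + 1) +
          x / (q : ℝ) ^ (2 * l + 1) := by linarith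
      _ = _ := by ring
  calc (((Sol x).filter (fun n => q ∣ n)).card : ℝ)
      ≤ (((x / q) / q ^ (2 * l) + 1 : ℕ) : ℝ) * (⌊C⌋₊ : ℝ) := by exact_mod_cast h1.trans h3
    _ ≤ (2 * x / (q : ℝ) ^ (2 * l + 1)) * C := by
        gcongr
        exact Nat.floor_le hC0
    _ = 2 * CC * x * ((q : ℝ) ^ (2 * l - 1 + e) / (q : ℝ) ^ (2 * l + 1)) := by
        rw [hC]; ring
    _ = 2 * CC * x * (q : ℝ) ^ (-2 + e) := by
        congr 1
        rw [← Real.rpow_natCast, ← Real.rpow_sub hqpos]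
        congr 1
        push_cast; ring

open scoped Classical in
/-- Solutions divisible by `q`, general bound. -/
theorem card_Sol_B (h2 : q ≠ 2) (x : ℕ) (V : ℝ) (hV : 1 ≤ V) (hVq : V ≤ q)
    (hVx : V ≤ ((x / q : ℕ) : ℝ)) :
    (((Sol x).filter (fun n => q ∣ n)).card : ℝ)
      ≤ 12 * x * V ^ (-(1 / 3 : ℝ)) * (1 / q) := by
  have hq0 : 0 < q := hq.out.pos
  have hqpos : (0 : ℝ) < q := by exact_mod_cast hq0
  set X := x / q with hX
  set W := min X q with hW
  have hWV : V ≤ W := by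
    rw [hW, Nat.cast_min]; exact le_min hVx hVq
  have hW1 : (1 : ℝ) ≤ W := hV.trans hWV
  have hWpos : (0 : ℝ) < W := by linarith
  set a : ℝ := (W : ℝ) ^ (1 / 3 : ℝ) with ha
  have ha1 : 1 ≤ a := Real.one_le_rpow hW1 (by norm_num)
  have ha3 : a ^ 3 = W := by
    rw [ha, ← Real.rpow_natCast, ← Real.rpow_mul hWpos.le]
    norm_num
  have hWq : (W : ℝ) ≤ q := by rw [hW, Nat.cast_min]; exact min_le_right _ _
  have haq : a ^ 2 ≤ (q : ℝ) := by
    calc a ^ 2 ≤ a ^ 3 := by nlinarith [sq_nonneg a]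
      _ = (W : ℝ) := ha3
      _ ≤ (q : ℝ) := hWq
  set K := ⌊a⌋₊ + 1 with hK
  have hKpos : 0 < K := by omega
  have hKok := K_ok (q := q) a ha1 haq
  have hKle : (K : ℝ) ≤ 2 * a := by
    rw [hK]; push_cast
    have := Nat.floor_le (show 0 ≤ a by linarith)
    linarith
  have hKge : a ≤ K := by
    rw [hK]; push_cast
    exact (Nat.lt_floor_add_one a).le
  have hapos : 0 < a := by linarith
  have h1 := card_Sol_dvd (q := q) h2 x
  have h3 := card_lift (q := q) 1 X (W / K + 1 + K ^ 2) (by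
    intro lam hlam
    refine le_trans (card_le_card ?_) (card_window (q := q) h2 hKpos hKok W lam)
    intro s hs
    rw [mem_filter, mem_range, pow_one] at hs
    rw [mem_filter, mem_D]
    refine ⟨?_, ?_, hs.2.2⟩
    · rw [← u_ne_zero_iff (q := q) h2 hs.1, hs.2.2]; exact hlam
    · rw [hW]; exact lt_min hs.2.1 hs.1)
  rw [pow_one] at h3
  have h4 : ((W / K + 1 + K ^ 2 : ℕ) : ℝ) ≤ 6 * a ^ 2 := by
    push_cast
    have b1 : ((W / K : ℕ) : ℝ) ≤ W / K := Nat.cast_div_le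
    have b2 : (W : ℝ) / K ≤ W / a := div_le_div_of_nonneg_left hWpos.le hapos hKge
    have b3 : (W : ℝ) / a = a ^ 2 := by rw [← ha3]; field_simp
    have b4 : (K : ℝ) ^ 2 ≤ (2 * a) ^ 2 := pow_le_pow_left₀ (by positivity) hKle 2
    nlinarith
  have h5 : ((X / q + 1 : ℕ) : ℝ) * W ≤ 2 * X := by
    have b1 : ((X / q : ℕ) : ℝ) ≤ X / q := Nat.cast_div_le
    push_cast
    have b2 : (W : ℝ) ≤ X := by rw [hW, Nat.cast_min]; exact min_le_left _ _
    have b3 : (X : ℝ) / q * W ≤ X := by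
      calc (X : ℝ) / q * W ≤ X / q * q := by gcongr
        _ = X := by field_simp
    nlinarith
  have h6 : (X : ℝ) ≤ x / q := Nat.cast_div_le
  have hax : a ^ 2 = W * (W : ℝ) ^ (-(1 / 3 : ℝ)) := by
    rw [Real.rpow_neg hWpos.le, ← ha, ← ha3]; field_simp
  have h7 : (W : ℝ) ^ (-(1 / 3 : ℝ)) ≤ V ^ (-(1 / 3 : ℝ)) := by
    apply Real.rpow_le_rpow_of_nonpos (by linarith) hWV (by norm_num)
  calc (((Sol x).filter (fun n => q ∣ n)).card : ℝ)
      ≤ ((X / q + 1 : ℕ) : ℝ) * ((W / K + 1 + K ^ 2 : ℕ) : ℝ) := by exact_mod_cast h1.trans h3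
    _ ≤ ((X / q + 1 : ℕ) : ℝ) * (6 * a ^ 2) := by gcongr
    _ = 6 * (((X / q + 1 : ℕ) : ℝ) * W) * (W : ℝ) ^ (-(1 / 3 : ℝ)) := by rw [hax]; ring
    _ ≤ 6 * (2 * X) * V ^ (-(1 / 3 : ℝ)) := by gcongr
    _ ≤ 6 * (2 * (x / q)) * V ^ (-(1 / 3 : ℝ)) := by gcongr
    _ = 12 * x * V ^ (-(1 / 3 : ℝ)) * (1 / q) := by ring

end

open scoped Classical in
/-- The numbers up to `x` all of whose prime factors are at most `y`. -/
noncomputable def Smooth (x : ℕ) (y : ℝ) : Finset ℕ :=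
  (Icc 1 x).filter (fun n => ∀ p : ℕ, p.Prime → p ∣ n → (p : ℝ) ≤ y)

open scoped Classical in
theorem main_inequality (l : ℕ) (hl : 1 ≤ l) : ∃ C : ℝ, 0 ≤ C ∧ ∀ (x : ℕ) (y : ℝ), 1 ≤ x → 1 ≤ y →
    ((Sol x).card : ℝ) ≤ (Smooth x y).card + C * x * y ^ (-1 + 2 / ((l : ℝ) + 1))
      + 12 * x * (x : ℝ) ^ (-(1 / (6 * (l : ℝ) + 3))) * (1 + Real.log x)
      + 20 * (x : ℝ) ^ (2 / 3 : ℝ) := by
  set e : ℝ := 1 / ((l : ℝ) + 1) with he
  have hl' : (1 : ℝ) ≤ l := by exact_mod_cast hl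
  have he0 : 0 < e := by positivity
  have he2 : e ≤ 1 / 2 := by
    rw [he]
    apply one_div_le_one_div_of_le <;> linarith
  have hsum : Summable (fun n : ℕ => (n : ℝ) ^ (-(1 + e))) :=
    Real.summable_nat_rpow.mpr (by linarith)
  set Z : ℝ := ∑' n : ℕ, (n : ℝ) ^ (-(1 + e)) with hZ
  have hZ0 : 0 ≤ Z := tsum_nonneg (fun n => by positivity)
  set C0 : ℝ := 2 * ((2 * l + 1) * 4 ^ l) with hC0
  have hC00 : 0 ≤ C0 := by positivity
  refine ⟨C0 * Z, by positivity, ?_⟩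
  intro x y hx hy
  have hx1 : (1 : ℝ) ≤ x := by exact_mod_cast hx
  have hxpos : (0 : ℝ) < x := by linarith
  set B := ⌈(x : ℝ) ^ (1 / 3 : ℝ)⌉₊ with hB
  set A1 := (Icc 1 x).filter (fun q : ℕ => q.Prime ∧ q ≠ 2 ∧ y < (q : ℝ) ∧ q ^ (2 * l + 1) ≤ x) with hA1
  set A2 := (Icc 1 x).filter (fun q : ℕ => q.Prime ∧ q ≠ 2 ∧ x < q ^ (2 * l + 1) ∧ B ≤ x / q) with hA2
  have hsub : Sol x ⊆ Smooth x y ∪ (A1.biUnion (fun q => (Sol x).filter (fun n => q ∣ n)) ∪
      (A2.biUnion (fun q => (Sol x).filter (fun n => q ∣ n)) ∪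
      (Sol x).filter (fun n => ∃ q m, q.Prime ∧ n = q * m ∧ m < B))) := by
    intro n hn
    have hn' := mem_Sol.mp hn
    obtain ⟨⟨h1, hnx⟩, ho, h1', hnp, hc⟩ := hn'
    by_cases hs : n ∈ Smooth x y
    · exact mem_union_left _ hs
    · have : ∃ q : ℕ, q.Prime ∧ q ∣ n ∧ y < (q : ℝ) := by
        by_contra hcon
        push Not at hcon
        apply hs
        unfold Smooth
        rw [mem_filter, mem_Icc]
        exact ⟨⟨h1, hnx⟩, hcon⟩
      obtain ⟨q, hqp, hqn, hyq⟩ := this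
      have hqx : q ≤ x := (Nat.le_of_dvd (by omega) hqn).trans hnx
      have hq2 : q ≠ 2 := by
        rintro rfl
        have := Nat.odd_iff.mp ho
        omega
      apply mem_union_right
      by_cases hc1 : q ^ (2 * l + 1) ≤ x
      · apply mem_union_left
        rw [mem_biUnion]
        refine ⟨q, ?_, ?_⟩
        · rw [hA1, mem_filter, mem_Icc]
          exact ⟨⟨hqp.one_le, hqx⟩, hqp, hq2, hyq, hc1⟩
        · rw [mem_filter]; exact ⟨hn, hqn⟩
      · apply mem_union_right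
        by_cases hc2 : B ≤ x / q
        · apply mem_union_left
          rw [mem_biUnion]
          refine ⟨q, ?_, ?_⟩
          · rw [hA2, mem_filter, mem_Icc]
            exact ⟨⟨hqp.one_le, hqx⟩, hqp, hq2, by omega, hc2⟩
          · rw [mem_filter]; exact ⟨hn, hqn⟩
        · apply mem_union_right
          rw [mem_filter]
          obtain ⟨m, rfl⟩ := hqn
          refine ⟨hn, q, m, hqp, rfl, ?_⟩
          push Not at hc2
          refine lt_of_le_of_lt ?_ hc2
          rw [Nat.le_div_iff_mul_le hqp.pos]; linarith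
  have hcard : (Sol x).card ≤ (Smooth x y).card + (∑ q ∈ A1, ((Sol x).filter (fun n => q ∣ n)).card
      + (∑ q ∈ A2, ((Sol x).filter (fun n => q ∣ n)).card + 5 * B ^ 2)) := by
    refine (card_le_card hsub).trans ?_
    refine (card_union_le _ _).trans ?_
    apply Nat.add_le_add_left
    refine (card_union_le _ _).trans ?_
    apply Nat.add_le_add card_biUnion_le
    refine (card_union_le _ _).trans ?_
    exact Nat.add_le_add card_biUnion_le (card_Sol_small_cofactor x B)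
  have hcard' : ((Sol x).card : ℝ) ≤ (Smooth x y).card +
      (∑ q ∈ A1, (((Sol x).filter (fun n => q ∣ n)).card : ℝ)
      + (∑ q ∈ A2, (((Sol x).filter (fun n => q ∣ n)).card : ℝ) + 5 * (B : ℝ) ^ 2)) := by
    exact_mod_cast hcard
  have hE1 : ∑ q ∈ A1, (((Sol x).filter (fun n => q ∣ n)).card : ℝ)
      ≤ C0 * Z * x * y ^ (-1 + 2 * e) := by
    calc ∑ q ∈ A1, (((Sol x).filter (fun n => q ∣ n)).card : ℝ)
        ≤ ∑ q ∈ A1, C0 * x * y ^ (-1 + 2 * e) * (q : ℝ) ^ (-(1 + e)) := by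
          apply sum_le_sum
          intro q hqA
          rw [hA1, mem_filter, mem_Icc] at hqA
          obtain ⟨_, hqp, hq2, hyq, hqx⟩ := hqA
          have : Fact q.Prime := ⟨hqp⟩
          have hqpos : (0 : ℝ) < q := by exact_mod_cast hqp.pos
          refine (card_Sol_A (q := q) hq2 l hl x hqx).trans ?_
          rw [← hC0, ← he]
          have e1 : (q : ℝ) ^ (-2 + e) = (q : ℝ) ^ (-1 + 2 * e) * (q : ℝ) ^ (-(1 + e)) := by
            rw [← Real.rpow_add hqpos]; congr 1; ring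
          have e2 : (q : ℝ) ^ (-1 + 2 * e) ≤ y ^ (-1 + 2 * e) := by
            apply Real.rpow_le_rpow_of_nonpos (by linarith) hyq.le (by linarith)
          rw [e1]
          calc C0 * x * ((q : ℝ) ^ (-1 + 2 * e) * (q : ℝ) ^ (-(1 + e)))
              ≤ C0 * x * (y ^ (-1 + 2 * e) * (q : ℝ) ^ (-(1 + e))) := by gcongr
            _ = _ := by ring
      _ = C0 * x * y ^ (-1 + 2 * e) * ∑ q ∈ A1, (q : ℝ) ^ (-(1 + e)) := by rw [mul_sum]
      _ ≤ C0 * x * y ^ (-1 + 2 * e) * Z := by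
          gcongr
          exact hsum.sum_le_tsum _ (fun n _ => by positivity)
      _ = _ := by ring
  have hE2 : ∑ q ∈ A2, (((Sol x).filter (fun n => q ∣ n)).card : ℝ)
      ≤ 12 * x * (x : ℝ) ^ (-(1 / (6 * (l : ℝ) + 3))) * (1 + Real.log x) := by
    set V : ℝ := (x : ℝ) ^ (1 / (2 * (l : ℝ) + 1)) with hV
    have hV1 : 1 ≤ V := Real.one_le_rpow hx1 (by positivity)
    have hVx : V ^ (-(1 / 3 : ℝ)) = (x : ℝ) ^ (-(1 / (6 * (l : ℝ) + 3))) := by
      rw [hV, ← Real.rpow_mul hxpos.le]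
      congr 1
      field_simp
      ring
    calc ∑ q ∈ A2, (((Sol x).filter (fun n => q ∣ n)).card : ℝ)
        ≤ ∑ q ∈ A2, 12 * x * V ^ (-(1 / 3 : ℝ)) * (1 / (q : ℝ)) := by
          apply sum_le_sum
          intro q hqA
          rw [hA2, mem_filter, mem_Icc] at hqA
          obtain ⟨_, hqp, hq2, hqx, hqB⟩ := hqA
          have : Fact q.Prime := ⟨hqp⟩
          have hqpos : (0 : ℝ) < q := by exact_mod_cast hqp.pos
          apply card_Sol_B (q := q) hq2 x V hV1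
          · have : (x : ℝ) ≤ (q : ℝ) ^ (2 * l + 1) := by exact_mod_cast hqx.le
            calc V ≤ ((q : ℝ) ^ (2 * l + 1)) ^ (1 / (2 * (l : ℝ) + 1)) := by
                  rw [hV]
                  exact Real.rpow_le_rpow hxpos.le this (by positivity)
              _ = q := by
                  rw [← Real.rpow_natCast, ← Real.rpow_mul hqpos.le]
                  have : ((2 * l + 1 : ℕ) : ℝ) * (1 / (2 * (l : ℝ) + 1)) = 1 := by
                    push_cast; field_simp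
                  rw [this, Real.rpow_one]
          · calc V ≤ (x : ℝ) ^ (1 / 3 : ℝ) := by
                  rw [hV]
                  apply Real.rpow_le_rpow_of_exponent_le hx1
                  apply one_div_le_one_div_of_le <;> linarith
              _ ≤ B := Nat.le_ceil _
              _ ≤ ((x / q : ℕ) : ℝ) := by exact_mod_cast hqB
      _ = 12 * x * V ^ (-(1 / 3 : ℝ)) * ∑ q ∈ A2, (1 / (q : ℝ)) := by rw [mul_sum]
      _ ≤ 12 * x * V ^ (-(1 / 3 : ℝ)) * (1 + Real.log x) := by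
          gcongr
          calc ∑ q ∈ A2, (1 / (q : ℝ)) ≤ ∑ q ∈ Icc 1 x, (1 / (q : ℝ)) := by
                apply sum_le_sum_of_subset_of_nonneg (filter_subset _ _)
                intro i _ _; positivity
            _ = ((harmonic x : ℚ) : ℝ) := by
                rw [harmonic_eq_sum_Icc]; push_cast
                apply sum_congr rfl
                intro i _; rw [one_div]
            _ ≤ 1 + Real.log x := harmonic_le_one_add_log x
      _ = _ := by rw [hVx]
  have hE3 : 5 * (B : ℝ) ^ 2 ≤ 20 * (x : ℝ) ^ (2 / 3 : ℝ) := by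
    set b : ℝ := (x : ℝ) ^ (1 / 3 : ℝ) with hb
    have hb1 : 1 ≤ b := Real.one_le_rpow hx1 (by norm_num)
    have hBb : (B : ℝ) ≤ 2 * b := by
      have := Nat.ceil_lt_add_one (show 0 ≤ b by linarith)
      rw [hB]; linarith
    have hb2 : (x : ℝ) ^ (2 / 3 : ℝ) = b ^ 2 := by
      rw [hb, ← Real.rpow_natCast, ← Real.rpow_mul hxpos.le]
      norm_num
    rw [hb2]
    have hB0 : (0 : ℝ) ≤ B := by positivity
    nlinarith
  have he' : (-1 : ℝ) + 2 / ((l : ℝ) + 1) = -1 + 2 * e := by rw [he]; ring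
  rw [he']
  linarith

end Pool.Agent.Helper22.Morley
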