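import Pool.Agent.Helper22.Morley.Energy

set_option autoImplicit false

/-!
# Counting solutions of `u s = lam`
-/

namespace Pool.Agent.Helper22.Morley

open Finset

variable {q : ℕ} [hq : Fact q.Prime]

theorem u_pow_mul (l a b : ℕ) (ha : a < q ^ l) : u q (a + q ^ l * b) = u q a * u q b := by
  induction l generalizing a with
  | zero =>
    rw [pow_zero] at ha
    have : a = 0 := by omega
    subst this
    rw [u_zero]; simp
  | succ l ih =>
    have hq0 : 0 < q := hq.out.pos
    have h1 : a / q < q ^ l := by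
      rw [Nat.div_lt_iff_lt_mul hq0, ← pow_succ]; exact ha
    have e : a + q ^ (l + 1) * b = a % q + q * (a / q + q ^ l * b) := by
      conv_lhs => rw [← Nat.mod_add_div a q]
      ring
    rw [e, u_add_mul _ _ (Nat.mod_lt _ hq0), ih _ h1, u_eq (q := q) a]
    ring

theorem β_lt (h2 : q ≠ 2) {K M : ℕ} (hK : 0 < K) (hM : (D q).card ≤ M * K) (l s : ℕ)
    (hs : s ∈ S q l) : β q K M l s < M ^ l := by
  induction l generalizing s with
  | zero => simp [β]
  | succ l ih =>
    rw [mem_S_succ h2] at hs
    have h1 := digit_block h2 hK hM hs.1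
    have h3 := ih _ hs.2
    simp only [β]
    calc (s % q) / K + M * β q K M l (s / q) < M + M * β q K M l (s / q) :=
          Nat.add_lt_add_right h1 _
      _ = M * (β q K M l (s / q) + 1) := by ring
      _ ≤ M * M ^ l := Nat.mul_le_mul_left _ h3
      _ = M ^ (l + 1) := by ring

theorem card_ratio (A B : Finset ℕ) (f : ℕ → ZMod q) (lam : ZMod q) (hlam : lam ≠ 0) :
    2 * ((A ×ˢ B).filter (fun p => f p.1 * f p.2 = lam)).card ≤
      ((A ×ˢ A).filter (fun p => f p.1 = f p.2)).card +
      ((B ×ˢ B).filter (fun p => f p.1 = f p.2)).card := by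
  classical
  have key : ∀ (C : Finset ℕ), ((C ×ˢ C).filter (fun p => f p.1 = f p.2)).card
      = ∑ μ : ZMod q, (C.filter (fun x => f x = μ)).card ^ 2 := by
    intro C
    have hmap : (((C ×ˢ C).filter (fun p => f p.1 = f p.2) : Finset (ℕ × ℕ)) :
        Set (ℕ × ℕ)).MapsTo (fun p => f p.1) ((univ : Finset (ZMod q)) : Set (ZMod q)) := by
      intro p _; simp
    rw [card_eq_sum_card_fiberwise hmap]
    apply sum_congr rfl
    intro μ _
    rw [pow_two, ← card_product]
    congr 1
    ext p
    simp only [mem_filter, mem_product]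
    constructor
    · rintro ⟨⟨⟨h1, h2⟩, h3⟩, h4⟩
      exact ⟨⟨h1, h4⟩, h2, by rw [← h3, h4]⟩
    · rintro ⟨⟨h1, h4⟩, h2, h3⟩
      exact ⟨⟨⟨h1, h2⟩, by rw [h4, h3]⟩, h4⟩
  have hmap : (((A ×ˢ B).filter (fun p => f p.1 * f p.2 = lam) : Finset (ℕ × ℕ)) :
        Set (ℕ × ℕ)).MapsTo (fun p => f p.1) ((univ : Finset (ZMod q)) : Set (ZMod q)) := by
      intro p _; simp
  have hinvol : Function.Bijective (fun μ : ZMod q => lam / μ) := by
    apply Function.Involutive.bijective
    intro μ
    show lam / (lam / μ) = μ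
    by_cases h : μ = 0
    · subst h; simp
    · field_simp
  rw [card_eq_sum_card_fiberwise hmap, key A, key B]
  have hB : ∑ μ : ZMod q, (B.filter (fun x => f x = μ)).card ^ 2
      = ∑ μ : ZMod q, (B.filter (fun x => f x = lam / μ)).card ^ 2 :=
    (Function.Bijective.sum_comp hinvol (fun μ => (B.filter (fun x => f x = μ)).card ^ 2)).symm
  rw [hB, ← sum_add_distrib, mul_sum]
  apply sum_le_sum
  intro μ _
  have hle : (((A ×ˢ B).filter (fun p => f p.1 * f p.2 = lam)).filter (fun p => f p.1 = μ)).card
      ≤ (A.filter (fun x => f x = μ)).card * (B.filter (fun x => f x = lam / μ)).card := by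
    rw [← card_product]
    apply card_le_card
    intro p
    simp only [mem_filter, mem_product]
    rintro ⟨⟨⟨h1, h2⟩, h3⟩, h4⟩
    refine ⟨⟨h1, h4⟩, h2, ?_⟩
    rw [← h4]
    have : f p.1 ≠ 0 := by
      intro h0
      rw [h0, zero_mul] at h3
      exact hlam h3.symm
    rw [eq_div_iff this, mul_comm]; exact h3
  have := two_mul_le_add_sq (A.filter (fun x => f x = μ)).card
    (B.filter (fun x => f x = lam / μ)).card
  nlinarith

theorem card_even_digits (h2 : q ≠ 2) {K M : ℕ} (hK : 0 < K) (hM : (D q).card ≤ M * K)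
    (l : ℕ) (lam : ZMod q) (hlam : lam ≠ 0) :
    ((range (q ^ (2 * l))).filter (fun s => u q s = lam)).card
      ≤ M ^ l * (R q K M l 1).card := by
  classical
  have hq0 : 0 < q := hq.out.pos
  have hql : 0 < q ^ l := pow_pos hq0 _
  set V := (S q l ×ˢ S q l).filter (fun p => u q p.1 * u q p.2 = lam) with hV
  have h1 : ((range (q ^ (2 * l))).filter (fun s => u q s = lam)).card ≤ V.card := by
    apply card_le_card_of_injOn (fun s => (s % q ^ l, s / q ^ l))
    · intro s hs
      rw [mem_coe, mem_filter, mem_range] at hs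
      have hm := Nat.mod_lt s hql
      have hd : s / q ^ l < q ^ l := by
        rw [Nat.div_lt_iff_lt_mul hql, ← pow_add, ← two_mul]; exact hs.1
      have hu := u_pow_mul (q := q) l (s % q ^ l) (s / q ^ l) hm
      rw [Nat.mod_add_div] at hu
      have hprod : u q (s % q ^ l) * u q (s / q ^ l) = lam := by rw [← hu]; exact hs.2
      rw [hV]
      simp only [mem_coe, mem_filter, mem_product, S, mem_range]
      refine ⟨⟨⟨hm, ?_⟩, hd, ?_⟩, hprod⟩
      · intro h0; rw [h0, zero_mul] at hprod; exact hlam hprod.symm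
      · intro h0; rw [h0, mul_zero] at hprod; exact hlam hprod.symm
    · intro s _ s' _ h
      rw [Prod.mk.injEq] at h
      rw [← Nat.mod_add_div s (q ^ l), ← Nat.mod_add_div s' (q ^ l), h.1, h.2]
  refine h1.trans ?_
  set A : ℕ → Finset ℕ := fun x => (S q l).filter (fun s => β q K M l s = x) with hA
  set E : ℕ → ℕ := fun x => ((A x ×ˢ A x).filter (fun p => u q p.1 = u q p.2)).card with hE
  have hmap : (V : Set (ℕ × ℕ)).MapsTo (fun p => (β q K M l p.1, β q K M l p.2))
      (range (M ^ l) ×ˢ range (M ^ l) : Finset (ℕ × ℕ)) := by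
    intro p hp
    rw [hV, mem_coe, mem_filter, mem_product] at hp
    rw [mem_coe, mem_product, mem_range, mem_range]
    exact ⟨β_lt h2 hK hM l _ hp.1.1, β_lt h2 hK hM l _ hp.1.2⟩
  have hEsum : ∑ x ∈ range (M ^ l), E x ≤ (R q K M l 1).card := by
    have hmap' : ((R q K M l 1 : Finset (ℕ × ℕ)) : Set (ℕ × ℕ)).MapsTo
        (fun p => β q K M l p.1) (range (M ^ l) : Finset ℕ) := by
      intro p hp
      unfold R P at hp
      rw [mem_coe, mem_filter, mem_filter, mem_product] at hp
      rw [mem_coe, mem_range]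
      exact β_lt h2 hK hM l _ hp.1.1.1
    rw [card_eq_sum_card_fiberwise hmap']
    apply sum_le_sum
    intro x _
    rw [hE]
    apply card_le_card
    intro p
    simp only [mem_filter, mem_product, hA, R, P]
    rintro ⟨⟨⟨h1, h3⟩, h4, h5⟩, h6⟩
    exact ⟨⟨⟨⟨h1, h4⟩, by rw [h3, h5]⟩, by rw [one_mul, h6]⟩, h3⟩
  have h3 : 2 * V.card ≤ 2 * (M ^ l * ∑ x ∈ range (M ^ l), E x) := by
    rw [card_eq_sum_card_fiberwise hmap, mul_sum]
    calc ∑ b ∈ range (M ^ l) ×ˢ range (M ^ l),
          2 * (V.filter (fun p => (β q K M l p.1, β q K M l p.2) = b)).card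
        ≤ ∑ b ∈ range (M ^ l) ×ˢ range (M ^ l), (E b.1 + E b.2) := by
          apply sum_le_sum
          intro b _
          refine le_trans ?_ (card_ratio (A b.1) (A b.2) (u q) lam hlam)
          apply Nat.mul_le_mul_left
          apply card_le_card
          intro p
          simp only [mem_filter, mem_product, hA, hV]
          rintro ⟨⟨⟨h1, h3⟩, h4⟩, h5⟩
          rw [Prod.ext_iff] at h5
          exact ⟨⟨⟨h1, h5.1⟩, h3, h5.2⟩, h4⟩
      _ = 2 * (M ^ l * ∑ x ∈ range (M ^ l), E x) := by
          rw [sum_product]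
          simp only [sum_add_distrib, sum_const, card_range, smul_eq_mul]
          rw [← mul_sum]
          ring
  calc V.card ≤ M ^ l * ∑ x ∈ range (M ^ l), E x := by omega
    _ ≤ _ := Nat.mul_le_mul_left _ hEsum

/-- One digit, short window. -/
theorem card_window (h2 : q ≠ 2) {K : ℕ} (hK : 0 < K) (hKq : 2 * K ≤ q + 2)
    (W : ℕ) (lam : ZMod q) :
    ((D q).filter (fun s => s < W ∧ u q s = lam)).card ≤ W / K + 1 + K ^ 2 := by
  classical
  set A := (D q).filter (fun s => s < W ∧ u q s = lam) with hA
  set B := (A ×ˢ A).filter (fun p => p.1 ≠ p.2 ∧ p.1 / K = p.2 / K) with hB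
  have hmap : (A : Set ℕ).MapsTo (fun s => s / K) (range (W / K + 1) : Finset ℕ) := by
    intro s hs
    rw [hA, mem_coe, mem_filter] at hs
    rw [mem_coe, mem_range]
    exact Nat.lt_succ_of_le (Nat.div_le_div_right hs.2.1.le)
  have hmapB : (B : Set (ℕ × ℕ)).MapsTo (fun p => p.1 / K) (range (W / K + 1) : Finset ℕ) := by
    intro p hp
    rw [hB, mem_coe, mem_filter, mem_product] at hp
    exact hmap (mem_coe.mpr hp.1.1)
  have hBc : B.card ≤ K ^ 2 := by
    refine le_trans (card_le_card ?_) (card_pairs (q := q) h2 K hKq 1 one_ne_zero)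
    intro p
    simp only [hB, hA, mem_filter, mem_product]
    rintro ⟨⟨⟨h1, h3, h4⟩, h5, h6, h7⟩, h8, h9⟩
    have hd1 := Nat.div_add_mod p.1 K
    have hd2 := Nat.div_add_mod p.2 K
    have hm1 := Nat.mod_lt p.1 hK
    have hm2 := Nat.mod_lt p.2 hK
    rw [h9] at hd1
    exact ⟨⟨h1, h5⟩, h8, by omega, by omega, by rw [h4, h7, one_mul]⟩
  have h3 : 2 * A.card ≤ 2 * (W / K + 1) + B.card := by
    rw [card_eq_sum_card_fiberwise hmap, card_eq_sum_card_fiberwise hmapB, mul_sum]
    calc ∑ b ∈ range (W / K + 1), 2 * (A.filter (fun s => s / K = b)).card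
        ≤ ∑ b ∈ range (W / K + 1), (2 + (B.filter (fun p => p.1 / K = b)).card) := by
          apply sum_le_sum
          intro b _
          set r := A.filter (fun s => s / K = b) with hr
          have hoff : r.offDiag.card ≤ (B.filter (fun p => p.1 / K = b)).card := by
            apply card_le_card
            intro p
            simp only [mem_offDiag, hr, hB, mem_filter, mem_product]
            rintro ⟨⟨h1, h3⟩, ⟨h4, h5⟩, h6⟩
            exact ⟨⟨⟨h1, h4⟩, h6, by rw [h3, h5]⟩, h3⟩
          rw [offDiag_card] at hoff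
          rcases Nat.lt_or_ge r.card 2 with h | h
          · omega
          · have : r.card * 2 ≤ r.card * r.card := Nat.mul_le_mul_left _ h
            have h5 : 2 * r.card ≤ 2 + (r.card * r.card - r.card) := by
              rcases Nat.lt_or_ge r.card 3 with h' | h'
              · have : r.card = 2 := by omega
                rw [this]
              · have : r.card * 3 ≤ r.card * r.card := Nat.mul_le_mul_left _ h'
                omega
            omega
      _ = 2 * (W / K + 1) + ∑ b ∈ range (W / K + 1), (B.filter (fun p => p.1 / K = b)).card := by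
          rw [sum_add_distrib, sum_const, card_range, smul_eq_mul]; ring
  omega

/-- Passing from the first `j` digits to all numbers below `X`. -/
theorem card_lift (j X C : ℕ)
    (hC : ∀ lam : ZMod q, lam ≠ 0 →
      ((range (q ^ j)).filter (fun s => s < X ∧ u q s = lam)).card ≤ C) :
    ((range X).filter (fun s => u q s = 1)).card ≤ (X / q ^ j + 1) * C := by
  classical
  have hq0 : 0 < q := hq.out.pos
  have hqj : 0 < q ^ j := pow_pos hq0 _
  set A := (range X).filter (fun s => u q s = 1) with hA
  have hmap : (A : Set ℕ).MapsTo (fun s => s / q ^ j) (range (X / q ^ j + 1) : Finset ℕ) := by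
    intro s hs
    rw [hA, mem_coe, mem_filter, mem_range] at hs
    rw [mem_coe, mem_range]
    exact Nat.lt_succ_of_le (Nat.div_le_div_right hs.1.le)
  rw [card_eq_sum_card_fiberwise hmap]
  calc ∑ b ∈ range (X / q ^ j + 1), (A.filter (fun s => s / q ^ j = b)).card
      ≤ ∑ b ∈ range (X / q ^ j + 1), C := by
        apply sum_le_sum
        intro b _
        by_cases hb : u q b = 0
        · have : A.filter (fun s => s / q ^ j = b) = ∅ := by
            rw [filter_eq_empty_iff]
            intro s hs h
            rw [hA, mem_filter] at hs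
            have hu := u_pow_mul (q := q) j (s % q ^ j) (s / q ^ j) (Nat.mod_lt s hqj)
            rw [Nat.mod_add_div, hs.2, h, hb, mul_zero] at hu
            exact one_ne_zero hu
          rw [this]; simp
        · refine le_trans ?_ (hC (u q b)⁻¹ (inv_ne_zero hb))
          apply card_le_card_of_injOn (fun s => s % q ^ j)
          · intro s hs
            rw [mem_coe, mem_filter, hA, mem_filter, mem_range] at hs
            have hu := u_pow_mul (q := q) j (s % q ^ j) (s / q ^ j) (Nat.mod_lt s hqj)
            rw [Nat.mod_add_div, hs.1.2, hs.2] at hu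
            rw [mem_coe, mem_filter, mem_range]
            refine ⟨Nat.mod_lt s hqj, lt_of_le_of_lt (Nat.mod_le _ _) hs.1.1, ?_⟩
            exact eq_inv_of_mul_eq_one_left hu.symm
          · intro s hs s' hs' h
            rw [mem_coe, mem_filter] at hs hs'
            have h' : s % q ^ j = s' % q ^ j := h
            rw [← Nat.mod_add_div s (q ^ j), ← Nat.mod_add_div s' (q ^ j), h', hs.2, hs'.2]
    _ = (X / q ^ j + 1) * C := by rw [sum_const, card_range, smul_eq_mul]

end Pool.Agent.Helper22.Morley
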