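import Pool.Agent.Helper22.Morley.Asymp

set_option autoImplicit false

/-!
# Central binomial coefficients modulo `q^3`
-/

namespace Pool.Agent.Helper22.Morley

open Finset

variable {q : ℕ} [hq : Fact q.Prime]

theorem cube_ne_zero : q ^ 3 ≠ 0 := pow_ne_zero _ hq.out.ne_zero

instance : NeZero (q ^ 3) := ⟨cube_ne_zero⟩

/-- Reduction modulo `q`. -/
def red (q : ℕ) : ZMod (q ^ 3) →+* ZMod q := ZMod.castHom (dvd_pow_self q (by norm_num)) (ZMod q)

theorem red_eq_zero {x : ZMod (q ^ 3)} (h : red q x = 0) : ∃ y, x = q * y := by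
  have hx : ((x.val : ℕ) : ZMod (q ^ 3)) = x := ZMod.natCast_zmod_val x
  rw [← hx, map_natCast, ZMod.natCast_eq_zero_iff] at h
  obtain ⟨k, hk⟩ := h
  refine ⟨(k : ZMod (q ^ 3)), ?_⟩
  rw [← hx, hk]; push_cast; ring

omit hq in
theorem q3_eq_zero : (q : ZMod (q ^ 3)) ^ 3 = 0 := by
  have h : ((q ^ 3 : ℕ) : ZMod (q ^ 3)) = 0 := ZMod.natCast_self _
  rw [Nat.cast_pow] at h
  exact h

theorem q2_mul_eq_zero {x : ZMod (q ^ 3)} (h : red q x = 0) : (q : ZMod (q ^ 3)) ^ 2 * x = 0 := by
  obtain ⟨y, rfl⟩ := red_eq_zero h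
  have := q3_eq_zero (q := q)
  calc (q : ZMod (q ^ 3)) ^ 2 * (q * y) = (q : ZMod (q ^ 3)) ^ 3 * y := by ring
    _ = 0 := by rw [this, zero_mul]

theorem isUnit_natCast {n : ℕ} (h : ¬ q ∣ n) : IsUnit ((n : ℕ) : ZMod (q ^ 3)) := by
  rw [ZMod.isUnit_iff_coprime]
  apply Nat.Coprime.pow_right
  rw [Nat.coprime_comm]
  exact (Nat.Prime.coprime_iff_not_dvd hq.out).mpr h

theorem isUnit_of_red {x : ZMod (q ^ 3)} (h : red q x ≠ 0) : IsUnit x := by
  have hx : ((x.val : ℕ) : ZMod (q ^ 3)) = x := ZMod.natCast_zmod_val x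
  rw [← hx]
  apply isUnit_natCast
  intro hd
  apply h
  rw [← hx, map_natCast, ZMod.natCast_eq_zero_iff]
  exact hd

theorem red_ne_zero_of_isUnit {x : ZMod (q ^ 3)} (h : IsUnit x) : red q x ≠ 0 :=
  (h.map (red q)).ne_zero

theorem prod_add_eps {R : Type*} [CommRing R] (n : ℕ) (α β : ℕ → R) (ε : R) (hε : ε ^ 2 = 0)
    (hαβ : ∀ i < n, α i * β i = 1) :
    ∏ i ∈ range n, (α i + ε) = (∏ i ∈ range n, α i) * (1 + ε * ∑ i ∈ range n, β i) := by
  induction n with
  | zero => simp
  | succ n ih =>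
    rw [prod_range_succ, prod_range_succ, sum_range_succ, ih (fun i hi => hαβ i (by omega))]
    have h := hαβ n (by omega)
    have : α n + ε = α n * (1 + ε * β n) := by linear_combination -ε * h
    rw [this]
    linear_combination ((∏ i ∈ range n, α i) * α n * (∑ i ∈ range n, β i) * β n) * hε

/-- `∑ 1/(i+1)^2` over half of the residues vanishes. -/
theorem half_sum_zero (h5 : 5 ≤ q) :
    ∑ i ∈ range ((q - 1) / 2), (((i : ZMod q) + 1) ^ 2)⁻¹ = 0 := by
  classical
  have hodd : q % 2 = 1 := by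
    rcases hq.out.eq_two_or_odd with h | h
    · omega
    · exact h
  set h := (q - 1) / 2 with hh
  have hq1 : q - 1 = h + h := by omega
  have hfull : ∑ i ∈ range (q - 1), (((i : ZMod q) + 1) ^ 2)⁻¹ = 0 := by
    have h1 : ∑ x : ZMod q, (x ^ 2)⁻¹ = 0 := by
      have hb : Function.Bijective (fun x : ZMod q => x⁻¹) := inv_involutive.bijective
      have e : ∑ x : ZMod q, (x ^ 2)⁻¹ = ∑ x : ZMod q, x ^ 2 := by
        rw [← hb.sum_comp (fun x : ZMod q => x ^ 2)]
        apply sum_congr rfl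
        intro x _
        rw [inv_pow]
      rw [e]
      apply FiniteField.sum_pow_lt_card_sub_one
      rw [ZMod.card]
      omega
    have h2 : ∑ x : ZMod q, (x ^ 2)⁻¹ = ∑ i ∈ range q, (((i : ℕ) : ZMod q) ^ 2)⁻¹ := by
      symm
      apply sum_bij (fun (i : ℕ) _ => (i : ZMod q))
      · intro i _; exact mem_univ _
      · intro i hi j hj hij
        rw [mem_range] at hi hj
        rw [ZMod.natCast_eq_natCast_iff] at hij
        exact Nat.ModEq.eq_of_lt_of_lt hij hi hj
      · intro x _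
        exact ⟨x.val, mem_range.mpr (ZMod.val_lt x), ZMod.natCast_zmod_val x⟩
      · intro i _; rfl
    rw [h1] at h2
    have h3 : q = (q - 1) + 1 := by have := hq.out.pos; omega
    rw [show range q = range ((q - 1) + 1) from congrArg range h3, sum_range_succ'] at h2
    simpa using h2.symm
  rw [hq1, sum_range_add] at hfull
  have hrefl : ∑ x ∈ range h, (((((h + x : ℕ) : ℕ) : ZMod q) + 1) ^ 2)⁻¹ =
      ∑ i ∈ range h, (((i : ZMod q) + 1) ^ 2)⁻¹ := by
    rw [← sum_range_reflect]
    apply sum_congr rfl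
    intro i hi
    rw [mem_range] at hi
    have e : ((h + (h - 1 - i) : ℕ) : ZMod q) + 1 = -((i : ZMod q) + 1) := by
      have e2 : h + (h - 1 - i) + 1 + (i + 1) = q := by omega
      have e3 : ((h + (h - 1 - i) + 1 + (i + 1) : ℕ) : ZMod q) = 0 := by
        rw [e2]; exact ZMod.natCast_self q
      push_cast at e3 ⊢
      linear_combination e3
    rw [e]
    congr 1
    ring
  rw [hrefl, ← two_mul] at hfull
  have h2 := two_ne (q := q) (by omega)
  exact (mul_eq_zero.mp hfull).resolve_left h2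

/-- The block products `(qj+1)...(qj+q-1)` are all the same modulo `q^3`. -/
theorem block_prod (h5 : 5 ≤ q) (j : ℕ) :
    ∏ i ∈ range (q - 1), ((q : ZMod (q ^ 3)) * j + ((i : ZMod (q ^ 3)) + 1)) =
      ∏ i ∈ range (q - 1), ((i : ZMod (q ^ 3)) + 1) := by
  have hodd : q % 2 = 1 := by
    rcases hq.out.eq_two_or_odd with h | h
    · omega
    · exact h
  set h := (q - 1) / 2 with hh
  have hq1 : q - 1 = h + h := by omega
  have hpair : ∀ j : ZMod (q ^ 3),
      ∏ i ∈ range (q - 1), ((q : ZMod (q ^ 3)) * j + ((i : ZMod (q ^ 3)) + 1)) =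
      ∏ i ∈ range h, (((i : ZMod (q ^ 3)) + 1) * ((q : ZMod (q ^ 3)) - ((i : ZMod (q ^ 3)) + 1))
        + (q : ZMod (q ^ 3)) ^ 2 * (j * (j + 1))) := by
    intro j
    rw [hq1, prod_range_add]
    have hrefl : ∏ x ∈ range h, ((q : ZMod (q ^ 3)) * j + (((h + x : ℕ) : ZMod (q ^ 3)) + 1)) =
        ∏ i ∈ range h, ((q : ZMod (q ^ 3)) * j + ((q : ZMod (q ^ 3)) - ((i : ZMod (q ^ 3)) + 1))) := by
      rw [← prod_range_reflect]
      apply prod_congr rfl
      intro i hi
      rw [mem_range] at hi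
      have e2 : h + (h - 1 - i) + 1 + (i + 1) = q := by omega
      have e3 : ((h + (h - 1 - i) + 1 + (i + 1) : ℕ) : ZMod (q ^ 3)) = (q : ZMod (q ^ 3)) := by
        rw [e2]
      push_cast at e3 ⊢
      linear_combination e3
    rw [hrefl, ← prod_mul_distrib]
    apply prod_congr rfl
    intro i _
    ring
  rw [hpair]
  have h0 := hpair 0
  simp only [mul_zero, zero_add, zero_mul, add_zero] at h0
  rw [h0]
  set α : ℕ → ZMod (q ^ 3) := fun i =>
    ((i : ZMod (q ^ 3)) + 1) * ((q : ZMod (q ^ 3)) - ((i : ZMod (q ^ 3)) + 1)) with hα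
  have hαu : ∀ i < h, IsUnit (α i) := by
    intro i hi
    rw [hα]
    apply IsUnit.mul
    · have := isUnit_natCast (q := q) (n := i + 1) (fun hd => by
        have := Nat.le_of_dvd (by omega) hd; omega)
      push_cast at this; exact this
    · have := isUnit_natCast (q := q) (n := q - (i + 1)) (fun hd => by
        have := Nat.le_of_dvd (by omega) hd; omega)
      rw [Nat.cast_sub (by omega)] at this
      push_cast at this; exact this
  set β : ℕ → ZMod (q ^ 3) := fun i => (α i)⁻¹ with hβ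
  have hαβ : ∀ i < h, α i * β i = 1 := fun i hi => ZMod.mul_inv_of_unit _ (hαu i hi)
  have hq3 := q3_eq_zero (q := q)
  have hε : ((q : ZMod (q ^ 3)) ^ 2 * (j * (j + 1))) ^ 2 = 0 := by
    linear_combination ((q : ZMod (q ^ 3)) * (j * (j + 1)) ^ 2) * hq3
  rw [prod_add_eps h α β _ hε hαβ]
  have hsum : red q (∑ i ∈ range h, β i) = 0 := by
    have hred : ∀ i ∈ range h, red q (β i) = -(((i : ZMod q) + 1) ^ 2)⁻¹ := by
      intro i hi
      rw [mem_range] at hi
      have h1 := congrArg (red q) (hαβ i hi)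
      rw [map_mul, map_one] at h1
      have h2 : red q (α i) = -((i : ZMod q) + 1) ^ 2 := by
        rw [hα]
        simp only [map_mul, map_sub, map_add, map_natCast, map_one, CharP.cast_eq_zero]
        ring
      rw [h2] at h1
      have h3 : ((i : ZMod q) + 1) ≠ 0 := by
        have : ((i + 1 : ℕ) : ZMod q) ≠ 0 := by
          rw [Ne, ZMod.natCast_eq_zero_iff]
          intro hd
          have := Nat.le_of_dvd (by omega) hd
          omega
        push_cast at this; exact this
      field_simp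
      linear_combination -h1
    rw [map_sum, sum_congr rfl hred, sum_neg_distrib, half_sum_zero h5, neg_zero]
  have hz : (q : ZMod (q ^ 3)) ^ 2 * (j * (j + 1)) * ∑ i ∈ range h, β i = 0 := by
    have := q2_mul_eq_zero hsum
    linear_combination ((j : ZMod (q ^ 3)) * (j + 1)) * this
  rw [hz, add_zero, mul_one]

end Pool.Agent.Helper22.Morley
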