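import Pool.Agent.Helper22.Morley.CubeWords

set_option autoImplicit false

/-!
# The composite solutions of the Morley congruence modulo `n^3`
-/

namespace Pool.Agent.Helper22.Morley

open Finset Filter Topology

section
variable {q : ℕ} [hq : Fact q.Prime]

omit hq in
theorem Bd_real (Q3 : ℝ) (hQ3 : 0 < Q3) (n dg o b K : ℕ) (Q : ℝ) (hQ : 0 ≤ Q) (hK : 1 ≤ K)
    (hn : (n : ℝ) + dg ≤ 9 * Q) (ho : (o : ℝ) ≤ Q / Q3 * K ^ 2) (hb : (b : ℝ) ≤ Q * K) (k : ℕ) :
    ((Abs.Data.Bd n dg o b k : ℕ) : ℝ) ≤ 9 ^ k * Q ^ k * (1 + k * (K : ℝ) ^ (k + 1) / Q3) := by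
  have hK' : (1 : ℝ) ≤ K := by exact_mod_cast hK
  induction k with
  | zero => simp [Abs.Data.Bd]
  | succ k ih =>
    simp only [Abs.Data.Bd]
    push_cast
    have h1 : (0 : ℝ) ≤ ((Abs.Data.Bd n dg o b k : ℕ) : ℝ) := by positivity
    have hKpow : (K : ℝ) ^ (k + 1) ≤ (K : ℝ) ^ (k + 2) := pow_le_pow_right₀ hK' (by omega)
    calc ((n : ℝ) + dg) * ((Abs.Data.Bd n dg o b k : ℕ) : ℝ) + o * (b : ℝ) ^ k
        ≤ (9 * Q) * (9 ^ k * Q ^ k * (1 + k * (K : ℝ) ^ (k + 1) / Q3)) +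
          (Q / Q3 * K ^ 2) * (Q * K) ^ k := by gcongr
      _ = 9 ^ (k + 1) * Q ^ (k + 1) * (1 + k * (K : ℝ) ^ (k + 1) / Q3) +
          1 * Q ^ (k + 1) * ((K : ℝ) ^ (k + 2) / Q3) := by
          rw [mul_pow]; ring
      _ ≤ 9 ^ (k + 1) * Q ^ (k + 1) * (1 + k * (K : ℝ) ^ (k + 2) / Q3) +
          9 ^ (k + 1) * Q ^ (k + 1) * ((K : ℝ) ^ (k + 2) / Q3) := by
          have h9 : (1 : ℝ) ≤ 9 ^ (k + 1) := one_le_pow₀ (by norm_num)
          gcongr
      _ = 9 ^ (k + 1) * Q ^ (k + 1) * (1 + (k + 1) * (K : ℝ) ^ (k + 1 + 1) / Q3) := by ring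

/-- Real form of the count. -/
theorem card_cube_real (h5 : 5 ≤ q) (k : ℕ) (hk : 5 ≤ k) (h s'' : ℕ) (hh : h < q) :
    (((range ((q ^ 5) ^ (2 * k))).filter
      (fun s => V q (h + q * (s + (q ^ 5) ^ (2 * k) * s'')) = 1)).card : ℝ) ≤
      (2 * k + 1) * 18 ^ k * (((q : ℝ) ^ 5) ^ (2 * k) * (q : ℝ) ^ (-3 + 3 / ((k : ℝ) + 1))) := by
  have hq0 : 0 < q := hq.out.pos
  have hq1 : (1 : ℝ) ≤ q := by exact_mod_cast hq.out.one_le
  have hqpos : (0 : ℝ) < q := by linarith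
  have hk' : (5 : ℝ) ≤ k := by exact_mod_cast hk
  set e : ℝ := 3 / ((k : ℝ) + 1) with he
  have he0 : 0 < e := by positivity
  have he2 : e ≤ 1 / 2 := by
    rw [he, div_le_div_iff₀ (by positivity) (by norm_num)]; linarith
  set a : ℝ := (q : ℝ) ^ e with ha
  have ha1 : 1 ≤ a := Real.one_le_rpow hq1 he0.le
  have hapos : 0 < a := by linarith
  have haq : a ^ 2 ≤ (q : ℝ) := by
    rw [ha, ← Real.rpow_natCast, ← Real.rpow_mul hqpos.le]
    calc (q : ℝ) ^ (e * (2 : ℕ)) ≤ (q : ℝ) ^ (1 : ℝ) := by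
          apply Real.rpow_le_rpow_of_exponent_le hq1
          push_cast; linarith
      _ = q := Real.rpow_one _
  have haq' : a ≤ q := by nlinarith
  set K := ⌊a⌋₊ + 1 with hK
  set N := (D q).card with hN
  set M := N / K + 1 with hM
  have hKpos : 0 < K := by omega
  have hNM : N ≤ M * K := by
    have := Nat.div_add_mod N K
    have h1 := Nat.mod_lt N hKpos
    rw [hM, Nat.add_mul, one_mul, mul_comm]
    omega
  have hKq := K_ok (q := q) a ha1 haq
  have hcount := card_cube_digits h5 hKpos hNM hKq k h s'' hh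
  have hNle : (N : ℝ) ≤ q := by exact_mod_cast card_D_le (by omega)
  have hKle : (K : ℝ) ≤ 2 * a := by
    rw [hK]; push_cast
    have := Nat.floor_le (show 0 ≤ a by linarith)
    linarith
  have hKge : a ≤ K := by
    rw [hK]; push_cast
    exact (Nat.lt_floor_add_one a).le
  have hK0 : (0 : ℝ) < K := by linarith
  have hMle : (M : ℝ) ≤ 2 * q / K := by
    rw [hM]; push_cast
    have h1 : ((N / K : ℕ) : ℝ) ≤ (N : ℝ) / K := Nat.cast_div_le
    have h3 : (N : ℝ) / K ≤ q / K := div_le_div_of_nonneg_right hNle hK0.le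
    have h4 : 1 ≤ (q : ℝ) / K := by
      rw [one_le_div hK0]
      have h6 : (K : ℝ) ≤ a + 1 := by
        rw [hK]; push_cast
        have := Nat.floor_le (show 0 ≤ a by linarith)
        linarith
      have h7 : (5 : ℝ) ≤ q := by exact_mod_cast h5
      have h8 : a + 1 ≤ q := by nlinarith
      linarith
    calc ((N / K : ℕ) : ℝ) + 1 ≤ q / K + q / K := by linarith
      _ = 2 * q / K := by ring
  set Q : ℝ := (q : ℝ) ^ 5 with hQ
  have hQpos : 0 < Q := by positivity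
  have hKsq : (K : ℝ) ^ 2 ≤ 4 * q := by
    calc (K : ℝ) ^ 2 ≤ (2 * a) ^ 2 := pow_le_pow_left₀ hK0.le hKle 2
      _ = 4 * a ^ 2 := by ring
      _ ≤ 4 * q := by linarith
  have hBd := Bd_real ((q : ℝ) ^ 3) (by positivity) (S q 5).card (q ^ 4 * (2 * K ^ 2))
    (q ^ 2 * K ^ 2) ((LD q h5 K M hKpos hNM).LP).card K Q hQpos.le hKpos (by
      have h1 : ((S q 5).card : ℝ) ≤ Q := by
        rw [hQ]; exact_mod_cast card_letters (q := q)
      push_cast
      have h2 : (q : ℝ) ^ 4 * (2 * (K : ℝ) ^ 2) ≤ 8 * Q := by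
        calc (q : ℝ) ^ 4 * (2 * (K : ℝ) ^ 2) ≤ (q : ℝ) ^ 4 * (2 * (4 * q)) := by gcongr
          _ = 8 * Q := by rw [hQ]; ring
      linarith) (by
      push_cast
      rw [hQ]
      apply le_of_eq
      field_simp) (by
      rw [hQ]
      exact_mod_cast card_LP h5 hKpos hNM) k
  have hak : a ^ k = (q : ℝ) ^ (3 - e) := by
    rw [ha, ← Real.rpow_natCast, ← Real.rpow_mul hqpos.le]
    congr 1
    rw [he]; field_simp; ring
  have hneg : (q : ℝ) ^ (-3 + e) = (a ^ k)⁻¹ := by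
    rw [hak, ← Real.rpow_neg hqpos.le]; congr 1; ring
  have hneg2 : (q : ℝ) ^ (-3 + e) = a / (q : ℝ) ^ 3 := by
    rw [ha, Real.rpow_add hqpos, Real.rpow_neg hqpos.le]
    have : (q : ℝ) ^ (3 : ℝ) = (q : ℝ) ^ 3 := by
      rw [← Real.rpow_natCast]; norm_num
    rw [this]; field_simp
  calc _ ≤ (((q ^ 4 * M) ^ k * Abs.Data.Bd (S q 5).card (q ^ 4 * (2 * K ^ 2)) (q ^ 2 * K ^ 2)
        ((LD q h5 K M hKpos hNM).LP).card k : ℕ) : ℝ) := by exact_mod_cast hcount
    _ = ((q : ℝ) ^ 4 * M) ^ k * ((Abs.Data.Bd (S q 5).card (q ^ 4 * (2 * K ^ 2)) (q ^ 2 * K ^ 2)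
        ((LD q h5 K M hKpos hNM).LP).card k : ℕ) : ℝ) := by push_cast; ring
    _ ≤ ((q : ℝ) ^ 4 * (2 * q / K)) ^ k * (9 ^ k * Q ^ k *
          (1 + k * (K : ℝ) ^ (k + 1) / (q : ℝ) ^ 3)) := by gcongr
    _ = 18 ^ k * Q ^ (2 * k) * (((K : ℝ) ^ k)⁻¹ + k * (K / (q : ℝ) ^ 3)) := by
        have e1 : (q : ℝ) ^ 4 * (2 * q / K) = 2 * Q / K := by rw [hQ]; ring
        have e2 : (18 : ℝ) ^ k = 2 ^ k * 9 ^ k := by rw [← mul_pow]; norm_num
        have e3 : Q ^ (2 * k) = Q ^ k * Q ^ k := by rw [two_mul, pow_add]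
        rw [e1, e2, e3, div_pow, mul_pow]
        field_simp
        ring
    _ ≤ 18 ^ k * Q ^ (2 * k) * ((q : ℝ) ^ (-3 + e) + k * (2 * (q : ℝ) ^ (-3 + e))) := by
        have f1 : ((K : ℝ) ^ k)⁻¹ ≤ (q : ℝ) ^ (-3 + e) := by
          rw [hneg]
          apply inv_anti₀ (by positivity)
          exact pow_le_pow_left₀ hapos.le hKge k
        have f2 : (K : ℝ) / (q : ℝ) ^ 3 ≤ 2 * (q : ℝ) ^ (-3 + e) := by
          rw [hneg2]
          calc (K : ℝ) / (q : ℝ) ^ 3 ≤ 2 * a / (q : ℝ) ^ 3 := by gcongr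
            _ = _ := by ring
        gcongr
    _ = _ := by ring

end

/-- The congruence modulo `n^3`. -/
def Cong3 (n : ℕ) : Prop :=
  (((n - 1).choose ((n - 1) / 2) : ℕ) : ℤ) ≡ (-1) ^ ((n - 1) / 2) * 4 ^ (n - 1) [ZMOD (n : ℤ) ^ 3]

theorem Cong3.cong {n : ℕ} (h : Cong3 n) : Cong n :=
  Int.ModEq.of_dvd (dvd_pow_self _ (by norm_num)) h

section
variable {q : ℕ} [hq : Fact q.Prime]

theorem V_of_cong3 (h5 : 5 ≤ q) {n : ℕ} (hn : Odd n) (hqn : q ∣ n) (hc : Cong3 n) :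
    V q ((n - 1) / 2) = 1 := by
  obtain ⟨t, ht⟩ := hn
  have h1 : (n - 1) / 2 = t := by omega
  have h3 : n - 1 = 2 * t := by omega
  unfold Cong3 at hc
  rw [h1, h3] at hc
  have hc' := hc.of_dvd (show ((q ^ 3 : ℕ) : ℤ) ∣ (n : ℤ) ^ 3 by
    push_cast; exact pow_dvd_pow_of_dvd (by exact_mod_cast hqn) 3)
  rw [← ZMod.intCast_eq_intCast_iff] at hc'
  push_cast at hc'
  have hi := i16_mul (q := q) h5
  rw [h1]
  unfold V
  rw [Nat.centralBinom_eq_two_mul_choose, hc']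
  rw [pow_mul, ← mul_pow, ← mul_pow]
  have : (-1 : ZMod (q ^ 3)) * 4 ^ 2 * i16 q = 1 := by
    have e : (-1 : ZMod (q ^ 3)) * 4 ^ 2 * i16 q = -16 * i16 q := by ring
    rw [e, hi]
  rw [this, one_pow]

theorem V_cofactor (h5 : 5 ≤ q) {m : ℕ} (hn : Odd (q * m)) (hc : Cong3 (q * m)) :
    V q ((q - 1) / 2 + q * ((m - 1) / 2)) = 1 := by
  have h := V_of_cong3 (q := q) h5 hn (Dvd.intro m rfl) hc
  have hqo : q % 2 = 1 := by
    rcases hq.out.eq_two_or_odd with h | h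
    · omega
    · exact h
  have hmo : m % 2 = 1 := by
    rw [Nat.odd_mul] at hn
    exact Nat.odd_iff.mp hn.2
  have e : (q * m - 1) / 2 = (q - 1) / 2 + q * ((m - 1) / 2) := by
    obtain ⟨a, ha⟩ : ∃ a, q = 2 * a + 1 := ⟨(q - 1) / 2, by omega⟩
    obtain ⟨b, hb⟩ : ∃ b, m = 2 * b + 1 := ⟨(m - 1) / 2, by omega⟩
    have e1 : (q - 1) / 2 = a := by omega
    have e2 : (m - 1) / 2 = b := by omega
    have e3 : q * m - 1 = 2 * (a + q * b) := by
      rw [hb, show q * (2 * b + 1) = q + 2 * (q * b) by ring]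
      omega
    rw [e1, e2, e3]; omega
  rw [e] at h
  exact h

end

/-- The composite solutions modulo `n^3` up to `x`. -/
noncomputable def Sol3 (x : ℕ) : Finset ℕ :=
  open scoped Classical in
  (Icc 1 x).filter (fun n => Odd n ∧ 1 < n ∧ ¬ n.Prime ∧ Cong3 n)

theorem mem_Sol3 {x n : ℕ} :
    n ∈ Sol3 x ↔ (1 ≤ n ∧ n ≤ x) ∧ Odd n ∧ 1 < n ∧ ¬ n.Prime ∧ Cong3 n := by
  classical
  unfold Sol3
  rw [mem_filter, mem_Icc]

theorem Sol3_subset (x : ℕ) : Sol3 x ⊆ Sol x := by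
  intro n hn
  rw [mem_Sol3] at hn
  rw [mem_Sol]
  exact ⟨hn.1, hn.2.1, hn.2.2.1, hn.2.2.2.1, hn.2.2.2.2.cong⟩

open scoped Classical in
theorem card_Sol3_dvd {q : ℕ} [hq : Fact q.Prime] (h5 : 5 ≤ q) (x : ℕ) :
    ((Sol3 x).filter (fun n => q ∣ n)).card ≤
      ((range (x / q)).filter (fun s => V q ((q - 1) / 2 + q * s) = 1)).card := by
  have hq0 : 0 < q := hq.out.pos
  apply card_le_card_of_injOn (fun n => (n / q - 1) / 2)
  · intro n hn
    rw [mem_coe, mem_filter, mem_Sol3] at hn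
    obtain ⟨⟨⟨h1, hx⟩, ho, h1', hnp, hc⟩, m, rfl⟩ := hn
    rw [mem_coe, mem_filter, mem_range]
    show ((q * m) / q - 1) / 2 < x / q ∧
      V q ((q - 1) / 2 + q * (((q * m) / q - 1) / 2)) = 1
    rw [Nat.mul_div_cancel_left _ hq0]
    refine ⟨?_, V_cofactor h5 ho hc⟩
    have hm : m ≤ x / q := by rw [Nat.le_div_iff_mul_le hq0]; linarith
    have hm0 : m ≠ 0 := by rintro rfl; simp at h1
    omega
  · intro n hn n' hn' h
    rw [mem_coe, mem_filter, mem_Sol3] at hn hn'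
    obtain ⟨⟨_, ho, _⟩, m, rfl⟩ := hn
    obtain ⟨⟨_, ho', _⟩, m', rfl⟩ := hn'
    have h' : ((q * m) / q - 1) / 2 = ((q * m') / q - 1) / 2 := h
    rw [Nat.mul_div_cancel_left _ hq0, Nat.mul_div_cancel_left _ hq0] at h'
    rw [Nat.odd_mul] at ho ho'
    have e1 := Nat.odd_iff.mp ho.2
    have e2 := Nat.odd_iff.mp ho'.2
    have : m = m' := by omega
    rw [this]

open scoped Classical in
/-- Solutions divisible by `q`, `q^(10k+1) ≤ x`. -/
theorem card_Sol3_A {q : ℕ} [hq : Fact q.Prime] (h5 : 5 ≤ q) (k : ℕ) (hk : 5 ≤ k) (x : ℕ)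
    (hx : q ^ (10 * k + 1) ≤ x) :
    (((Sol3 x).filter (fun n => q ∣ n)).card : ℝ)
      ≤ 2 * ((2 * k + 1) * 18 ^ k) * x * (q : ℝ) ^ (-4 + 3 / ((k : ℝ) + 1)) := by
  have hq0 : 0 < q := hq.out.pos
  have hqpos : (0 : ℝ) < q := by exact_mod_cast hq0
  set e : ℝ := 3 / ((k : ℝ) + 1) with he
  set CC : ℝ := (2 * k + 1) * 18 ^ k with hCC
  set QQ := (q ^ 5) ^ (2 * k) with hQQ
  have hQQ0 : 0 < QQ := by positivity
  have hQQr : (QQ : ℝ) = ((q : ℝ) ^ 5) ^ (2 * k) := by rw [hQQ]; push_cast; rfl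
  set C : ℝ := CC * (((q : ℝ) ^ 5) ^ (2 * k) * (q : ℝ) ^ (-3 + e)) with hC
  have hC0 : 0 ≤ C := by positivity
  have h1 := card_Sol3_dvd (q := q) h5 x
  set X := x / q with hX
  set A := (range X).filter (fun s => V q ((q - 1) / 2 + q * s) = 1) with hA
  have hhalf : (q - 1) / 2 < q := by omega
  have h3 : A.card ≤ (X / QQ + 1) * ⌊C⌋₊ := by
    have hmap : (A : Set ℕ).MapsTo (fun s => s / QQ) (range (X / QQ + 1) : Finset ℕ) := by
      intro s hs
      rw [hA, mem_coe, mem_filter, mem_range] at hs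
      rw [mem_coe, mem_range]
      exact Nat.lt_succ_of_le (Nat.div_le_div_right hs.1.le)
    rw [card_eq_sum_card_fiberwise hmap]
    calc ∑ b ∈ range (X / QQ + 1), (A.filter (fun s => s / QQ = b)).card
        ≤ ∑ b ∈ range (X / QQ + 1), ⌊C⌋₊ := by
          apply sum_le_sum
          intro b _
          rw [Nat.le_floor_iff hC0]
          refine le_trans ?_ (card_cube_real h5 k hk ((q - 1) / 2) b hhalf)
          have : (A.filter (fun s => s / QQ = b)).card ≤ ((range QQ).filter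
            (fun s => V q ((q - 1) / 2 + q * (s + QQ * b)) = 1)).card := by
            apply card_le_card_of_injOn (fun s => s % QQ)
            · intro s hs
              rw [mem_coe, mem_filter, hA, mem_filter, mem_range] at hs
              rw [mem_coe, mem_filter, mem_range]
              refine ⟨Nat.mod_lt s hQQ0, ?_⟩
              rw [← hs.2, Nat.mod_add_div]
              exact hs.1.2
            · intro s hs s' hs' h
              rw [mem_coe, mem_filter] at hs hs'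
              have h' : s % QQ = s' % QQ := h
              rw [← Nat.mod_add_div s QQ, ← Nat.mod_add_div s' QQ, h', hs.2, hs'.2]
          exact_mod_cast this
      _ = (X / QQ + 1) * ⌊C⌋₊ := by rw [sum_const, card_range, smul_eq_mul]
  have hqQ : q * QQ = q ^ (10 * k + 1) := by
    rw [hQQ, ← pow_mul, ← pow_succ']; congr 1; omega
  have h5' : (((X / QQ + 1 : ℕ)) : ℝ) ≤ 2 * x / ((q : ℝ) * QQ) := by
    have hqp : (0 : ℝ) < (q : ℝ) * QQ := by positivity
    have a1 : ((X / QQ : ℕ) : ℝ) ≤ x / ((q : ℝ) * QQ) := by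
      rw [hX, Nat.div_div_eq_div_mul]
      refine Nat.cast_div_le.trans ?_
      push_cast; exact le_rfl
    have a2 : (1 : ℝ) ≤ x / ((q : ℝ) * QQ) := by
      rw [one_le_div hqp]
      rw [← hqQ] at hx
      exact_mod_cast hx
    push_cast
    calc ((X / QQ : ℕ) : ℝ) + 1 ≤ x / ((q : ℝ) * QQ) + x / ((q : ℝ) * QQ) := by linarith
      _ = _ := by ring
  calc (((Sol3 x).filter (fun n => q ∣ n)).card : ℝ)
      ≤ ((X / QQ + 1 : ℕ) : ℝ) * (⌊C⌋₊ : ℝ) := by exact_mod_cast h1.trans h3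
    _ ≤ (2 * x / ((q : ℝ) * QQ)) * C := by
        gcongr
        exact Nat.floor_le hC0
    _ = 2 * CC * x * ((q : ℝ) ^ (-3 + e) * (q : ℝ)⁻¹) := by
        rw [hC, ← hQQr]
        have : (QQ : ℝ) ≠ 0 := by positivity
        field_simp
    _ = 2 * CC * x * (q : ℝ) ^ (-4 + e) := by
        congr 1
        rw [← Real.rpow_neg_one (q : ℝ), ← Real.rpow_add hqpos]
        congr 1
        ring

open scoped Classical in
/-- Solutions with a large prime factor. -/
theorem tail_bound (l : ℕ) (hl : 1 ≤ l) (x : ℕ) (hx : 1 ≤ x) :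
    (((Sol x).filter (fun n => ∃ q : ℕ, q.Prime ∧ q ∣ n ∧ x < q ^ (2 * l + 1))).card : ℝ) ≤
      12 * x * (x : ℝ) ^ (-(1 / (6 * (l : ℝ) + 3))) * (1 + Real.log x)
      + 20 * (x : ℝ) ^ (2 / 3 : ℝ) := by
  have hl' : (1 : ℝ) ≤ l := by exact_mod_cast hl
  have hx1 : (1 : ℝ) ≤ x := by exact_mod_cast hx
  have hxpos : (0 : ℝ) < x := by linarith
  set B := ⌈(x : ℝ) ^ (1 / 3 : ℝ)⌉₊ with hB
  set A2 := (Icc 1 x).filter (fun q : ℕ => q.Prime ∧ q ≠ 2 ∧ x < q ^ (2 * l + 1) ∧ B ≤ x / q)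
    with hA2
  set T := (Sol x).filter (fun n => ∃ q : ℕ, q.Prime ∧ q ∣ n ∧ x < q ^ (2 * l + 1)) with hT
  have hsub : T ⊆ (A2.biUnion (fun q => (Sol x).filter (fun n => q ∣ n)) ∪
      (Sol x).filter (fun n => ∃ q m, q.Prime ∧ n = q * m ∧ m < B)) := by
    intro n hn
    rw [hT, mem_filter] at hn
    obtain ⟨hn, q, hqp, hqn, hc1⟩ := hn
    have hn' := mem_Sol.mp hn
    obtain ⟨⟨h1, hnx⟩, ho, h1', hnp, hc⟩ := hn'
    have hqx : q ≤ x := (Nat.le_of_dvd (by omega) hqn).trans hnx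
    have hq2 : q ≠ 2 := by
      rintro rfl
      have := Nat.odd_iff.mp ho
      omega
    by_cases hc2 : B ≤ x / q
    · apply mem_union_left
      rw [mem_biUnion]
      refine ⟨q, ?_, ?_⟩
      · rw [hA2, mem_filter, mem_Icc]
        exact ⟨⟨hqp.one_le, hqx⟩, hqp, hq2, hc1, hc2⟩
      · rw [mem_filter]; exact ⟨hn, hqn⟩
    · apply mem_union_right
      rw [mem_filter]
      obtain ⟨m, rfl⟩ := hqn
      refine ⟨hn, q, m, hqp, rfl, ?_⟩
      push Not at hc2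
      refine lt_of_le_of_lt ?_ hc2
      rw [Nat.le_div_iff_mul_le hqp.pos]; linarith
  have hcard : T.card ≤ (∑ q ∈ A2, ((Sol x).filter (fun n => q ∣ n)).card + 5 * B ^ 2) := by
    refine (card_le_card hsub).trans ?_
    refine (card_union_le _ _).trans ?_
    exact Nat.add_le_add card_biUnion_le (card_Sol_small_cofactor x B)
  have hcard' : (T.card : ℝ) ≤
      (∑ q ∈ A2, (((Sol x).filter (fun n => q ∣ n)).card : ℝ) + 5 * (B : ℝ) ^ 2) := by
    exact_mod_cast hcard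
  have hE2 : ∑ q ∈ A2, (((Sol x).filter (fun n => q ∣ n)).card : ℝ)
      ≤ 12 * x * (x : ℝ) ^ (-(1 / (6 * (l : ℝ) + 3))) * (1 + Real.log x) := by
    set V : ℝ := (x : ℝ) ^ (1 / (2 * (l : ℝ) + 1)) with hV
    have hV1 : 1 ≤ V := Real.one_le_rpow hx1 (by positivity)
    have hVx : V ^ (-(1 / 3 : ℝ)) = (x : ℝ) ^ (-(1 / (6 * (l : ℝ) + 3))) := by
      rw [hV, ← Real.rpow_mul hxpos.le]
      congr 1
      field_simp
      ring
    calc ∑ q ∈ A2, (((Sol x).filter (fun n => q ∣ n)).card : ℝ)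
        ≤ ∑ q ∈ A2, 12 * x * V ^ (-(1 / 3 : ℝ)) * (1 / (q : ℝ)) := by
          apply sum_le_sum
          intro q hqA
          rw [hA2, mem_filter, mem_Icc] at hqA
          obtain ⟨_, hqp, hq2, hqx, hqB⟩ := hqA
          have : Fact q.Prime := ⟨hqp⟩
          have hqpos : (0 : ℝ) < q := by exact_mod_cast hqp.pos
          apply card_Sol_B (q := q) hq2 x V hV1
          · have : (x : ℝ) ≤ (q : ℝ) ^ (2 * l + 1) := by exact_mod_cast hqx.le
            calc V ≤ ((q : ℝ) ^ (2 * l + 1)) ^ (1 / (2 * (l : ℝ) + 1)) := by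
                  rw [hV]
                  exact Real.rpow_le_rpow hxpos.le this (by positivity)
              _ = q := by
                  rw [← Real.rpow_natCast, ← Real.rpow_mul hqpos.le]
                  have : ((2 * l + 1 : ℕ) : ℝ) * (1 / (2 * (l : ℝ) + 1)) = 1 := by
                    push_cast; field_simp
                  rw [this, Real.rpow_one]
          · calc V ≤ (x : ℝ) ^ (1 / 3 : ℝ) := by
                  rw [hV]
                  apply Real.rpow_le_rpow_of_exponent_le hx1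
                  apply one_div_le_one_div_of_le <;> linarith
              _ ≤ B := Nat.le_ceil _
              _ ≤ ((x / q : ℕ) : ℝ) := by exact_mod_cast hqB
      _ = 12 * x * V ^ (-(1 / 3 : ℝ)) * ∑ q ∈ A2, (1 / (q : ℝ)) := by rw [mul_sum]
      _ ≤ 12 * x * V ^ (-(1 / 3 : ℝ)) * (1 + Real.log x) := by
          gcongr
          calc ∑ q ∈ A2, (1 / (q : ℝ)) ≤ ∑ q ∈ Icc 1 x, (1 / (q : ℝ)) := by
                apply sum_le_sum_of_subset_of_nonneg (filter_subset _ _)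
                intro i _ _; positivity
            _ = ((harmonic x : ℚ) : ℝ) := by
                rw [harmonic_eq_sum_Icc]; push_cast
                apply sum_congr rfl
                intro i _; rw [one_div]
            _ ≤ 1 + Real.log x := harmonic_le_one_add_log x
      _ = _ := by rw [hVx]
  have hE3 : 5 * (B : ℝ) ^ 2 ≤ 20 * (x : ℝ) ^ (2 / 3 : ℝ) := by
    set b : ℝ := (x : ℝ) ^ (1 / 3 : ℝ) with hb
    have hb1 : 1 ≤ b := Real.one_le_rpow hx1 (by norm_num)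
    have hBb : (B : ℝ) ≤ 2 * b := by
      have := Nat.ceil_lt_add_one (show 0 ≤ b by linarith)
      rw [hB]; linarith
    have hb2 : (x : ℝ) ^ (2 / 3 : ℝ) = b ^ 2 := by
      rw [hb, ← Real.rpow_natCast, ← Real.rpow_mul hxpos.le]
      norm_num
    rw [hb2]
    have hB0 : (0 : ℝ) ≤ B := by positivity
    nlinarith
  linarith

open scoped Classical in
theorem main_inequality3 (k : ℕ) (hk : 5 ≤ k) : ∃ C : ℝ, 0 ≤ C ∧ ∀ (x : ℕ) (y : ℝ), 1 ≤ x →
    4 ≤ y → ((Sol3 x).card : ℝ) ≤ (Smooth x y).card + C * x * y ^ (-3 + 6 / ((k : ℝ) + 1))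
      + 12 * x * (x : ℝ) ^ (-(1 / (30 * (k : ℝ) + 3))) * (1 + Real.log x)
      + 20 * (x : ℝ) ^ (2 / 3 : ℝ) := by
  set e : ℝ := 3 / ((k : ℝ) + 1) with he
  have hk' : (5 : ℝ) ≤ k := by exact_mod_cast hk
  have he0 : 0 < e := by positivity
  have he2 : e ≤ 1 / 2 := by
    rw [he, div_le_div_iff₀ (by positivity) (by norm_num)]; linarith
  have hsum : Summable (fun n : ℕ => (n : ℝ) ^ (-(1 + e))) :=
    Real.summable_nat_rpow.mpr (by linarith)
  set Z : ℝ := ∑' n : ℕ, (n : ℝ) ^ (-(1 + e)) with hZ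
  have hZ0 : 0 ≤ Z := tsum_nonneg (fun n => by positivity)
  set C0 : ℝ := 2 * ((2 * k + 1) * 18 ^ k) with hC0
  have hC00 : 0 ≤ C0 := by positivity
  refine ⟨C0 * Z, by positivity, ?_⟩
  intro x y hx hy
  have hx1 : (1 : ℝ) ≤ x := by exact_mod_cast hx
  have hxpos : (0 : ℝ) < x := by linarith
  set A1 := (Icc 1 x).filter (fun q : ℕ => q.Prime ∧ y < (q : ℝ) ∧ q ^ (10 * k + 1) ≤ x) with hA1
  have hsub : Sol3 x ⊆ Smooth x y ∪ (A1.biUnion (fun q => (Sol3 x).filter (fun n => q ∣ n)) ∪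
      (Sol x).filter (fun n => ∃ q : ℕ, q.Prime ∧ q ∣ n ∧ x < q ^ (2 * (5 * k) + 1))) := by
    intro n hn
    have hn' := mem_Sol3.mp hn
    obtain ⟨⟨h1, hnx⟩, ho, h1', hnp, hc⟩ := hn'
    by_cases hs : n ∈ Smooth x y
    · exact mem_union_left _ hs
    · have : ∃ q : ℕ, q.Prime ∧ q ∣ n ∧ y < (q : ℝ) := by
        by_contra hcon
        push Not at hcon
        apply hs
        unfold Smooth
        rw [mem_filter, mem_Icc]
        exact ⟨⟨h1, hnx⟩, hcon⟩
      obtain ⟨q, hqp, hqn, hyq⟩ := this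
      have hqx : q ≤ x := (Nat.le_of_dvd (by omega) hqn).trans hnx
      apply mem_union_right
      by_cases hc1 : q ^ (10 * k + 1) ≤ x
      · apply mem_union_left
        rw [mem_biUnion]
        refine ⟨q, ?_, ?_⟩
        · rw [hA1, mem_filter, mem_Icc]
          exact ⟨⟨hqp.one_le, hqx⟩, hqp, hyq, hc1⟩
        · rw [mem_filter]; exact ⟨hn, hqn⟩
      · apply mem_union_right
        rw [mem_filter]
        refine ⟨Sol3_subset x hn, q, hqp, hqn, ?_⟩
        have : 2 * (5 * k) + 1 = 10 * k + 1 := by ring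
        rw [this]; omega
  have hcard : (Sol3 x).card ≤ (Smooth x y).card +
      (∑ q ∈ A1, ((Sol3 x).filter (fun n => q ∣ n)).card
      + ((Sol x).filter (fun n => ∃ q : ℕ, q.Prime ∧ q ∣ n ∧ x < q ^ (2 * (5 * k) + 1))).card) := by
    refine (card_le_card hsub).trans ?_
    refine (card_union_le _ _).trans ?_
    apply Nat.add_le_add_left
    refine (card_union_le _ _).trans ?_
    exact Nat.add_le_add_right card_biUnion_le _
  have hcard' : ((Sol3 x).card : ℝ) ≤ (Smooth x y).card +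
      (∑ q ∈ A1, (((Sol3 x).filter (fun n => q ∣ n)).card : ℝ)
      + (((Sol x).filter (fun n => ∃ q : ℕ, q.Prime ∧ q ∣ n ∧ x < q ^ (2 * (5 * k) + 1))).card : ℝ)) := by
    exact_mod_cast hcard
  have hE1 : ∑ q ∈ A1, (((Sol3 x).filter (fun n => q ∣ n)).card : ℝ)
      ≤ C0 * Z * x * y ^ (-3 + 2 * e) := by
    calc ∑ q ∈ A1, (((Sol3 x).filter (fun n => q ∣ n)).card : ℝ)
        ≤ ∑ q ∈ A1, C0 * x * y ^ (-3 + 2 * e) * (q : ℝ) ^ (-(1 + e)) := by
          apply sum_le_sum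
          intro q hqA
          rw [hA1, mem_filter, mem_Icc] at hqA
          obtain ⟨_, hqp, hyq, hqx⟩ := hqA
          have : Fact q.Prime := ⟨hqp⟩
          have hqpos : (0 : ℝ) < q := by exact_mod_cast hqp.pos
          have h5 : 5 ≤ q := by
            have : (4 : ℝ) < q := lt_of_le_of_lt hy hyq
            exact_mod_cast this
          refine (card_Sol3_A (q := q) h5 k hk x hqx).trans ?_
          rw [← hC0, ← he]
          have e1 : (q : ℝ) ^ (-4 + e) = (q : ℝ) ^ (-3 + 2 * e) * (q : ℝ) ^ (-(1 + e)) := by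
            rw [← Real.rpow_add hqpos]; congr 1; ring
          have e2 : (q : ℝ) ^ (-3 + 2 * e) ≤ y ^ (-3 + 2 * e) := by
            apply Real.rpow_le_rpow_of_nonpos (by linarith) hyq.le (by linarith)
          rw [e1]
          calc C0 * x * ((q : ℝ) ^ (-3 + 2 * e) * (q : ℝ) ^ (-(1 + e)))
              ≤ C0 * x * (y ^ (-3 + 2 * e) * (q : ℝ) ^ (-(1 + e))) := by gcongr
            _ = _ := by ring
      _ = C0 * x * y ^ (-3 + 2 * e) * ∑ q ∈ A1, (q : ℝ) ^ (-(1 + e)) := by rw [mul_sum]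
      _ ≤ C0 * x * y ^ (-3 + 2 * e) * Z := by
          have hy0 : 0 ≤ y ^ (-3 + 2 * e) := Real.rpow_nonneg (by linarith) _
          gcongr
          exact hsum.sum_le_tsum _ (fun n _ => by positivity)
      _ = _ := by ring
  have htail := tail_bound (5 * k) (by omega) x hx
  have e6 : (6 : ℝ) * ((5 * k : ℕ) : ℝ) + 3 = 30 * (k : ℝ) + 3 := by push_cast; ring
  rw [e6] at htail
  have he' : (-3 : ℝ) + 6 / ((k : ℝ) + 1) = -3 + 2 * e := by rw [he]; ring
  rw [he']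
  linarith

/-- The smooth part, general exponent. -/
theorem ev_smooth' (κ c₁ : ℝ) (hκ : 0 < κ) (hc0 : 0 < c₁) (hc1 : c₁ * κ < 1 / 2) (η : ℝ)
    (hη : 0 < η) :
    ∀ᶠ L : ℝ in atTop, ∀ x : ℕ, 1 ≤ x → Real.log x = L →
      ((Smooth x (Real.exp (κ * RR L))).card : ℝ) ≤ x * Real.exp (-(c₁ - η) * RR L) := by
  filter_upwards [ev_rpow (c₁ * κ) η hc1 hη, ev_RR_le (1 / (2 * (c₁ + 1))) (by positivity),
    ev_RR_ge (1 / κ), ev_RR_le (1 / κ) (by positivity), ev_RR_ge 2,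
    eventually_ge_atTop 3] with L h1 h2 h3 h4 h4' h5 x hx hxL
  have hL0 : 0 < L := by linarith
  have hlog : 1 ≤ Real.log L := by
    rw [Real.le_log_iff_exp_le (by linarith)]
    have := Real.exp_one_lt_d9
    linarith
  have hR2 : RR L * RR L = L * Real.log L := Real.mul_self_sqrt (by nlinarith)
  have hR0 : 0 < RR L := by linarith
  set y := Real.exp (κ * RR L) with hy
  have hlogy : Real.log y = κ * RR L := Real.log_exp _
  have hRs : 1 ≤ κ * RR L := by
    rw [div_le_iff₀ hκ] at h3; linarith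
  have hy2 : 2 ≤ y := by
    rw [hy]
    have := Real.add_one_le_exp (κ * RR L)
    linarith
  set τ : ℝ := c₁ * RR L / L with hτ
  have hτ0 : 0 ≤ τ := by positivity
  have hτ1 : τ ≤ 1 / 2 := by
    rw [hτ, div_le_iff₀ hL0]
    calc c₁ * RR L ≤ (c₁ + 1) * RR L := by nlinarith
      _ ≤ (c₁ + 1) * (1 / (2 * (c₁ + 1)) * L) := by gcongr
      _ = 1 / 2 * L := by field_simp
  have hb := smooth_bound x y (1 - τ) hy2 (by linarith) (by linarith)
  have hx0 : (0 : ℝ) < x := by exact_mod_cast hx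
  have e1 : (x : ℝ) ^ (1 - τ) = x * Real.exp (-c₁ * RR L) := by
    rw [Real.rpow_sub hx0, Real.rpow_one, div_eq_mul_inv]
    congr 1
    rw [Real.rpow_def_of_pos hx0, ← Real.exp_neg, hxL]
    congr 1
    rw [hτ]; field_simp
  have e2 : y ^ (1 - (1 - τ)) = L ^ (c₁ * κ) := by
    rw [show 1 - (1 - τ) = τ by ring, hy, Real.rpow_def_of_pos (Real.exp_pos _),
      Real.log_exp, Real.rpow_def_of_pos hL0]
    congr 1
    rw [hτ]
    calc κ * RR L * (c₁ * RR L / L) = (RR L * RR L) * (c₁ * κ) / L := by field_simp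
      _ = L * Real.log L * (c₁ * κ) / L := by rw [hR2]
      _ = Real.log L * (c₁ * κ) := by field_simp
  rw [e1, e2] at hb
  have e3 : Real.log (Real.log y) ≤ Real.log L := by
    apply Real.log_le_log
    · rw [hlogy]; linarith
    · rw [hlogy]
      calc κ * RR L ≤ κ * (1 / κ * L) := by gcongr
        _ = L := by field_simp
  calc ((Smooth x y).card : ℝ) ≤ x * Real.exp (-c₁ * RR L) *
        Real.exp (4 * (L ^ (c₁ * κ) * (10 + 4 * Real.log (Real.log y)))) := hb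
    _ ≤ x * Real.exp (-c₁ * RR L) * Real.exp (η * RR L) := by
        apply mul_le_mul_of_nonneg_left _ (by positivity)
        apply Real.exp_le_exp.mpr
        refine le_trans ?_ h1
        gcongr
    _ = x * Real.exp (-(c₁ - η) * RR L) := by
        rw [mul_assoc, ← Real.exp_add]
        congr 2; ring

/-- The main estimate modulo `n^3`. -/
theorem main_estimate3 (c : ℝ) (hc : c < √(3 / 2)) :
    ∃ x₀ : ℕ, ∀ x : ℕ, x₀ ≤ x →
      ((Sol3 x).card : ℝ) ≤ x * Real.exp (-c * √(Real.log x * Real.log (Real.log x))) := by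
  set g : ℝ := √(3 / 2) with hg
  have hg0 : 0 < g := by positivity
  have hg2 : g * g = 3 / 2 := Real.mul_self_sqrt (by norm_num)
  have hg1 : 1 < g := by
    rw [hg]; apply Real.lt_sqrt_of_sq_lt; norm_num
  -- `κ = g/3`, `3 κ = g`, `g κ = 1/2`
  set κ : ℝ := g / 3 with hκ
  have hκ0 : 0 < κ := by positivity
  set c0 : ℝ := max c (1 / 2) with hc0
  have hc0lt : c0 < g := max_lt hc (by linarith)
  have hc0pos : 0 < c0 := lt_of_lt_of_le (by norm_num) (le_max_right _ _)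
  set c1 : ℝ := (c0 + g) / 2 with hc1
  have hc01 : c0 < c1 := by rw [hc1]; linarith
  have hc1lt : c1 < g := by rw [hc1]; linarith
  have hc1κ : c1 * κ < 1 / 2 := by
    rw [hκ]; nlinarith
  -- the number of super-digits
  obtain ⟨k, hk1, hk2⟩ : ∃ k : ℕ, 5 ≤ k ∧ κ * (6 / ((k : ℝ) + 1)) ≤ g - c1 := by
    obtain ⟨k, hk⟩ := exists_nat_gt (6 * κ / (g - c1))
    have hpos : 0 < g - c1 := by linarith
    refine ⟨k + 5, by omega, ?_⟩
    rw [div_lt_iff₀ hpos] at hk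
    rw [← mul_div_assoc, div_le_iff₀ (by positivity)]
    push_cast
    nlinarith
  obtain ⟨C, hC0, hC⟩ := main_inequality3 k hk1
  set η : ℝ := (c1 - c0) / 2 with hη
  have hη0 : 0 < η := by rw [hη]; linarith
  have hδ : (0 : ℝ) < 1 / (30 * (k : ℝ) + 3) := by positivity
  have hev := (ev_smooth' κ c1 hκ0 (by linarith) hc1κ η hη0).and
    ((ev_exp_gap 1 c0 (c1 - η) (by rw [hη]; linarith)).and
    ((ev_exp_gap C c0 c1 hc01).and
    ((ev_power 12 (1 / (30 * (k : ℝ) + 3)) c0 hδ hc0pos.le).and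
    ((ev_power 20 (1 / 3) c0 (by norm_num) hc0pos.le).and
    ((eventually_ge_atTop (3 : ℝ)).and (ev_RR_ge (3 / κ)))))))
  have htend : Tendsto (fun x : ℕ => Real.log (x : ℝ)) atTop atTop :=
    Real.tendsto_log_atTop.comp tendsto_natCast_atTop_atTop
  obtain ⟨x₀, hx₀⟩ := eventually_atTop.mp ((htend.eventually hev).and (eventually_ge_atTop 1))
  refine ⟨x₀, fun x hx => ?_⟩
  obtain ⟨⟨h1, h2, h3, h4, h5, h6, h6'⟩, h7⟩ := hx₀ x hx
  set L := Real.log (x : ℝ) with hL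
  have hx1 : (1 : ℝ) ≤ x := by exact_mod_cast h7
  have hx0 : (0 : ℝ) < x := by linarith
  have hR0 : 0 ≤ RR L := Real.sqrt_nonneg _
  set y := Real.exp (κ * RR L) with hy
  have hy1 : 4 ≤ y := by
    have h8 : 3 ≤ κ * RR L := by
      rw [div_le_iff₀ hκ0] at h6'; linarith
    have := Real.add_one_le_exp (κ * RR L)
    rw [hy]; linarith
  have hmain := hC x y h7 hy1
  have hsm := h1 x h7 rfl
  have t2 : C * x * y ^ (-3 + 6 / ((k : ℝ) + 1)) ≤ x * (1 / 4 * Real.exp (-c0 * RR L)) := by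
    have e1 : y ^ (-3 + 6 / ((k : ℝ) + 1)) ≤ Real.exp (-c1 * RR L) := by
      rw [hy, Real.rpow_def_of_pos (Real.exp_pos _), Real.log_exp]
      apply Real.exp_le_exp.mpr
      have : κ * (-3 + 6 / ((k : ℝ) + 1)) ≤ -c1 := by
        have : κ * (-3) = -g := by rw [hκ]; ring
        rw [mul_add, this]; linarith
      calc κ * RR L * (-3 + 6 / ((k : ℝ) + 1)) = (κ * (-3 + 6 / ((k : ℝ) + 1))) * RR L := by ring
        _ ≤ -c1 * RR L := by gcongr
    calc C * x * y ^ (-3 + 6 / ((k : ℝ) + 1)) ≤ C * x * Real.exp (-c1 * RR L) := by gcongr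
      _ = x * (C * Real.exp (-c1 * RR L)) := by ring
      _ ≤ _ := by gcongr
  have t3 : 12 * x * (x : ℝ) ^ (-(1 / (30 * (k : ℝ) + 3))) * (1 + Real.log x)
      ≤ x * (1 / 4 * Real.exp (-c0 * RR L)) := by
    have e1 : (x : ℝ) ^ (-(1 / (30 * (k : ℝ) + 3))) = Real.exp (-(1 / (30 * (k : ℝ) + 3)) * L) := by
      rw [Real.rpow_def_of_pos hx0]; congr 1; ring
    rw [e1]
    calc 12 * x * Real.exp (-(1 / (30 * (k : ℝ) + 3)) * L) * (1 + L)
        = x * (12 * Real.exp (-(1 / (30 * (k : ℝ) + 3)) * L) * (1 + L)) := by ring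
      _ ≤ _ := by gcongr
  have t4 : 20 * (x : ℝ) ^ (2 / 3 : ℝ) ≤ x * (1 / 4 * Real.exp (-c0 * RR L)) := by
    have e1 : (x : ℝ) ^ (2 / 3 : ℝ) = x * Real.exp (-(1 / 3) * L) := by
      rw [show (2 / 3 : ℝ) = 1 - 1 / 3 by norm_num, Real.rpow_sub hx0, Real.rpow_one,
        div_eq_mul_inv, Real.rpow_def_of_pos hx0, ← Real.exp_neg]
      congr 2
      rw [← hL]; ring
    rw [e1]
    calc 20 * (x * Real.exp (-(1 / 3) * L)) = x * (20 * Real.exp (-(1 / 3) * L) * 1) := by ring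
      _ ≤ x * (20 * Real.exp (-(1 / 3) * L) * (1 + L)) := by
          gcongr
          linarith
      _ ≤ _ := by gcongr
  have t1 : ((Smooth x y).card : ℝ) ≤ x * (1 / 4 * Real.exp (-c0 * RR L)) := by
    refine hsm.trans ?_
    rw [one_mul] at h2
    gcongr
  have hfin : ((Sol3 x).card : ℝ) ≤ x * Real.exp (-c0 * RR L) := by
    calc ((Sol3 x).card : ℝ) ≤ _ := hmain
      _ ≤ x * (1 / 4 * Real.exp (-c0 * RR L)) + x * (1 / 4 * Real.exp (-c0 * RR L))
          + x * (1 / 4 * Real.exp (-c0 * RR L)) + x * (1 / 4 * Real.exp (-c0 * RR L)) := by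
          gcongr
      _ = _ := by ring
  refine hfin.trans ?_
  have hRR : √(Real.log x * Real.log (Real.log x)) = RR L := rfl
  rw [hRR]
  have : c ≤ c0 := le_max_left _ _
  gcongr

end Pool.Agent.Helper22.Morley
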