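import Pool.Agent.Helper22.Morley.CubePair

set_option autoImplicit false

/-!
# Letters made of five base `q` digits
-/

namespace Pool.Agent.Helper22.Morley

open Finset

variable {q : ℕ} [hq : Fact q.Prime]

/-- The main factor of a letter. -/
def XX (q t : ℕ) : ZMod (q ^ 3) :=
  w q (t % q) (t / q) * w q (t / q % q) (t / q ^ 2) * w q (t / q ^ 2 % q) (t / q ^ 3)

/-- The remaining factor. -/
def MM (q t : ℕ) : ZMod (q ^ 3) :=
  w q (t / q ^ 3 % q) (t / q ^ 4) * w q (t / q ^ 4 % q) (t / q ^ 5)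

omit hq in
theorem div_pow_succ (t i : ℕ) : t / q ^ i / q = t / q ^ (i + 1) := by
  rw [Nat.div_div_eq_div_mul, pow_succ]

theorem V_five (h5 : 5 ≤ q) (t : ℕ) : V q t = XX q t * MM q t * V q (t / q ^ 5) := by
  unfold XX MM
  rw [V_eq h5 t, V_eq h5 (t / q)]
  have e1 : t / q / q = t / q ^ 2 := by rw [Nat.div_div_eq_div_mul, pow_two]
  rw [e1, V_eq h5 (t / q ^ 2), div_pow_succ, V_eq h5 (t / q ^ 3), div_pow_succ,
    V_eq h5 (t / q ^ 4), div_pow_succ]
  ring

omit hq in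
theorem mod_div_mod (t i j k : ℕ) (hi : i ≤ k) (hj : i + j ≤ k) :
    (t % q ^ k) / q ^ i % q ^ j = t / q ^ i % q ^ j := by
  have e : q ^ k = q ^ i * q ^ (k - i) := by rw [← pow_add]; congr 1; omega
  rw [e, Nat.mod_mul_right_div_self]
  apply Nat.mod_mod_of_dvd
  exact pow_dvd_pow q (by omega)

theorem XX_mod (h5 : 5 ≤ q) (t : ℕ) : XX q (t % q ^ 5) = XX q t := by
  unfold XX
  have d0 : t % q ^ 5 % q = t % q := Nat.mod_mod_of_dvd _ (dvd_pow_self q (by norm_num))
  have d1 : (t % q ^ 5) / q % q = t / q % q := by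
    have := mod_div_mod (q := q) t 1 1 5 (by norm_num) (by norm_num)
    simpa using this
  have d2 : (t % q ^ 5) / q ^ 2 % q = t / q ^ 2 % q := by
    have := mod_div_mod (q := q) t 2 1 5 (by norm_num) (by norm_num)
    simpa using this
  have t0 : (t % q ^ 5) / q % q ^ 2 = t / q % q ^ 2 := by
    have := mod_div_mod (q := q) t 1 2 5 (by norm_num) (by norm_num)
    simpa using this
  have t1 : (t % q ^ 5) / q ^ 2 % q ^ 2 = t / q ^ 2 % q ^ 2 :=
    mod_div_mod (q := q) t 2 2 5 (by norm_num) (by norm_num)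
  have t2 : (t % q ^ 5) / q ^ 3 % q ^ 2 = t / q ^ 3 % q ^ 2 :=
    mod_div_mod (q := q) t 3 2 5 (by norm_num) (by norm_num)
  rw [d0, d1, d2, w_congr h5 t0, w_congr h5 t1, w_congr h5 t2]

theorem mem_S5 (h5 : 5 ≤ q) {t : ℕ} (ht : t ∈ S q 5) :
    t < q ^ 5 ∧ t % q ∈ D q ∧ t / q % q ∈ D q ∧ t / q ^ 2 % q ∈ D q ∧ t / q ^ 3 % q ∈ D q ∧
      t / q ^ 4 % q ∈ D q := by
  have h2 : q ≠ 2 := by omega
  have hlt : t < q ^ 5 := by
    unfold S at ht
    rw [mem_filter, mem_range] at ht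
    exact ht.1
  refine ⟨hlt, ?_⟩
  rw [mem_S_succ h2] at ht
  obtain ⟨a0, ht⟩ := ht
  rw [mem_S_succ h2] at ht
  obtain ⟨a1, ht⟩ := ht
  have e1 : t / q / q = t / q ^ 2 := by rw [Nat.div_div_eq_div_mul, pow_two]
  rw [e1, mem_S_succ h2] at ht
  obtain ⟨a2, ht⟩ := ht
  rw [div_pow_succ, mem_S_succ h2] at ht
  obtain ⟨a3, ht⟩ := ht
  rw [div_pow_succ, mem_S_succ h2] at ht
  obtain ⟨a4, _⟩ := ht
  exact ⟨a0, a1, a2, a3, a4⟩

theorem digits5 {t : ℕ} (ht : t < q ^ 5) :
    t = t % q + q * (t / q % q + q * (t / q ^ 2 % q + q * (t / q ^ 3 % q + q * (t / q ^ 4 % q)))) := by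
  have hq0 : 0 < q := hq.out.pos
  have e1 : t / q / q = t / q ^ 2 := by rw [Nat.div_div_eq_div_mul, pow_two]
  have e2 := div_pow_succ (q := q) t 2
  have e3 := div_pow_succ (q := q) t 3
  have h4 : t / q ^ 4 < q := by
    rw [Nat.div_lt_iff_lt_mul (by positivity), ← pow_succ']; exact ht
  have a0 := Nat.mod_add_div t q
  have a1 := Nat.mod_add_div (t / q) q
  have a2 := Nat.mod_add_div (t / q ^ 2) q
  have a3 := Nat.mod_add_div (t / q ^ 3) q
  rw [e1] at a1
  rw [e2] at a2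
  rw [e3] at a3
  rw [Nat.mod_eq_of_lt h4, a3, a2, a1, a0]

theorem red_XX (h5 : 5 ≤ q) (t : ℕ) :
    red q (XX q t) = u q (t % q) * u q (t / q % q) * u q (t / q ^ 2 % q) := by
  have hq0 : 0 < q := hq.out.pos
  unfold XX
  rw [map_mul, map_mul, red_w h5 (Nat.mod_lt _ hq0), red_w h5 (Nat.mod_lt _ hq0),
    red_w h5 (Nat.mod_lt _ hq0)]

theorem isUnit_XX (h5 : 5 ≤ q) {t : ℕ} (ht : t ∈ S q 5) : IsUnit (XX q t) := by
  obtain ⟨_, a0, a1, a2, _, _⟩ := mem_S5 h5 ht
  apply isUnit_of_red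
  rw [red_XX h5]
  have h2 : q ≠ 2 := by omega
  exact mul_ne_zero (mul_ne_zero (u_ne_zero h2 (mem_D.mp a0)) (u_ne_zero h2 (mem_D.mp a1)))
    (u_ne_zero h2 (mem_D.mp a2))

open scoped Classical in
/-- The weight as a unit. -/
noncomputable def fX (q t : ℕ) : (ZMod (q ^ 3))ˣ := if h : IsUnit (XX q t) then h.unit else 1

theorem fX_coe (h5 : 5 ≤ q) {t : ℕ} (ht : t ∈ S q 5) : (fX q t : ZMod (q ^ 3)) = XX q t := by
  unfold fX
  rw [dif_pos (isUnit_XX h5 ht)]
  rfl

/-- The code of a letter. -/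
def kap (q K t : ℕ) : ℕ :=
  t % q + q * (t / q % q + q * (t / q ^ 3 % q + q * (t / q ^ 4 % q + q * ((t / q ^ 2 % q) / K))))

omit hq in
theorem add_mul_lt {x y n : ℕ} (hx : x < q) (hy : y < n) : x + q * y < q * n := by
  calc x + q * y < q + q * y := Nat.add_lt_add_right hx _
    _ = q * (y + 1) := by ring
    _ ≤ q * n := Nat.mul_le_mul_left _ hy

theorem kap_lt (h5 : 5 ≤ q) {K Mb : ℕ} (hK : 0 < K) (hM : (D q).card ≤ Mb * K) {t : ℕ}
    (ht : t ∈ S q 5) : kap q K t < q ^ 4 * Mb := by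
  have hq0 : 0 < q := hq.out.pos
  obtain ⟨_, a0, a1, a2, _, _⟩ := mem_S5 h5 ht
  have h := digit_block (q := q) (by omega) hK hM a2
  unfold kap
  have e : q ^ 4 * Mb = q * (q * (q * (q * Mb))) := by ring
  rw [e]
  exact add_mul_lt (Nat.mod_lt _ hq0) (add_mul_lt (Nat.mod_lt _ hq0)
    (add_mul_lt (Nat.mod_lt _ hq0) (add_mul_lt (Nat.mod_lt _ hq0) h)))

theorem kap_eq {K t t' : ℕ} (h : kap q K t = kap q K t') :
    t % q = t' % q ∧ t / q % q = t' / q % q ∧ t / q ^ 3 % q = t' / q ^ 3 % q ∧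
      t / q ^ 4 % q = t' / q ^ 4 % q ∧ (t / q ^ 2 % q) / K = (t' / q ^ 2 % q) / K := by
  have hq0 : 0 < q := hq.out.pos
  unfold kap at h
  have h1 := block_eq (Nat.mod_lt _ hq0) (Nat.mod_lt _ hq0) h
  have h2 := block_eq (Nat.mod_lt _ hq0) (Nat.mod_lt _ hq0) h1.2
  have h3 := block_eq (Nat.mod_lt _ hq0) (Nat.mod_lt _ hq0) h2.2
  have h4 := block_eq (Nat.mod_lt _ hq0) (Nat.mod_lt _ hq0) h3.2
  exact ⟨h1.1, h2.1, h3.1, h4.1, h4.2⟩

/-- The letter data. -/
noncomputable def LD (q : ℕ) [Fact q.Prime] (h5 : 5 ≤ q) (K Mb : ℕ) (hK : 0 < K)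
    (hM : (D q).card ≤ Mb * K) : Abs.Data (ZMod (q ^ 3))ˣ where
  Q := q ^ 5
  Qpos := pow_pos (Fact.out : q.Prime).pos _
  D := S q 5
  hD := fun _ ht => (mem_S5 h5 ht).1
  f := fX q
  κ := kap q K
  M := q ^ 4 * Mb
  hκ := fun _ ht => kap_lt h5 hK hM ht

section Letters
variable (h5 : 5 ≤ q) {K Mb : ℕ} (hK : 0 < K) (hM : (D q).card ≤ Mb * K)

omit hq in
theorem card_letters : (S q 5).card ≤ q ^ 5 := by
  calc (S q 5).card ≤ (range (q ^ 5)).card := card_le_card (filter_subset _ _)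
    _ = q ^ 5 := card_range _

theorem mem_LP {p : ℕ × ℕ} (hp : p ∈ (LD q h5 K Mb hK hM).LP) :
    p.1 ∈ S q 5 ∧ p.2 ∈ S q 5 ∧ kap q K p.1 = kap q K p.2 := by
  unfold Abs.Data.LP at hp
  rw [mem_filter, mem_product] at hp
  exact ⟨hp.1.1, hp.1.2, hp.2⟩

theorem eq_of_digits {t t' : ℕ} (ht : t < q ^ 5) (ht' : t' < q ^ 5) (e0 : t % q = t' % q)
    (e1 : t / q % q = t' / q % q) (e2 : t / q ^ 2 % q = t' / q ^ 2 % q)
    (e3 : t / q ^ 3 % q = t' / q ^ 3 % q) (e4 : t / q ^ 4 % q = t' / q ^ 4 % q) : t = t' := by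
  rw [digits5 ht, digits5 ht', e0, e1, e2, e3, e4]

theorem card_LP : ((LD q h5 K Mb hK hM).LP).card ≤ q ^ 5 * K := by
  calc ((LD q h5 K Mb hK hM).LP).card ≤ (range (q ^ 5) ×ˢ range K).card := by
        apply card_le_card_of_injOn (fun p => (p.1, (p.2 / q ^ 2 % q) % K))
        · intro p hp
          obtain ⟨h1, _, _⟩ := mem_LP h5 hK hM (mem_coe.mp hp)
          rw [mem_coe, mem_product, mem_range, mem_range]
          exact ⟨(mem_S5 h5 h1).1, Nat.mod_lt _ hK⟩
        · intro p hp p' hp' hpp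
          obtain ⟨h1, h2, h3⟩ := mem_LP h5 hK hM (mem_coe.mp hp)
          obtain ⟨h1', h2', h3'⟩ := mem_LP h5 hK hM (mem_coe.mp hp')
          rw [Prod.mk.injEq] at hpp
          have hk := h3.symm.trans ((congrArg (kap q K) hpp.1).trans h3')
          obtain ⟨e0, e1, e3, e4, e5⟩ := kap_eq hk
          have e2 : p.2 / q ^ 2 % q = p'.2 / q ^ 2 % q := by
            rw [← Nat.mod_add_div (p.2 / q ^ 2 % q) K, ← Nat.mod_add_div (p'.2 / q ^ 2 % q) K,
              hpp.2, e5]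
          ext
          · exact hpp.1
          · exact eq_of_digits (mem_S5 h5 h2).1 (mem_S5 h5 h2').1 e0 e1 e2 e3 e4
    _ = q ^ 5 * K := by rw [card_product, card_range, card_range]

/-- Degenerate pairs of digits. -/
def degZ (q z z' : ℕ) : Prop := Hn ((min z z' : ℕ) : ZMod q) 0 0 (max z z' - min z z') = 0

/-- Degenerate pairs of letters. -/
def degL (q t t' : ℕ) : Prop := degZ q (t / q ^ 2 % q) (t' / q ^ 2 % q)

open scoped Classical in
theorem card_degZ_lt (h5 : 5 ≤ q) (K : ℕ) (hK : 2 * K ≤ q + 2) :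
    ((D q ×ˢ D q).filter (fun p => p.1 < p.2 ∧ p.2 < p.1 + K ∧ degZ q p.1 p.2)).card
      ≤ K * (K - 1) := by
  set A := (D q ×ˢ D q).filter (fun p => p.1 < p.2 ∧ p.2 < p.1 + K ∧ degZ q p.1 p.2) with hA
  have h1 : A.card ≤ ∑ d ∈ range K, 2 * d := by
    have hmap : (A : Set (ℕ × ℕ)).MapsTo (fun p => p.2 - p.1) (range K : Finset ℕ) := by
      intro p hp
      rw [hA, mem_coe, mem_filter] at hp
      rw [mem_coe, mem_range]
      show p.2 - p.1 < K
      omega
    rw [card_eq_sum_card_fiberwise hmap]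
    apply sum_le_sum
    intro d hd
    rw [mem_range] at hd
    by_cases hd0 : d = 0
    · subst hd0
      rw [mul_zero, Nat.le_zero, card_eq_zero, filter_eq_empty_iff]
      intro p hp
      rw [hA, mem_filter] at hp
      omega
    · refine le_trans ?_ (card_degen_le (q := q) h5 d (by omega) (by omega))
      apply card_le_card_of_injOn (fun p => p.1)
      · intro p hp
        rw [mem_coe, mem_filter, hA, mem_filter, mem_product, mem_D, mem_D] at hp
        obtain ⟨⟨⟨h1, h2⟩, h3, h4, h5'⟩, h6⟩ := hp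
        have h6' : p.2 - p.1 = d := h6
        rw [mem_coe, mem_filter, mem_range]
        refine ⟨by show p.1 < q; omega, ?_⟩
        unfold degZ at h5'
        rw [min_eq_left h3.le, max_eq_right h3.le, h6'] at h5'
        exact h5'
      · intro p hp p' hp' hpp
        rw [mem_coe, mem_filter, hA, mem_filter, mem_product, mem_D, mem_D] at hp hp'
        have h6' : p.2 - p.1 = d := hp.2
        have h6'' : p'.2 - p'.1 = d := hp'.2
        have hpp' : p.1 = p'.1 := hpp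
        ext
        · exact hpp'
        · omega
  calc A.card ≤ ∑ d ∈ range K, 2 * d := h1
    _ = K * (K - 1) := by rw [← mul_sum, mul_comm, Finset.sum_range_id_mul_two]

open scoped Classical in
theorem card_degZ (h5 : 5 ≤ q) (K : ℕ) (hK : 2 * K ≤ q + 2) :
    ((D q ×ˢ D q).filter (fun p => p.1 ≠ p.2 ∧ p.1 < p.2 + K ∧ p.2 < p.1 + K ∧
      degZ q p.1 p.2)).card ≤ 2 * K ^ 2 := by
  set A := (D q ×ˢ D q).filter (fun p => p.1 < p.2 ∧ p.2 < p.1 + K ∧ degZ q p.1 p.2) with hA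
  have hAc : A.card ≤ K * (K - 1) := card_degZ_lt h5 K hK
  have hsub : ((D q ×ˢ D q).filter (fun p => p.1 ≠ p.2 ∧ p.1 < p.2 + K ∧ p.2 < p.1 + K ∧
      degZ q p.1 p.2)) ⊆ A ∪ A.image Prod.swap := by
    intro p hp
    rw [mem_filter, mem_product] at hp
    obtain ⟨⟨h1, h2⟩, h3, h4, h5, h6⟩ := hp
    rw [mem_union]
    rcases lt_or_gt_of_ne h3 with h | h
    · left
      rw [hA, mem_filter, mem_product]
      exact ⟨⟨h1, h2⟩, h, h5, h6⟩
    · right
      rw [mem_image]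
      refine ⟨p.swap, ?_, by simp⟩
      rw [hA, mem_filter, mem_product]
      refine ⟨⟨h2, h1⟩, h, h4, ?_⟩
      show degZ q p.2 p.1
      unfold degZ at h6 ⊢
      rw [min_comm, max_comm]; exact h6
  have h := (card_le_card hsub).trans (card_union_le _ _)
  have himg : (A.image Prod.swap).card ≤ A.card := card_image_le
  have hKK : K * (K - 1) ≤ K ^ 2 := by
    rw [pow_two]; exact Nat.mul_le_mul_left _ (by omega)
  omega

theorem near_of_div {K z z' : ℕ} (hK : 0 < K) (h : z / K = z' / K) : z < z' + K ∧ z' < z + K := by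
  have hd1 := Nat.div_add_mod z K
  have hd2 := Nat.div_add_mod z' K
  have hm1 := Nat.mod_lt z hK
  have hm2 := Nat.mod_lt z' hK
  rw [h] at hd1
  constructor <;> omega

open scoped Classical in
theorem card_deg_letters (hKq : 2 * K ≤ q + 2) :
    (((LD q h5 K Mb hK hM).LP).filter (fun p => p.1 ≠ p.2 ∧ degL q p.1 p.2)).card
      ≤ q ^ 4 * (2 * K ^ 2) := by
  have hq0 : 0 < q := hq.out.pos
  set Z := (D q ×ˢ D q).filter (fun p => p.1 ≠ p.2 ∧ p.1 < p.2 + K ∧ p.2 < p.1 + K ∧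
      degZ q p.1 p.2) with hZ
  calc _ ≤ (((range q ×ˢ range q) ×ˢ (range q ×ˢ range q)) ×ˢ Z).card := by
        apply card_le_card_of_injOn (fun p => (((p.1 % q, p.1 / q % q),
          (p.1 / q ^ 3 % q, p.1 / q ^ 4 % q)), (p.1 / q ^ 2 % q, p.2 / q ^ 2 % q)))
        · intro p hp
          rw [mem_coe, mem_filter] at hp
          obtain ⟨h1, h2, h3⟩ := mem_LP h5 hK hM hp.1
          obtain ⟨e0, e1, e3, e4, e5⟩ := kap_eq h3
          obtain ⟨l1, a0, a1, a2, a3, a4⟩ := mem_S5 h5 h1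
          obtain ⟨l2, b0, b1, b2, b3, b4⟩ := mem_S5 h5 h2
          simp only [mem_coe, mem_product, mem_range]
          refine ⟨⟨⟨Nat.mod_lt _ hq0, Nat.mod_lt _ hq0⟩, Nat.mod_lt _ hq0, Nat.mod_lt _ hq0⟩, ?_⟩
          rw [hZ]
          simp only [mem_filter, mem_product]
          have hne : p.1 / q ^ 2 % q ≠ p.2 / q ^ 2 % q := by
            intro h
            exact hp.2.1 (eq_of_digits l1 l2 e0 e1 h e3 e4)
          exact ⟨⟨a2, b2⟩, hne, (near_of_div hK e5).1, (near_of_div hK e5).2, hp.2.2⟩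
        · intro p hp p' hp' hpp
          rw [mem_coe, mem_filter] at hp hp'
          obtain ⟨h1, h2, h3⟩ := mem_LP h5 hK hM hp.1
          obtain ⟨e0, e1, e3, e4, e5⟩ := kap_eq h3
          obtain ⟨h1', h2', h3'⟩ := mem_LP h5 hK hM hp'.1
          obtain ⟨e0', e1', e3', e4', e5'⟩ := kap_eq h3'
          simp only [Prod.mk.injEq] at hpp
          obtain ⟨⟨⟨g0, g1⟩, g3, g4⟩, g2, g2'⟩ := hpp
          ext
          · exact eq_of_digits (mem_S5 h5 h1).1 (mem_S5 h5 h1').1 g0 g1 g2 g3 g4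
          · exact eq_of_digits (mem_S5 h5 h2).1 (mem_S5 h5 h2').1
              (e0.symm.trans (g0.trans e0')) (e1.symm.trans (g1.trans e1')) g2'
              (e3.symm.trans (g3.trans e3')) (e4.symm.trans (g4.trans e4'))
    _ = q ^ 4 * Z.card := by
        rw [card_product, card_product, card_product, card_range]; ring
    _ ≤ q ^ 4 * (2 * K ^ 2) := Nat.mul_le_mul_left _ (card_degZ h5 K hKq)

omit hq in
theorem two_digit (t i : ℕ) : t / q ^ i % q ^ 2 = t / q ^ i % q + q * (t / q ^ (i + 1) % q) := by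
  rw [pow_two, Nat.mod_mul, div_pow_succ]

theorem XX_digits (h5 : 5 ≤ q) (t : ℕ) : XX q t =
    w q (t % q) (t / q % q + q * (t / q ^ 2 % q)) *
    w q (t / q % q) (t / q ^ 2 % q + q * (t / q ^ 3 % q)) *
    w q (t / q ^ 2 % q) (t / q ^ 3 % q + q * (t / q ^ 4 % q)) := by
  have hmm : ∀ x : ℕ, x % q ^ 2 % q ^ 2 = x % q ^ 2 := fun x => Nat.mod_mod _ _
  have t0 : t / q % q ^ 2 = t / q % q + q * (t / q ^ 2 % q) := by
    have := two_digit (q := q) t 1
    simpa using this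
  have t1 := two_digit (q := q) t 2
  have t2 := two_digit (q := q) t 3
  unfold XX
  rw [← t0, ← t1, ← t2, w_mod h5, w_mod h5, w_mod h5]

/-- Given the digits, the ratio determines the last two digits. -/
theorem last_digits (h5 : 5 ≤ q) {d0 d1 z z' a a' b b' : ℕ} (hd0 : 2 * d0 < q) (hd1 : 2 * d1 < q)
    (hz : 2 * z < q) (hz' : 2 * z' < q) (ha : a < q) (ha' : a' < q) (hb : b < q) (hb' : b' < q)
    (hdeg : ¬ degZ q z z')
    (h : (w q d0 (d1 + q * z') * w q d1 (z' + q * a) * w q z' (a + q * a')) *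
      (w q d0 (d1 + q * z) * w q d1 (z + q * b) * w q z (b + q * b')) =
      (w q d0 (d1 + q * z') * w q d1 (z' + q * b) * w q z' (b + q * b')) *
      (w q d0 (d1 + q * z) * w q d1 (z + q * a) * w q z (a + q * a'))) : a = b ∧ a' = b' := by
  have hq0 : 0 < q := hq.out.pos
  have s1 := w_split (q := q) h5 (c := d1) (by omega) z' a
  have s2 := w_split (q := q) h5 (c := d1) (by omega) z b
  have s3 := w_split (q := q) h5 (c := d1) (by omega) z' b
  have s4 := w_split (q := q) h5 (c := d1) (by omega) z a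
  have u0 := isUnit_w (q := q) (c := d1) (T := 0) h5 hd1
  have u1 := isUnit_w (q := q) (c := d0) (T := d1 + q * z') h5 hd0
  have u2 := isUnit_w (q := q) (c := d0) (T := d1 + q * z) h5 hd0
  have u3 := isUnit_w (q := q) (c := d1) (T := z' + q * a) h5 hd1
  have u4 := isUnit_w (q := q) (c := d1) (T := z + q * b) h5 hd1
  have hcomm : w q d1 (z' + q * a) * w q d1 (z + q * b) =
      w q d1 (z' + q * b) * w q d1 (z + q * a) := by
    apply (u0.mul u0).mul_right_cancel
    calc w q d1 (z' + q * a) * w q d1 (z + q * b) * (w q d1 0 * w q d1 0)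
        = (w q d1 (z' + q * a) * w q d1 0) * (w q d1 (z + q * b) * w q d1 0) := by ring
      _ = (w q d1 (z' + q * b) * w q d1 0) * (w q d1 (z + q * a) * w q d1 0) := by
          rw [s1, s2, s3, s4]; ring
      _ = _ := by ring
  have h' : w q z' (a + q * a') * w q z (b + q * b') =
      w q z' (b + q * b') * w q z (a + q * a') := by
    apply (((u1.mul u2).mul u3).mul u4).mul_left_cancel
    linear_combination h - (w q d0 (d1 + q * z') * w q d0 (d1 + q * z) * w q z' (b + q * b') *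
      w q z (a + q * a')) * hcomm
  have hlt : ∀ x y : ℕ, x < q → y < q → x + q * y < q ^ 2 := by
    intro x y hx hy
    have := add_mul_lt (q := q) hx hy
    rw [pow_two]; exact this
  have key : a + q * a' = b + q * b' := by
    unfold degZ at hdeg
    rcases le_total z z' with hle | hle
    · rw [min_eq_left hle, max_eq_right hle] at hdeg
      have e : z' = z + (z' - z) := by omega
      rw [e] at h'
      exact ratio_inj h5 z (z' - z) _ _ (by omega) hdeg (hlt _ _ ha ha') (hlt _ _ hb hb') h'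
    · rw [min_eq_right hle, max_eq_left hle] at hdeg
      have e : z = z' + (z - z') := by omega
      rw [e] at h'
      refine (ratio_inj h5 z' (z - z') _ _ (by omega) hdeg (hlt _ _ hb hb') (hlt _ _ ha ha') ?_).symm
      linear_combination h'
  exact block_eq ha hb key

open scoped Classical in
theorem card_off_letters (hKq : 2 * K ≤ q + 2) (ρ : (ZMod (q ^ 3))ˣ) :
    (((LD q h5 K Mb hK hM).LP).filter (fun p => p.1 ≠ p.2 ∧ ¬ degL q p.1 p.2 ∧
      fX q p.2 = ρ * fX q p.1)).card ≤ q ^ 2 * K ^ 2 := by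
  have hq0 : 0 < q := hq.out.pos
  have h2q : q ≠ 2 := by omega
  set ρ' : ZMod q := red q (ρ : ZMod (q ^ 3)) with hρ'
  have hρ0 : ρ' ≠ 0 := red_ne_zero_of_isUnit ρ.isUnit
  set Z := (D q ×ˢ D q).filter (fun p => p.1 ≠ p.2 ∧ p.1 < p.2 + K ∧ p.2 < p.1 + K ∧
      u q p.2 = ρ' * u q p.1) with hZ
  have hXX : ∀ p ∈ ((LD q h5 K Mb hK hM).LP).filter (fun p => p.1 ≠ p.2 ∧ ¬ degL q p.1 p.2 ∧
      fX q p.2 = ρ * fX q p.1), XX q p.2 = ρ * XX q p.1 := by
    intro p hp
    rw [mem_filter] at hp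
    obtain ⟨h1, h2, h3⟩ := mem_LP h5 hK hM hp.1
    have := congrArg (fun x : (ZMod (q ^ 3))ˣ => (x : ZMod (q ^ 3))) hp.2.2.2
    simp only [Units.val_mul] at this
    rwa [fX_coe h5 h2, fX_coe h5 h1] at this
  calc _ ≤ ((range q ×ˢ range q) ×ˢ Z).card := by
        apply card_le_card_of_injOn (fun p => ((p.1 % q, p.1 / q % q),
          (p.1 / q ^ 2 % q, p.2 / q ^ 2 % q)))
        · intro p hp
          have hx := hXX p (mem_coe.mp hp)
          rw [mem_coe, mem_filter] at hp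
          obtain ⟨h1, h2, h3⟩ := mem_LP h5 hK hM hp.1
          obtain ⟨e0, e1, e3, e4, e5⟩ := kap_eq h3
          obtain ⟨l1, a0, a1, a2, a3, a4⟩ := mem_S5 h5 h1
          obtain ⟨l2, b0, b1, b2, b3, b4⟩ := mem_S5 h5 h2
          simp only [mem_coe, mem_product, mem_range]
          refine ⟨⟨Nat.mod_lt _ hq0, Nat.mod_lt _ hq0⟩, ?_⟩
          rw [hZ]
          simp only [mem_filter, mem_product]
          have hne : p.1 / q ^ 2 % q ≠ p.2 / q ^ 2 % q := by
            intro h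
            exact hp.2.1 (eq_of_digits l1 l2 e0 e1 h e3 e4)
          refine ⟨⟨a2, b2⟩, hne, (near_of_div hK e5).1, (near_of_div hK e5).2, ?_⟩
          have hr := congrArg (red q) hx
          rw [map_mul, red_XX h5, red_XX h5, ← hρ', ← e0, ← e1] at hr
          have hu : u q (p.1 % q) * u q (p.1 / q % q) ≠ 0 :=
            mul_ne_zero (u_ne_zero h2q (mem_D.mp a0)) (u_ne_zero h2q (mem_D.mp a1))
          apply mul_left_cancel₀ hu
          rw [hr]; ring
        · intro p hp p' hp' hpp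
          have hx := hXX p (mem_coe.mp hp)
          have hx' := hXX p' (mem_coe.mp hp')
          rw [mem_coe, mem_filter] at hp hp'
          obtain ⟨h1, h2, h3⟩ := mem_LP h5 hK hM hp.1
          obtain ⟨e0, e1, e3, e4, e5⟩ := kap_eq h3
          obtain ⟨h1', h2', h3'⟩ := mem_LP h5 hK hM hp'.1
          obtain ⟨e0', e1', e3', e4', e5'⟩ := kap_eq h3'
          obtain ⟨l1, a0, a1, a2, a3, a4⟩ := mem_S5 h5 h1
          obtain ⟨l2, b0, b1, b2, b3, b4⟩ := mem_S5 h5 h2
          simp only [Prod.mk.injEq] at hpp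
          obtain ⟨⟨g0, g1⟩, g2, g2'⟩ := hpp
          have hprod : XX q p.2 * XX q p'.1 = XX q p'.2 * XX q p.1 := by
            rw [hx, hx']; ring
          rw [XX_digits h5, XX_digits h5, XX_digits h5 p'.2, XX_digits h5 p.1, ← e0, ← e1, ← e3, ← e4,
            ← e0', ← e1', ← e3', ← e4', ← g0, ← g1, ← g2, ← g2'] at hprod
          obtain ⟨k3, k4⟩ := last_digits h5 (mem_D.mp a0) (mem_D.mp a1) (mem_D.mp a2) (mem_D.mp b2)
            (Nat.mod_lt _ hq0) (Nat.mod_lt _ hq0) (Nat.mod_lt _ hq0) (Nat.mod_lt _ hq0)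
            hp.2.2.1 hprod
          ext
          · exact eq_of_digits (mem_S5 h5 h1).1 (mem_S5 h5 h1').1 g0 g1 g2 k3 k4
          · exact eq_of_digits (mem_S5 h5 h2).1 (mem_S5 h5 h2').1
              (e0.symm.trans (g0.trans e0')) (e1.symm.trans (g1.trans e1')) g2'
              (e3.symm.trans (k3.trans e3')) (e4.symm.trans (k4.trans e4'))
    _ = q ^ 2 * Z.card := by
        rw [card_product, card_product, card_range]; ring
    _ ≤ q ^ 2 * K ^ 2 := Nat.mul_le_mul_left _ (card_pairs (q := q) h2q K hKq ρ' hρ0)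

end Letters

end Pool.Agent.Helper22.Morley
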