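import Pool.Agent.Helper22.Morley.CubeW

set_option autoImplicit false

/-!
# Injectivity of the ratios `w z' T / w z T` and degenerate pairs
-/

namespace Pool.Agent.Helper22.Morley

open Finset

section Ring
variable {R : Type*} [CommRing R]

/-- Numerator product. -/
def An (z Y : R) (d : ℕ) : R := ∏ j ∈ range d, (2 * (Y + (z + j)) + 1)

/-- Denominator product. -/
def Bn (z Y : R) (d : ℕ) : R := ∏ j ∈ range d, (Y + (z + j) + 1)

/-- The divided difference. -/
def Hn (z Y1 Y2 : R) : ℕ → R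
  | 0 => 0
  | d + 1 => Hn z Y1 Y2 d * ((2 * (Y1 + (z + d)) + 1) * (Y2 + (z + d) + 1))
      + An z Y2 d * Bn z Y1 d

theorem An_Bn_sub (z Y1 Y2 : R) (d : ℕ) :
    An z Y1 d * Bn z Y2 d - An z Y2 d * Bn z Y1 d = (Y1 - Y2) * Hn z Y1 Y2 d := by
  induction d with
  | zero => simp [An, Bn, Hn]
  | succ d ih =>
    have e1 : An z Y1 (d + 1) = An z Y1 d * (2 * (Y1 + (z + d)) + 1) := prod_range_succ _ _
    have e2 : An z Y2 (d + 1) = An z Y2 d * (2 * (Y2 + (z + d)) + 1) := prod_range_succ _ _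
    have e3 : Bn z Y1 (d + 1) = Bn z Y1 d * (Y1 + (z + d) + 1) := prod_range_succ _ _
    have e4 : Bn z Y2 (d + 1) = Bn z Y2 d * (Y2 + (z + d) + 1) := prod_range_succ _ _
    rw [e1, e2, e3, e4]
    simp only [Hn]
    linear_combination ((2 * (Y1 + (z + d)) + 1) * (Y2 + (z + d) + 1)) * ih

theorem map_An {S : Type*} [CommRing S] (f : R →+* S) (z Y : R) (d : ℕ) :
    f (An z Y d) = An (f z) (f Y) d := by
  simp [An, map_prod, map_ofNat]

theorem map_Bn {S : Type*} [CommRing S] (f : R →+* S) (z Y : R) (d : ℕ) :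
    f (Bn z Y d) = Bn (f z) (f Y) d := by
  simp [Bn, map_prod]

theorem map_Hn {S : Type*} [CommRing S] (f : R →+* S) (z Y1 Y2 : R) (d : ℕ) :
    f (Hn z Y1 Y2 d) = Hn (f z) (f Y1) (f Y2) d := by
  induction d with
  | zero => simp [Hn]
  | succ d ih => simp [Hn, ih, map_An, map_Bn, map_ofNat]

end Ring

variable {q : ℕ} [hq : Fact q.Prime]

open Polynomial in
/-- At most `2 d` degenerate places. -/
theorem card_degen_le (h5 : 5 ≤ q) (d : ℕ) (hd : 1 ≤ d) (hdq : 2 * d ≤ q) :
    ((range q).filter (fun t : ℕ => Hn (t : ZMod q) 0 0 d = 0)).card ≤ 2 * d := by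
  classical
  have h2' := two_ne' (q := q) h5
  set P : (ZMod q)[X] := Hn (X : (ZMod q)[X]) 0 0 d with hP
  have hev : ∀ t : ZMod q, P.eval t = Hn t 0 0 d := by
    intro t
    have := map_Hn (evalRingHom t) (X : (ZMod q)[X]) 0 0 d
    simp only [coe_evalRingHom, eval_X, eval_zero] at this
    exact this
  -- the value at `-1/2`
  set θ : ZMod q := -(2 : ZMod q)⁻¹ with hθ
  have hθ2 : 2 * θ + 1 = 0 := by
    rw [hθ, mul_neg, mul_inv_cancel₀ h2']; ring
  have hval : ∀ e : ℕ, 1 ≤ e → 2 * e ≤ q → Hn θ 0 0 e ≠ 0 := by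
    intro e he
    induction e, he using Nat.le_induction with
    | base =>
      intro _
      simp [Hn, An, Bn]
    | succ e he ih =>
      intro heq
      have h1 := ih (by omega)
      have hA : An θ (0 : ZMod q) e = 0 := by
        unfold An
        apply prod_eq_zero (mem_range.mpr (show 0 < e by omega))
        simp [hθ2]
      simp only [Hn]
      rw [hA, zero_mul, add_zero]
      apply mul_ne_zero h1
      apply mul_ne_zero
      · have : (2 : ZMod q) * (0 + (θ + e)) + 1 = ((2 * e : ℕ) : ZMod q) := by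
          push_cast; linear_combination hθ2
        rw [this, Ne, ZMod.natCast_eq_zero_iff]
        intro hd'
        have h6 := Nat.le_of_dvd (by omega) hd'
        omega
      · intro h0
        have : ((2 * e + 1 : ℕ) : ZMod q) = 0 := by
          push_cast
          linear_combination 2 * h0 - hθ2
        rw [ZMod.natCast_eq_zero_iff] at this
        have h6 := Nat.le_of_dvd (by omega) this
        omega
  have hne : P ≠ 0 := by
    intro h0
    have := hev θ
    rw [h0, eval_zero] at this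
    exact hval d hd hdq this.symm
  have hdegA : ∀ e : ℕ, (An (X : (ZMod q)[X]) 0 e).natDegree ≤ e := by
    intro e
    unfold An
    refine (natDegree_prod_le _ _).trans ?_
    calc ∑ j ∈ range e, (2 * (0 + ((X : (ZMod q)[X]) + (j : (ZMod q)[X]))) + 1).natDegree
        ≤ ∑ j ∈ range e, 1 := by
          apply sum_le_sum
          intro j _
          have : (2 * (0 + ((X : (ZMod q)[X]) + (j : (ZMod q)[X]))) + 1) =
              C 2 * X + C (2 * (j : ZMod q) + 1) := by
            simp only [map_add, map_mul, map_natCast, map_one, map_ofNat]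
            ring
          rw [this]
          exact natDegree_linear_le
      _ = e := by simp
  have hdegB : ∀ e : ℕ, (Bn (X : (ZMod q)[X]) 0 e).natDegree ≤ e := by
    intro e
    unfold Bn
    refine (natDegree_prod_le _ _).trans ?_
    calc ∑ j ∈ range e, (0 + ((X : (ZMod q)[X]) + (j : (ZMod q)[X])) + 1).natDegree
        ≤ ∑ j ∈ range e, 1 := by
          apply sum_le_sum
          intro j _
          have : (0 + ((X : (ZMod q)[X]) + (j : (ZMod q)[X])) + 1) =
              C 1 * X + C ((j : ZMod q) + 1) := by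
            simp only [map_add, map_natCast, map_one]
            ring
          rw [this]
          exact natDegree_linear_le
      _ = e := by simp
  have hdegH : ∀ e : ℕ, (Hn (X : (ZMod q)[X]) 0 0 e).natDegree ≤ 2 * e := by
    intro e
    induction e with
    | zero => simp [Hn]
    | succ e ih =>
      simp only [Hn]
      refine (natDegree_add_le _ _).trans (max_le ?_ ?_)
      · refine natDegree_mul_le.trans ?_
        have h1 : ((2 * (0 + ((X : (ZMod q)[X]) + (e : (ZMod q)[X]))) + 1) *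
            (0 + (X + (e : (ZMod q)[X])) + 1)).natDegree ≤ 2 := by
          refine natDegree_mul_le.trans ?_
          have a1 : (2 * (0 + ((X : (ZMod q)[X]) + (e : (ZMod q)[X]))) + 1) =
              C 2 * X + C (2 * (e : ZMod q) + 1) := by
            simp only [map_add, map_mul, map_natCast, map_one, map_ofNat]
            ring
          have a2 : (0 + ((X : (ZMod q)[X]) + (e : (ZMod q)[X])) + 1) =
              C 1 * X + C ((e : ZMod q) + 1) := by
            simp only [map_add, map_natCast, map_one]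
            ring
          rw [a1, a2]
          have b1 : (C 2 * X + C (2 * (e : ZMod q) + 1) : (ZMod q)[X]).natDegree ≤ 1 :=
            natDegree_linear_le
          have b2 : (C 1 * X + C ((e : ZMod q) + 1) : (ZMod q)[X]).natDegree ≤ 1 :=
            natDegree_linear_le
          omega
        omega
      · refine natDegree_mul_le.trans ?_
        have := hdegA e
        have := hdegB e
        omega
  have hinj : Set.InjOn (fun t : ℕ => (t : ZMod q))
      (((range q).filter (fun t : ℕ => Hn (t : ZMod q) 0 0 d = 0) : Finset ℕ) : Set ℕ) := by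
    intro a ha b hb hab
    rw [mem_coe, mem_filter, mem_range] at ha hb
    have : (a : ZMod q) = (b : ZMod q) := hab
    rw [ZMod.natCast_eq_natCast_iff] at this
    exact Nat.ModEq.eq_of_lt_of_lt this ha.1 hb.1
  rw [← card_image_of_injOn hinj]
  refine le_trans ?_ (hdegH d)
  apply Polynomial.card_le_degree_of_subset_roots
  intro z hz
  rw [Finset.mem_val, mem_image] at hz
  obtain ⟨t, ht, rfl⟩ := hz
  rw [mem_filter] at ht
  rw [mem_roots hne, IsRoot, hev]
  exact ht.2

theorem w_add (h5 : 5 ≤ q) (z d T : ℕ) (hz : z + d < q) :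
    w q (z + d) T * ((-8) ^ d * Bn (z : ZMod (q ^ 3)) ((q : ZMod (q ^ 3)) * T) d) =
      w q z T * An (z : ZMod (q ^ 3)) ((q : ZMod (q ^ 3)) * T) d := by
  induction d with
  | zero => simp [An, Bn]
  | succ d ih =>
    have h := ih (by omega)
    have e1 : An (z : ZMod (q ^ 3)) ((q : ZMod (q ^ 3)) * T) (d + 1) =
      An (z : ZMod (q ^ 3)) ((q : ZMod (q ^ 3)) * T) d *
        (2 * ((q : ZMod (q ^ 3)) * T + (z + d)) + 1) := prod_range_succ _ _
    have e3 : Bn (z : ZMod (q ^ 3)) ((q : ZMod (q ^ 3)) * T) (d + 1) =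
      Bn (z : ZMod (q ^ 3)) ((q : ZMod (q ^ 3)) * T) d *
        ((q : ZMod (q ^ 3)) * T + (z + d) + 1) := prod_range_succ _ _
    have hu := isUnit_den (q := q) h5 (T : ZMod (q ^ 3)) (i := z + d) (by omega)
    have hinv := ZMod.mul_inv_of_unit _ hu
    have hw : w q (z + (d + 1)) T = w q (z + d) T * ((2 * ((q : ZMod (q ^ 3)) * T + ((z + d : ℕ) : ZMod (q ^ 3))) + 1) *
        (-8 * ((q : ZMod (q ^ 3)) * T + ((z + d : ℕ) : ZMod (q ^ 3)) + 1))⁻¹) := by
      unfold w rr
      rw [show z + (d + 1) = (z + d) + 1 by ring, prod_range_succ]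
      ring
    rw [e1, e3, hw]
    push_cast at hinv ⊢
    generalize (-8 * ((q : ZMod (q ^ 3)) * T + ((z : ZMod (q ^ 3)) + (d : ZMod (q ^ 3))) + 1))⁻¹ = iv at *
    linear_combination (w q (z + d) T * ((-8) ^ d * Bn (z : ZMod (q ^ 3)) ((q : ZMod (q ^ 3)) * T) d) *
      (2 * ((q : ZMod (q ^ 3)) * T + (z + d)) + 1)) * hinv +
      (2 * ((q : ZMod (q ^ 3)) * T + (z + d)) + 1) * h

/-- The ratios determine `T`. -/
theorem ratio_inj (h5 : 5 ≤ q) (z d T1 T2 : ℕ) (hz : 2 * (z + d) < q)
    (hH : Hn (z : ZMod q) 0 0 d ≠ 0) (hT1 : T1 < q ^ 2) (hT2 : T2 < q ^ 2)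
    (h : w q (z + d) T1 * w q z T2 = w q (z + d) T2 * w q z T1) : T1 = T2 := by
  have h1 := w_add (q := q) h5 z d T1 (by omega)
  have h2 := w_add (q := q) h5 z d T2 (by omega)
  set Y1 : ZMod (q ^ 3) := (q : ZMod (q ^ 3)) * (T1 : ZMod (q ^ 3)) with hY1
  set Y2 : ZMod (q ^ 3) := (q : ZMod (q ^ 3)) * (T2 : ZMod (q ^ 3)) with hY2
  have hu1 := isUnit_w (q := q) (c := z) (T := T1) h5 (by omega)
  have hu2 := isUnit_w (q := q) (c := z) (T := T2) h5 (by omega)
  have h8 : IsUnit ((-8 : ZMod (q ^ 3)) ^ d) := by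
    apply IsUnit.pow
    apply isUnit_of_red
    rw [map_neg]
    have : red q 8 = 8 := map_ofNat (red q) 8
    rw [this]
    have h2 := two_ne' (q := q) h5
    have : (-8 : ZMod q) = -(2 * 2 * 2) := by norm_num
    rw [this]; simp [h2]
  have key : (w q z T1 * w q z T2 * (-8) ^ d) *
      (An (z : ZMod (q ^ 3)) Y1 d * Bn (z : ZMod (q ^ 3)) Y2 d) =
      (w q z T1 * w q z T2 * (-8) ^ d) *
      (An (z : ZMod (q ^ 3)) Y2 d * Bn (z : ZMod (q ^ 3)) Y1 d) := by
    linear_combination (-(w q z T2 * (-8) ^ d * Bn (z : ZMod (q ^ 3)) Y2 d)) * h1 +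
      (w q z T1 * (-8) ^ d * Bn (z : ZMod (q ^ 3)) Y1 d) * h2 +
      ((-8) ^ d * (-8) ^ d * Bn (z : ZMod (q ^ 3)) Y1 d * Bn (z : ZMod (q ^ 3)) Y2 d) * h
  have hunit : IsUnit (w q z T1 * w q z T2 * (-8) ^ d) := (hu1.mul hu2).mul h8
  have h3 := hunit.mul_left_cancel key
  have h4 := An_Bn_sub (z : ZMod (q ^ 3)) Y1 Y2 d
  rw [h3, sub_self] at h4
  have hHu : IsUnit (Hn (z : ZMod (q ^ 3)) Y1 Y2 d) := by
    apply isUnit_of_red
    rw [map_Hn]
    have e1 : red q Y1 = 0 := by rw [hY1, map_mul, red_q, zero_mul]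
    have e2 : red q Y2 = 0 := by rw [hY2, map_mul, red_q, zero_mul]
    rw [e1, e2, map_natCast]
    exact hH
  have h5' : Y1 - Y2 = 0 := by
    have := h4.symm
    exact (hHu.mul_left_eq_zero).mp this
  have h6 : ((q * T1 : ℕ) : ZMod (q ^ 3)) = ((q * T2 : ℕ) : ZMod (q ^ 3)) := by
    push_cast
    rw [sub_eq_zero] at h5'
    exact h5'
  rw [ZMod.natCast_eq_natCast_iff] at h6
  have hq0 : 0 < q := hq.out.pos
  have h7 : q * T1 < q ^ 3 := by
    calc q * T1 < q * q ^ 2 := Nat.mul_lt_mul_of_pos_left hT1 hq0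
      _ = q ^ 3 := by ring
  have h8' : q * T2 < q ^ 3 := by
    calc q * T2 < q * q ^ 2 := Nat.mul_lt_mul_of_pos_left hT2 hq0
      _ = q ^ 3 := by ring
  have h9 := Nat.ModEq.eq_of_lt_of_lt h6 h7 h8'
  exact Nat.eq_of_mul_eq_mul_left hq0 h9

end Pool.Agent.Helper22.Morley
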