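import Pool.Agent.Helper22.Morley.Cube
import Pool.Agent.Helper22.Morley.Abstract

set_option autoImplicit false

/-!
# The function `V t = C(2t,t) (-16)^(-t)` modulo `q^3` and its factorisation along base `q` digits
-/

namespace Pool.Agent.Helper22.Morley

open Finset

variable {q : ℕ} [hq : Fact q.Prime]

theorem factorial_q_mul (a : ℕ) :
    (q * a).factorial = q ^ a * a.factorial *
      ∏ j ∈ range a, ∏ i ∈ range (q - 1), (q * j + (i + 1)) := by
  have hq0 : 0 < q := hq.out.pos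
  induction a with
  | zero => simp
  | succ a ih =>
    have h1 : (q * (a + 1)).factorial = (q * a).factorial * ((q * a + 1).ascFactorial q) := by
      rw [Nat.factorial_mul_ascFactorial]; congr 1
    rw [h1, ih, Nat.ascFactorial_eq_prod_range, prod_range_succ (fun j => ∏ i ∈ range (q - 1), (q * j + (i + 1)))]
    have h2 : ∏ i ∈ range q, (q * a + 1 + i) =
        (∏ i ∈ range (q - 1), (q * a + (i + 1))) * (q * (a + 1)) := by
      have h3 : range q = range ((q - 1) + 1) := by congr 1; omega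
      rw [h3, prod_range_succ]
      congr 1
      · apply prod_congr rfl
        intro i _; ring
      · have : q * (a + 1) = q * a + q := by ring
        rw [this]; omega
    rw [h2, Nat.factorial_succ]
    ring

theorem centralBinom_q_mul (h5 : 5 ≤ q) (T : ℕ) :
    (Nat.centralBinom (q * T) : ZMod (q ^ 3)) = (Nat.centralBinom T : ZMod (q ^ 3)) := by
  have hq0 : 0 < q := hq.out.pos
  set W : ℕ → ℕ := fun a => ∏ j ∈ range a, ∏ i ∈ range (q - 1), (q * j + (i + 1)) with hW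
  have h1 : (q * T).factorial = q ^ T * T.factorial * W T := factorial_q_mul T
  have h2 : (q * (2 * T)).factorial = q ^ (2 * T) * (2 * T).factorial * W (2 * T) :=
    factorial_q_mul (2 * T)
  have h3 : ∀ n : ℕ, Nat.centralBinom n * (n.factorial * n.factorial) = (2 * n).factorial := by
    intro n
    rw [Nat.centralBinom_eq_two_mul_choose]
    have := Nat.choose_mul_factorial_mul_factorial (show n ≤ 2 * n by omega)
    rw [show 2 * n - n = n by omega] at this
    linarith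
  have h4 := h3 (q * T)
  rw [show 2 * (q * T) = q * (2 * T) by ring, h2, h1, ← h3 T] at h4
  have hpos : 0 < q ^ (2 * T) * (T.factorial * T.factorial) := by positivity
  have h5' : Nat.centralBinom (q * T) * (W T * W T) = Nat.centralBinom T * W (2 * T) := by
    apply Nat.eq_of_mul_eq_mul_left hpos
    calc q ^ (2 * T) * (T.factorial * T.factorial) * (Nat.centralBinom (q * T) * (W T * W T))
        = Nat.centralBinom (q * T) * (q ^ T * T.factorial * W T * (q ^ T * T.factorial * W T)) := by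
          rw [two_mul, pow_add]; ring
      _ = q ^ (2 * T) * (Nat.centralBinom T * (T.factorial * T.factorial)) * W (2 * T) := h4
      _ = _ := by ring
  have h6 := congrArg (fun n : ℕ => (n : ZMod (q ^ 3))) h5'
  push_cast at h6
  set w : ZMod (q ^ 3) := ∏ i ∈ range (q - 1), ((i : ZMod (q ^ 3)) + 1) with hw
  have hWcast : ∀ a, (W a : ZMod (q ^ 3)) = w ^ a := by
    intro a
    rw [hW]
    push_cast
    rw [prod_congr rfl (fun j _ => block_prod h5 j), prod_const, card_range]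
  rw [hWcast, hWcast, ← pow_add, ← two_mul] at h6
  have hwu : IsUnit w := by
    have h7 : ((∏ i ∈ range (q - 1), (i + 1) : ℕ) : ZMod (q ^ 3)) = w := by
      rw [hw]; push_cast; rfl
    rw [← h7]
    apply isUnit_natCast
    rw [Prime.dvd_finsetProd_iff hq.out.prime]
    rintro ⟨i, hi, hd⟩
    rw [mem_range] at hi
    have := Nat.le_of_dvd (by omega) hd
    omega
  exact (hwu.pow (2 * T)).mul_right_cancel h6

/-- Inverse of `-16`. -/
def i16 (q : ℕ) : ZMod (q ^ 3) := (-16 : ZMod (q ^ 3))⁻¹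

theorem two_ne' (h5 : 5 ≤ q) : (2 : ZMod q) ≠ 0 := two_ne (by omega)

theorem isUnit_neg16 (h5 : 5 ≤ q) : IsUnit (-16 : ZMod (q ^ 3)) := by
  apply isUnit_of_red
  have h := sixteen_ne (q := q) (by omega)
  rw [map_neg]
  have : red q 16 = 16 := map_ofNat (red q) 16
  rw [this]; exact h

theorem i16_mul (h5 : 5 ≤ q) : (-16 : ZMod (q ^ 3)) * i16 q = 1 :=
  ZMod.mul_inv_of_unit _ (isUnit_neg16 h5)

theorem red_i16 (h5 : 5 ≤ q) : red q (i16 q) = (-16 : ZMod q)⁻¹ := by
  have h := congrArg (red q) (i16_mul (q := q) h5)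
  rw [map_mul, map_one, map_neg] at h
  have h16 : red q 16 = 16 := map_ofNat (red q) 16
  rw [h16] at h
  exact eq_inv_of_mul_eq_one_right h

theorem isUnit_i16 (h5 : 5 ≤ q) : IsUnit (i16 q) :=
  IsUnit.of_mul_eq_one_right _ (i16_mul h5)

/-- `V t = C(2t,t) (-16)^(-t)` modulo `q^3`. -/
def V (q : ℕ) (t : ℕ) : ZMod (q ^ 3) := (Nat.centralBinom t : ZMod (q ^ 3)) * (i16 q) ^ t

theorem red_V (h5 : 5 ≤ q) (t : ℕ) : red q (V q t) = u q t := by
  unfold V u
  rw [map_mul, map_natCast, map_pow, red_i16 h5]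

omit hq in
theorem V_zero : V q 0 = 1 := by simp [V]

theorem V_step (h5 : 5 ≤ q) (t : ℕ) :
    (-8 * ((t : ZMod (q ^ 3)) + 1)) * V q (t + 1) = (2 * (t : ZMod (q ^ 3)) + 1) * V q t := by
  have h := congrArg (fun n : ℕ => (n : ZMod (q ^ 3))) (Nat.succ_mul_centralBinom_succ t)
  push_cast at h
  unfold V
  rw [pow_succ (i16 q) t]
  have hx := i16_mul (q := q) h5
  have e1 : (-8 * ((t : ZMod (q ^ 3)) + 1)) * ((Nat.centralBinom (t + 1) : ZMod (q ^ 3)) *
      (i16 q ^ t * i16 q)) =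
      -8 * (((t : ZMod (q ^ 3)) + 1) * (Nat.centralBinom (t + 1) : ZMod (q ^ 3))) * i16 q ^ t
        * i16 q := by
    ring
  rw [e1, h]
  have e2 : -8 * (2 * (2 * (t : ZMod (q ^ 3)) + 1) * (Nat.centralBinom t : ZMod (q ^ 3)))
      * i16 q ^ t * i16 q = (2 * (t : ZMod (q ^ 3)) + 1) * (Nat.centralBinom t : ZMod (q ^ 3))
      * i16 q ^ t * ((-16 : ZMod (q ^ 3)) * i16 q) := by ring
  rw [e2, hx]
  ring

/-- `E = (-16)^(-(q-1))`. -/
def EE (q : ℕ) : ZMod (q ^ 3) := i16 q ^ (q - 1)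

theorem red_EE (h5 : 5 ≤ q) : red q (EE q) = 1 := by
  unfold EE
  rw [map_pow, red_i16 h5]
  exact ZMod.pow_card_sub_one_eq_one (inv_ne_zero (sixteen_ne (by omega)))

theorem isUnit_EE (h5 : 5 ≤ q) : IsUnit (EE q) := (isUnit_i16 h5).pow _

theorem V_q_mul (h5 : 5 ≤ q) (T : ℕ) : V q (q * T) = EE q ^ T * V q T := by
  unfold V EE
  rw [centralBinom_q_mul h5, ← pow_mul]
  have : q * T = (q - 1) * T + T := by
    have := hq.out.pos
    obtain ⟨n, hn⟩ : ∃ n, q = n + 1 := ⟨q - 1, by omega⟩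
    rw [hn]; simp; ring
  rw [this, pow_add]
  ring

/-- The factor `r`. -/
def rr (q : ℕ) (y : ZMod (q ^ 3)) : ZMod (q ^ 3) := (2 * y + 1) * (-8 * (y + 1))⁻¹

/-- `w c T`. -/
def w (q : ℕ) (c T : ℕ) : ZMod (q ^ 3) :=
  EE q ^ T * ∏ i ∈ range c, rr q ((q : ZMod (q ^ 3)) * T + i)

theorem red_q : red q (q : ZMod (q ^ 3)) = 0 := by
  rw [map_natCast, CharP.cast_eq_zero]

theorem isUnit_den (h5 : 5 ≤ q) (x : ZMod (q ^ 3)) {i : ℕ} (hi : i + 1 < q) :
    IsUnit (-8 * ((q : ZMod (q ^ 3)) * x + (i : ZMod (q ^ 3)) + 1)) := by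
  apply isUnit_of_red
  simp only [map_mul, map_add, map_neg, map_one, map_natCast, map_ofNat, CharP.cast_eq_zero,
    zero_mul, zero_add]
  have h2 := two_ne' (q := q) h5
  have h8 : (-8 : ZMod q) ≠ 0 := by
    have : (-8 : ZMod q) = -(2 * 2 * 2) := by norm_num
    rw [this]; simp [h2]
  apply mul_ne_zero h8
  have : ((i + 1 : ℕ) : ZMod q) ≠ 0 := by
    rw [Ne, ZMod.natCast_eq_zero_iff]
    intro hd
    have := Nat.le_of_dvd (by omega) hd
    omega
  push_cast at this; exact this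

theorem V_add (h5 : 5 ≤ q) (c T : ℕ) (hc : c < q) : V q (c + q * T) = w q c T * V q T := by
  induction c with
  | zero =>
    rw [zero_add, V_q_mul h5]
    simp [w]
  | succ c ih =>
    have h := ih (by omega)
    have hs := V_step (q := q) h5 (c + q * T)
    have hu := isUnit_den (q := q) h5 (T : ZMod (q ^ 3)) (i := c) hc
    have hinv := ZMod.mul_inv_of_unit _ hu
    push_cast at hs
    rw [h] at hs
    have e : c + 1 + q * T = c + q * T + 1 := by ring
    rw [e]
    apply hu.mul_left_cancel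
    have hs' : -8 * ((q : ZMod (q ^ 3)) * T + c + 1) * V q (c + q * T + 1) =
        (2 * ((c : ZMod (q ^ 3)) + q * T) + 1) * (w q c T * V q T) := by
      rw [← hs]; ring
    rw [hs']
    unfold w
    rw [prod_range_succ]
    unfold rr
    linear_combination (-(2 * ((q : ZMod (q ^ 3)) * T + c) + 1) *
      (EE q ^ T * ∏ i ∈ range c, (2 * ((q : ZMod (q ^ 3)) * T + i) + 1) *
        (-8 * ((q : ZMod (q ^ 3)) * T + i + 1))⁻¹) * V q T) * hinv

theorem V_eq (h5 : 5 ≤ q) (t : ℕ) : V q t = w q (t % q) (t / q) * V q (t / q) := by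
  rw [← V_add h5 _ _ (Nat.mod_lt _ hq.out.pos), Nat.mod_add_div]

theorem EE_pow (h5 : 5 ≤ q) : EE q ^ q ^ 2 = 1 := by
  have hu := isUnit_i16 (q := q) h5
  obtain ⟨x, hx⟩ := hu
  unfold EE
  rw [← hx, ← pow_mul]
  have h := ZMod.pow_totient x
  rw [Nat.totient_prime_pow hq.out (by norm_num)] at h
  have h' := congrArg (fun y : (ZMod (q ^ 3))ˣ => (y : ZMod (q ^ 3))) h
  simp only [Units.val_pow_eq_pow_val, Units.val_one] at h'
  rw [← h']
  congr 1
  norm_num
  ring

/-- `w c T` depends on `T` only modulo `q^2`. -/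
theorem w_mod (h5 : 5 ≤ q) (c T : ℕ) : w q c (T % q ^ 2) = w q c T := by
  have hT : (q : ZMod (q ^ 3)) * ((T % q ^ 2 : ℕ) : ZMod (q ^ 3)) = (q : ZMod (q ^ 3)) * T := by
    conv_rhs => rw [← Nat.mod_add_div T (q ^ 2)]
    push_cast
    have := q3_eq_zero (q := q)
    linear_combination (-((T / q ^ 2 : ℕ) : ZMod (q ^ 3))) * this
  have hE : EE q ^ (T % q ^ 2) = EE q ^ T := by
    conv_rhs => rw [← Nat.mod_add_div T (q ^ 2)]
    rw [pow_add, pow_mul, EE_pow h5, one_pow, mul_one]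
  unfold w
  rw [hT, hE]

theorem w_congr (h5 : 5 ≤ q) {c T T' : ℕ} (h : T % q ^ 2 = T' % q ^ 2) : w q c T = w q c T' := by
  rw [← w_mod h5, h, w_mod h5]

theorem w_zero_eq (h5 : 5 ≤ q) {c : ℕ} (hc : c < q) : w q c 0 = V q c := by
  have := V_add (q := q) h5 c 0 hc
  rw [mul_zero, add_zero, V_zero, mul_one] at this
  exact this.symm

/-- Reduction of `w`. -/
theorem red_w (h5 : 5 ≤ q) {c T : ℕ} (hc : c < q) : red q (w q c T) = u q c := by
  have h0 : red q (w q c 0) = u q c := by rw [w_zero_eq h5 hc, red_V h5]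
  rw [← h0]
  unfold w
  rw [map_mul, map_mul, map_pow, map_pow, red_EE h5, one_pow, one_pow]
  congr 1
  rw [map_prod, map_prod]
  apply prod_congr rfl
  intro i hi
  rw [mem_range] at hi
  have hd1 := isUnit_den (q := q) h5 (T : ZMod (q ^ 3)) (i := i) (by omega)
  have hd2 := isUnit_den (q := q) h5 (0 : ZMod (q ^ 3)) (i := i) (by omega)
  have e1 := congrArg (red q) (ZMod.mul_inv_of_unit _ hd1)
  have e2 := congrArg (red q) (ZMod.mul_inv_of_unit _ hd2)
  unfold rr
  rw [map_mul] at e1 e2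
  rw [map_mul, map_mul]
  have hr : red q (-8 * ((q : ZMod (q ^ 3)) * T + i + 1)) =
      red q (-8 * ((q : ZMod (q ^ 3)) * 0 + i + 1)) := by
    simp only [map_mul, map_add, red_q, zero_mul]
  rw [hr, ← e2] at e1
  have hne := red_ne_zero_of_isUnit hd2
  have e3 := mul_left_cancel₀ hne e1
  push_cast at e3 ⊢
  rw [e3]
  congr 1
  simp only [map_mul, map_add, red_q, zero_mul]

theorem isUnit_w (h5 : 5 ≤ q) {c T : ℕ} (hc : 2 * c < q) : IsUnit (w q c T) := by
  apply isUnit_of_red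
  rw [red_w h5 (by omega)]
  exact u_ne_zero (by omega) hc

/-- Splitting property. -/
theorem w_split (h5 : 5 ≤ q) {c : ℕ} (hc : c < q) (x a : ℕ) :
    w q c (x + q * a) * w q c 0 = w q c x * w q c (q * a) := by
  unfold w
  have hq3 := q3_eq_zero (q := q)
  have hprod : (∏ i ∈ range c, rr q ((q : ZMod (q ^ 3)) * ((x + q * a : ℕ) : ZMod (q ^ 3)) + i)) *
      (∏ i ∈ range c, rr q ((q : ZMod (q ^ 3)) * ((0 : ℕ) : ZMod (q ^ 3)) + i)) =
      (∏ i ∈ range c, rr q ((q : ZMod (q ^ 3)) * (x : ZMod (q ^ 3)) + i)) *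
      (∏ i ∈ range c, rr q ((q : ZMod (q ^ 3)) * ((q * a : ℕ) : ZMod (q ^ 3)) + i)) := by
    rw [← prod_mul_distrib, ← prod_mul_distrib]
    apply prod_congr rfl
    intro i hi
    rw [mem_range] at hi
    have hd1 := isUnit_den (q := q) h5 ((x + q * a : ℕ) : ZMod (q ^ 3)) (i := i) (by omega)
    have hd2 := isUnit_den (q := q) h5 ((0 : ℕ) : ZMod (q ^ 3)) (i := i) (by omega)
    have hd3 := isUnit_den (q := q) h5 (x : ZMod (q ^ 3)) (i := i) (by omega)
    have hd4 := isUnit_den (q := q) h5 ((q * a : ℕ) : ZMod (q ^ 3)) (i := i) (by omega)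
    have e1 := ZMod.mul_inv_of_unit _ hd1
    have e2 := ZMod.mul_inv_of_unit _ hd2
    have e3 := ZMod.mul_inv_of_unit _ hd3
    have e4 := ZMod.mul_inv_of_unit _ hd4
    unfold rr
    generalize (-8 * ((q : ZMod (q ^ 3)) * ((x + q * a : ℕ) : ZMod (q ^ 3)) + i + 1))⁻¹ = i1 at *
    generalize (-8 * ((q : ZMod (q ^ 3)) * ((0 : ℕ) : ZMod (q ^ 3)) + i + 1))⁻¹ = i2 at *
    generalize (-8 * ((q : ZMod (q ^ 3)) * (x : ZMod (q ^ 3)) + i + 1))⁻¹ = i3 at *
    generalize (-8 * ((q : ZMod (q ^ 3)) * ((q * a : ℕ) : ZMod (q ^ 3)) + i + 1))⁻¹ = i4 at *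
    push_cast at *
    -- denominators: d1 d2 = d3 d4
    have hd : (-8 * ((q : ZMod (q ^ 3)) * (x + q * a) + i + 1)) * (-8 * (q * 0 + i + 1)) =
        (-8 * ((q : ZMod (q ^ 3)) * x + i + 1)) * (-8 * (q * (q * a) + i + 1)) := by
      linear_combination (-64 * (x : ZMod (q ^ 3)) * a) * hq3
    have hn : (2 * ((q : ZMod (q ^ 3)) * (x + q * a) + i) + 1) * (2 * (q * 0 + i) + 1) =
        (2 * ((q : ZMod (q ^ 3)) * x + i) + 1) * (2 * (q * (q * a) + i) + 1) := by
      linear_combination (-4 * (x : ZMod (q ^ 3)) * a) * hq3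
    have hi12 : i1 * i2 = i3 * i4 := by
      have f1 : i1 * i2 = i1 * i2 * ((-8 * ((q : ZMod (q ^ 3)) * x + i + 1)) * i3) *
          ((-8 * (q * (q * a) + i + 1)) * i4) := by rw [e3, e4]; ring
      have f2 : i1 * i2 * ((-8 * ((q : ZMod (q ^ 3)) * x + i + 1)) * i3) *
          ((-8 * (q * (q * a) + i + 1)) * i4) = i3 * i4 *
          (((-8 * ((q : ZMod (q ^ 3)) * (x + q * a) + i + 1)) * i1) *
          ((-8 * (q * 0 + i + 1)) * i2)) := by
        linear_combination (-(i1 * i2 * i3 * i4)) * hd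
      rw [f1, f2, e1, e2]; ring
    linear_combination (i1 * i2) * hn + ((2 * ((q : ZMod (q ^ 3)) * x + i) + 1) *
      (2 * (q * (q * a) + i) + 1)) * hi12
  calc EE q ^ (x + q * a) * (∏ i ∈ range c, rr q ((q : ZMod (q ^ 3)) * ((x + q * a : ℕ) : ZMod (q ^ 3)) + i)) *
      (EE q ^ 0 * ∏ i ∈ range c, rr q ((q : ZMod (q ^ 3)) * ((0 : ℕ) : ZMod (q ^ 3)) + i))
      = EE q ^ (x + q * a) * ((∏ i ∈ range c, rr q ((q : ZMod (q ^ 3)) * ((x + q * a : ℕ) : ZMod (q ^ 3)) + i)) *
      (∏ i ∈ range c, rr q ((q : ZMod (q ^ 3)) * ((0 : ℕ) : ZMod (q ^ 3)) + i))) := by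
        rw [pow_zero]; ring
    _ = _ := by rw [hprod, pow_add]; ring

end Pool.Agent.Helper22.Morley
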