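import Pool.Agent.Helper22.Morley.CubeLetters

set_option autoImplicit false

/-!
# Counting `s` with `V (h + q s) = 1` modulo `q^3`
-/

namespace Pool.Agent.Helper22.Morley

open Finset

variable {q : ℕ} [hq : Fact q.Prime]

/-- `V S · α = V S' · β` and `S ≡ S'` modulo `q^2`. -/
def Lk (q : ℕ) (α β : ZMod (q ^ 3)) (s s' : ℕ) : Prop :=
  V q s * α = V q s' * β ∧ s % q ^ 2 = s' % q ^ 2

omit hq in
theorem add_q_mul_mod (c s s' : ℕ) (h : s % q ^ 2 = s' % q ^ 2) :
    (c + q * s) % q ^ 2 = (c + q * s') % q ^ 2 := by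
  have h1 : (q * s) % (q ^ 2) = (q * s') % (q ^ 2) := by
    have : s ≡ s' [MOD q] := by
      have : s ≡ s' [MOD q ^ 2] := h
      exact this.of_dvd (dvd_pow_self q (by norm_num))
    have h2 := Nat.ModEq.mul_left' q this
    rw [← pow_two] at h2
    exact h2
  exact Nat.ModEq.add_left c h1

theorem Lk.digit (h5 : 5 ≤ q) {α β : ZMod (q ^ 3)} {s s' : ℕ} (h : Lk q α β s s') {c : ℕ}
    (hc : c < q) : Lk q α β (c + q * s) (c + q * s') := by
  refine ⟨?_, add_q_mul_mod c s s' h.2⟩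
  rw [V_add h5 _ _ hc, V_add h5 _ _ hc, w_congr h5 h.2]
  calc w q c s' * V q s * α = w q c s' * (V q s * α) := by ring
    _ = w q c s' * (V q s' * β) := by rw [h.1]
    _ = _ := by ring

theorem Lk.word (h5 : 5 ≤ q) {α β : ZMod (q ^ 3)} {s s' : ℕ} (h : Lk q α β s s') (j t : ℕ)
    (ht : t < q ^ j) : Lk q α β (t + q ^ j * s) (t + q ^ j * s') := by
  have hq0 : 0 < q := hq.out.pos
  induction j generalizing t with
  | zero =>
    rw [pow_zero] at ht
    have : t = 0 := by omega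
    subst this
    simpa using h
  | succ j ih =>
    have h1 : t / q < q ^ j := by
      rw [Nat.div_lt_iff_lt_mul hq0, ← pow_succ]; exact ht
    have e : ∀ x, t + q ^ (j + 1) * x = t % q + q * (t / q + q ^ j * x) := by
      intro x
      conv_lhs => rw [← Nat.mod_add_div t q]
      ring
    rw [e, e]
    exact (ih _ h1).digit h5 (Nat.mod_lt _ hq0)

omit hq in
theorem Lk.trans_mul {α β α' β' : ZMod (q ^ 3)} {s s' s'' : ℕ} (h : Lk q α β s s')
    (h' : Lk q α' β' s' s'') : Lk q (α * α') (β * β') s s'' := by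
  refine ⟨?_, h.2.trans h'.2⟩
  calc V q s * (α * α') = (V q s * α) * α' := by ring
    _ = (V q s' * α') * β := by rw [h.1]; ring
    _ = V q s'' * (β * β') := by rw [h'.1]; ring

section Words
variable (h5 : 5 ≤ q) {K Mb : ℕ} (hK : 0 < K) (hM : (D q).card ≤ Mb * K)

/-- One letter. -/
theorem letter_link (h5 : 5 ≤ q) {K : ℕ} {t t' S₁ S₂ : ℕ} (ht : t ∈ S q 5) (ht' : t' ∈ S q 5)
    (hk : kap q K t = kap q K t') {α β : ZMod (q ^ 3)} (h : Lk q α β S₁ S₂) :
    Lk q (XX q t' * α) (XX q t * β) (t + q ^ 5 * S₁) (t' + q ^ 5 * S₂) := by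
  have hq0 : 0 < q := hq.out.pos
  obtain ⟨e0, e1, e3, e4, _⟩ := kap_eq hk
  obtain ⟨l1, _⟩ := mem_S5 h5 ht
  obtain ⟨l2, _⟩ := mem_S5 h5 ht'
  have hq5 : 0 < q ^ 5 := by positivity
  have hmod : ∀ {x S : ℕ}, x < q ^ 5 → (x + q ^ 5 * S) % q ^ 5 = x := by
    intro x S hx
    rw [Nat.add_mul_mod_self_left, Nat.mod_eq_of_lt hx]
  have hdiv : ∀ {x S : ℕ}, x < q ^ 5 → (x + q ^ 5 * S) / q ^ 5 = S := by
    intro x S hx
    rw [Nat.add_mul_div_left _ _ hq5, Nat.div_eq_of_lt hx, zero_add]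
  have hdig : ∀ (i : ℕ), i < 5 → ∀ x S : ℕ, (x + q ^ 5 * S) / q ^ i % q = x / q ^ i % q := by
    intro i hi x S
    have := mod_div_mod (q := q) (x + q ^ 5 * S) i 1 5 (by omega) (by omega)
    have h2 := mod_div_mod (q := q) x i 1 5 (by omega) (by omega)
    rw [Nat.add_mul_mod_self_left, h2, pow_one] at this
    exact this.symm
  have hd4 : ∀ {x S : ℕ}, x < q ^ 5 → (x + q ^ 5 * S) / q ^ 4 = x / q ^ 4 % q + q * S := by
    intro x S hx
    have h4 : x / q ^ 4 < q := by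
      rw [Nat.div_lt_iff_lt_mul (by positivity), ← pow_succ']; exact hx
    rw [show q ^ 5 * S = q ^ 4 * (q * S) by ring, Nat.add_mul_div_left _ _ (by positivity),
      Nat.mod_eq_of_lt h4]
  have hMM : MM q (t + q ^ 5 * S₁) = MM q (t' + q ^ 5 * S₂) := by
    unfold MM
    rw [hdig 3 (by norm_num), hdig 3 (by norm_num), hdig 4 (by norm_num), hdig 4 (by norm_num),
      hdiv l1, hdiv l2, hd4 l1, hd4 l2, e3, e4, w_congr h5 h.2,
      w_congr h5 (add_q_mul_mod (t' / q ^ 4 % q) S₁ S₂ h.2)]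
  constructor
  · rw [V_five h5 (t + q ^ 5 * S₁), V_five h5 (t' + q ^ 5 * S₂), hMM, hdiv l1, hdiv l2,
      ← XX_mod h5 (t + q ^ 5 * S₁), ← XX_mod h5 (t' + q ^ 5 * S₂), hmod l1, hmod l2]
    linear_combination (XX q t * XX q t' * MM q (t' + q ^ 5 * S₂)) * h.1
  · have g : ∀ x S : ℕ, (x + q ^ 5 * S) % q ^ 2 = x % q + q * (x / q % q) := by
      intro x S
      have : q ^ 5 * S = q ^ 2 * (q ^ 3 * S) := by ring
      rw [this, Nat.add_mul_mod_self_left]
      have h2 := two_digit (q := q) x 0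
      simpa using h2
    rw [g, g, e0, e1]

/-- Words with the same code. -/
theorem word_link (k : ℕ) {t t' : ℕ} (ht : t ∈ (LD q h5 K Mb hK hM).S k)
    (ht' : t' ∈ (LD q h5 K Mb hK hM).S k)
    (hc : (LD q h5 K Mb hK hM).cd k t = (LD q h5 K Mb hK hM).cd k t') (s : ℕ) :
    Lk q (((LD q h5 K Mb hK hM).Y k t' : (ZMod (q ^ 3))ˣ) : ZMod (q ^ 3))
      (((LD q h5 K Mb hK hM).Y k t : (ZMod (q ^ 3))ˣ) : ZMod (q ^ 3))
      (t + (q ^ 5) ^ k * s) (t' + (q ^ 5) ^ k * s) := by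
  have hq0 : 0 < q := hq.out.pos
  induction k generalizing t t' with
  | zero =>
    simp only [Abs.Data.S, mem_singleton] at ht ht'
    subst ht ht'
    exact ⟨rfl, rfl⟩
  | succ k ih =>
    rw [Abs.Data.mem_S_succ] at ht ht'
    simp only [Abs.Data.cd] at hc
    have hQ : (LD q h5 K Mb hK hM).Q = q ^ 5 := rfl
    have hκ : (LD q h5 K Mb hK hM).κ = kap q K := rfl
    have hD : (LD q h5 K Mb hK hM).D = S q 5 := rfl
    have hcode := Abs.Data.code_eq ((LD q h5 K Mb hK hM).hκ _ ht.1)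
      ((LD q h5 K Mb hK hM).hκ _ ht'.1) hc
    rw [hQ] at ht ht' hcode
    rw [hκ] at hcode
    have hl := ih ht.2 ht'.2 hcode.2
    have h2 := letter_link h5 (K := K) (by rw [← hD]; exact ht.1) (by rw [← hD]; exact ht'.1)
      hcode.1 hl
    have e : ∀ x : ℕ, x + (q ^ 5) ^ (k + 1) * s = x % q ^ 5 + q ^ 5 * (x / q ^ 5 + (q ^ 5) ^ k * s) := by
      intro x
      conv_lhs => rw [← Nat.mod_add_div x (q ^ 5)]
      ring
    have hY : ∀ x : ℕ, x % q ^ 5 ∈ S q 5 →
        (((LD q h5 K Mb hK hM).Y (k + 1) x : (ZMod (q ^ 3))ˣ) : ZMod (q ^ 3)) =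
        XX q (x % q ^ 5) * (((LD q h5 K Mb hK hM).Y k (x / q ^ 5) : (ZMod (q ^ 3))ˣ) : ZMod (q ^ 3)) := by
      intro x hx
      simp only [Abs.Data.Y, Units.val_mul]
      rw [hQ]
      congr 1
      exact fX_coe h5 hx
    rw [e t, e t', hY t (by rw [← hD]; exact ht.1), hY t' (by rw [← hD]; exact ht'.1)]
    exact h2

/-- Membership in the words. -/
theorem mem_words (k t : ℕ) (ht : t < (q ^ 5) ^ k) (hu : u q t ≠ 0) :
    t ∈ (LD q h5 K Mb hK hM).S k := by
  have hq0 : 0 < q := hq.out.pos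
  induction k generalizing t with
  | zero =>
    rw [pow_zero] at ht
    simp only [Abs.Data.S, mem_singleton]; omega
  | succ k ih =>
    rw [Abs.Data.mem_S_succ]
    have hQ : (LD q h5 K Mb hK hM).Q = q ^ 5 := rfl
    have hD : (LD q h5 K Mb hK hM).D = S q 5 := rfl
    rw [hQ, hD]
    have hlt := Nat.mod_lt t (show 0 < q ^ 5 by positivity)
    have h1 := u_pow_mul (q := q) 5 (t % q ^ 5) (t / q ^ 5) hlt
    rw [Nat.mod_add_div] at h1
    rw [h1, mul_ne_zero_iff] at hu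
    refine ⟨?_, ih _ ?_ hu.2⟩
    · unfold S
      rw [mem_filter, mem_range]
      exact ⟨hlt, hu.1⟩
    · rw [Nat.div_lt_iff_lt_mul (by positivity), ← pow_succ]; exact ht

/-- The number of `s < q^(10k)` with `V(h + q (s + q^(10k) s'')) = 1`. -/
theorem card_cube_digits (hKq : 2 * K ≤ q + 2) (k h s'' : ℕ) (hh : h < q) :
    ((range ((q ^ 5) ^ (2 * k))).filter
      (fun s => V q (h + q * (s + (q ^ 5) ^ (2 * k) * s'')) = 1)).card ≤
      (q ^ 4 * Mb) ^ k * Abs.Data.Bd (S q 5).card (q ^ 4 * (2 * K ^ 2)) (q ^ 2 * K ^ 2)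
        ((LD q h5 K Mb hK hM).LP).card k := by
  classical
  have hq0 : 0 < q := hq.out.pos
  set X := LD q h5 K Mb hK hM with hX
  set QQ := (q ^ 5) ^ k with hQQ
  have hQQ0 : 0 < QQ := by positivity
  have hQ2 : (q ^ 5) ^ (2 * k) = QQ * QQ := by rw [two_mul, pow_add]
  set A := (range ((q ^ 5) ^ (2 * k))).filter
      (fun s => V q (h + q * (s + (q ^ 5) ^ (2 * k) * s'')) = 1) with hA
  set T := A.image (fun s => (s % QQ, s / QQ)) with hT
  have hinj : Set.InjOn (fun s : ℕ => (s % QQ, s / QQ)) (A : Set ℕ) := by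
    intro s _ s' _ hss
    rw [Prod.mk.injEq] at hss
    rw [← Nat.mod_add_div s QQ, ← Nat.mod_add_div s' QQ, hss.1, hss.2]
  rw [← card_image_of_injOn hinj]
  have hmemA : ∀ s ∈ A, s % QQ ∈ X.S k ∧ s / QQ ∈ X.S k := by
    intro s hs
    rw [hA, mem_filter, mem_range] at hs
    have h1 := congrArg (red q) hs.2
    rw [red_V h5, map_one] at h1
    rw [u_add_mul _ _ hh] at h1
    have h3 : u q (s + (q ^ 5) ^ (2 * k) * s'') ≠ 0 := by
      intro h0; rw [h0, mul_zero] at h1; exact zero_ne_one h1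
    have e1 : (q ^ 5) ^ (2 * k) = q ^ (5 * (2 * k)) := by rw [← pow_mul]
    rw [e1, u_pow_mul _ _ _ (by rw [← e1]; exact hs.1), mul_ne_zero_iff] at h3
    have e2 : QQ = q ^ (5 * k) := by rw [hQQ, ← pow_mul]
    have h4 := u_pow_mul (q := q) (5 * k) (s % q ^ (5 * k)) (s / q ^ (5 * k))
      (Nat.mod_lt _ (by positivity))
    rw [Nat.mod_add_div] at h4
    rw [h4, mul_ne_zero_iff, ← e2] at h3
    refine ⟨mem_words h5 hK hM k _ (Nat.mod_lt _ hQQ0) h3.1.1, mem_words h5 hK hM k _ ?_ h3.1.2⟩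
    rw [Nat.div_lt_iff_lt_mul hQQ0, ← hQ2]; exact hs.1
  have hR := X.card_R_le (fun x y => degL q x y) (q ^ 4 * (2 * K ^ 2)) (q ^ 2 * K ^ 2)
    (by convert card_deg_letters h5 hK hM hKq)
    (by intro ρ; convert card_off_letters h5 hK hM hKq ρ <;> rfl) k 1
  have hmain := X.card_pairs_le k T (by
      intro p hp
      rw [hT, mem_image] at hp
      obtain ⟨s, hs, rfl⟩ := hp
      exact hmemA s hs) (by
      intro p hp p' hp' hc1 hc2
      rw [hT, mem_image] at hp hp'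
      obtain ⟨s, hs, rfl⟩ := hp
      obtain ⟨s', hs', rfl⟩ := hp'
      simp only at hc1 hc2 ⊢
      obtain ⟨m1, m2⟩ := hmemA s hs
      obtain ⟨m1', m2'⟩ := hmemA s' hs'
      have l1 := word_link h5 hK hM k m1 m1' hc1 (s / QQ + QQ * s'')
      have l2 := word_link h5 hK hM k m2 m2' hc2 s''
      have e2 : QQ = q ^ (5 * k) := by rw [hQQ, ← pow_mul]
      have l3 := l2.word h5 (5 * k) (s' % QQ) (by rw [← e2]; exact Nat.mod_lt _ hQQ0)
      rw [← e2] at l3
      have l4 := (l1.trans_mul l3).digit h5 hh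
      have f : ∀ x : ℕ, x % QQ + QQ * (x / QQ + QQ * s'') = x + (q ^ 5) ^ (2 * k) * s'' := by
        intro x
        rw [hQ2]
        conv_rhs => rw [← Nat.mod_add_div x QQ]
        ring
      rw [← hQQ, f s, f s'] at l4
      rw [hA, mem_filter] at hs hs'
      have l5 := l4.1
      rw [hs.2, hs'.2, one_mul, one_mul] at l5
      have l6 : X.Y k (s' % QQ) * X.Y k (s' / QQ) = X.Y k (s % QQ) * X.Y k (s / QQ) := by
        ext
        rw [Units.val_mul, Units.val_mul]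
        exact l5
      exact l6.symm)
  exact hmain.trans (Nat.mul_le_mul_left _ hR)

end Words

end Pool.Agent.Helper22.Morley
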