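import Pool.Agent.Helper22.Morley.Base

set_option autoImplicit false

/-!
# Energy of the products of normalised central binomial coefficients
-/

namespace Pool.Agent.Helper22.Morley

open Finset

variable {q : ℕ} [hq : Fact q.Prime]

/-- The valid digits. -/
def D (q : ℕ) : Finset ℕ := (range q).filter (fun t => 2 * t < q)

theorem mem_D {q t : ℕ} : t ∈ D q ↔ 2 * t < q := by
  unfold D; rw [mem_filter, mem_range]; omega

/-- Pairs with `t < t' < t + K` and given ratio. -/
theorem card_pairs_lt (h2 : q ≠ 2) (K : ℕ) (hK : 2 * K ≤ q + 2) (ρ : ZMod q) (hρ : ρ ≠ 0) :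
    2 * ((D q ×ˢ D q).filter (fun p => p.1 < p.2 ∧ p.2 < p.1 + K ∧
      u q p.2 = ρ * u q p.1)).card ≤ K * (K - 1) := by
  classical
  set A := (D q ×ˢ D q).filter (fun p => p.1 < p.2 ∧ p.2 < p.1 + K ∧
      u q p.2 = ρ * u q p.1) with hA
  have h1 : A.card ≤ ∑ d ∈ range K, d := by
    have hmap : (A : Set (ℕ × ℕ)).MapsTo (fun p => p.2 - p.1) (range K : Finset ℕ) := by
      intro p hp
      rw [hA, mem_coe, mem_filter] at hp
      rw [mem_coe, mem_range]
      show p.2 - p.1 < K
      omega
    rw [card_eq_sum_card_fiberwise hmap]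
    apply sum_le_sum
    intro d hd
    rw [mem_range] at hd
    by_cases hd0 : d = 0
    · subst hd0
      rw [Nat.le_zero, card_eq_zero, filter_eq_empty_iff]
      intro p hp
      rw [hA, mem_filter] at hp
      omega
    · refine le_trans ?_ (card_shift_le (q := q) h2 ρ hρ d (by omega) (by omega))
      apply card_le_card_of_injOn (fun p => p.1)
      · intro p hp
        rw [mem_coe, mem_filter, hA, mem_filter, mem_product, mem_D, mem_D] at hp
        rw [mem_coe, mem_filter, mem_range]
        obtain ⟨⟨⟨h1, h2⟩, h3, h4, h5⟩, h6⟩ := hp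
        have h6' : p.2 - p.1 = d := h6
        refine ⟨by show p.1 < q; omega, h1, ?_⟩
        show u q (p.1 + d) = _
        rw [← h5]; congr 1; omega
      · intro p hp p' hp' hpp
        rw [mem_coe, mem_filter, hA, mem_filter, mem_product, mem_D, mem_D] at hp hp'
        have h6' : p.2 - p.1 = d := hp.2
        have h6'' : p'.2 - p'.1 = d := hp'.2
        have hpp' : p.1 = p'.1 := hpp
        ext
        · exact hpp'
        · omega
  calc 2 * A.card ≤ 2 * ∑ d ∈ range K, d := Nat.mul_le_mul_left _ h1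
    _ = K * (K - 1) := by rw [mul_comm, Finset.sum_range_id_mul_two]

/-- Pairs at distance less than `K`, distinct, with given ratio. -/
theorem card_pairs (h2 : q ≠ 2) (K : ℕ) (hK : 2 * K ≤ q + 2) (ρ : ZMod q) (hρ : ρ ≠ 0) :
    ((D q ×ˢ D q).filter (fun p => p.1 ≠ p.2 ∧ p.1 < p.2 + K ∧ p.2 < p.1 + K ∧
      u q p.2 = ρ * u q p.1)).card ≤ K ^ 2 := by
  classical
  set A := (D q ×ˢ D q).filter (fun p => p.1 < p.2 ∧ p.2 < p.1 + K ∧
      u q p.2 = ρ * u q p.1) with hA
  set B := (D q ×ˢ D q).filter (fun p => p.1 < p.2 ∧ p.2 < p.1 + K ∧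
      u q p.2 = ρ⁻¹ * u q p.1) with hB
  have hAc : 2 * A.card ≤ K * (K - 1) := card_pairs_lt (q := q) h2 K hK ρ hρ
  have hBc : 2 * B.card ≤ K * (K - 1) := card_pairs_lt (q := q) h2 K hK ρ⁻¹ (inv_ne_zero hρ)
  have hsub : ((D q ×ˢ D q).filter (fun p => p.1 ≠ p.2 ∧ p.1 < p.2 + K ∧ p.2 < p.1 + K ∧
      u q p.2 = ρ * u q p.1)) ⊆ A ∪ B.image Prod.swap := by
    intro p hp
    rw [mem_filter, mem_product] at hp
    obtain ⟨⟨h1, h2⟩, h3, h4, h5, h6⟩ := hp
    rw [mem_union]
    rcases lt_or_gt_of_ne h3 with h | h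
    · left
      rw [hA, mem_filter, mem_product]
      exact ⟨⟨h1, h2⟩, h, h5, h6⟩
    · right
      rw [mem_image]
      refine ⟨p.swap, ?_, by simp⟩
      rw [hB, mem_filter, mem_product]
      refine ⟨⟨h2, h1⟩, h, h4, ?_⟩
      show u q p.1 = ρ⁻¹ * u q p.2
      rw [h6, ← mul_assoc, inv_mul_cancel₀ hρ, one_mul]
  have h := (card_le_card hsub).trans (card_union_le _ _)
  have himg : (B.image Prod.swap).card ≤ B.card := card_image_le
  have hKK : K * (K - 1) ≤ K ^ 2 := by
    rw [pow_two]; exact Nat.mul_le_mul_left _ (by omega)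
  omega

/-- The numbers below `q^l` with nonzero `u`. -/
def S (q l : ℕ) : Finset ℕ := (range (q ^ l)).filter (fun s => u q s ≠ 0)

/-- Block index. -/
def β (q K M : ℕ) : ℕ → ℕ → ℕ
  | 0, _ => 0
  | l + 1, s => (s % q) / K + M * β q K M l (s / q)

theorem mem_S_succ (h2 : q ≠ 2) {l s : ℕ} :
    s ∈ S q (l + 1) ↔ s % q ∈ D q ∧ s / q ∈ S q l := by
  have hq0 : 0 < q := hq.out.pos
  unfold S
  rw [mem_filter, mem_filter, mem_range, mem_range, mem_D, u_eq (q := q) s, mul_ne_zero_iff,
    u_ne_zero_iff (q := q) h2 (Nat.mod_lt _ hq0), Nat.div_lt_iff_lt_mul hq0, pow_succ]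
  tauto

theorem card_D_odd (h2 : q ≠ 2) : 2 * (D q).card = q + 1 := by
  have hodd : q % 2 = 1 := by
    rcases hq.out.eq_two_or_odd with h | h
    · exact absurd h h2
    · exact h
  have : D q = range ((q + 1) / 2) := by
    ext t; rw [mem_D, mem_range]; omega
  rw [this, card_range]; omega

theorem card_S_le (h2 : q ≠ 2) (l : ℕ) : (S q l).card ≤ (D q).card ^ l := by
  induction l with
  | zero =>
    have : (S q 0).card ≤ (range 1).card := by
      apply card_le_card
      unfold S
      rw [pow_zero]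
      exact filter_subset _ _
    simpa using this
  | succ l ih =>
    have hq0 : 0 < q := hq.out.pos
    calc (S q (l + 1)).card ≤ (D q ×ˢ S q l).card := by
          apply card_le_card_of_injOn (fun s => (s % q, s / q))
          · intro s hs
            rw [mem_coe, mem_S_succ h2] at hs
            rw [mem_coe, mem_product]; exact hs
          · intro s hs s' hs' h
            rw [Prod.mk.injEq] at h
            rw [← Nat.mod_add_div s q, ← Nat.mod_add_div s' q, h.1, h.2]
      _ = (D q).card * (S q l).card := card_product _ _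
      _ ≤ (D q).card * (D q).card ^ l := Nat.mul_le_mul_left _ ih
      _ = (D q).card ^ (l + 1) := by ring

/-- Pairs in the same block. -/
def P (q K M l : ℕ) : Finset (ℕ × ℕ) :=
  (S q l ×ˢ S q l).filter (fun p => β q K M l p.1 = β q K M l p.2)

/-- Pairs in the same block with ratio `ρ`. -/
def R (q K M l : ℕ) (ρ : ZMod q) : Finset (ℕ × ℕ) :=
  (P q K M l).filter (fun p => u q p.2 = ρ * u q p.1)

theorem digit_block (h2 : q ≠ 2) {K M : ℕ} (hK : 0 < K) (hM : (D q).card ≤ M * K)
    {t : ℕ} (ht : t ∈ D q) : t / K < M := by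
  rw [Nat.div_lt_iff_lt_mul hK]
  rw [mem_D] at ht
  have := card_D_odd (q := q) h2
  omega

theorem block_eq {x y z w M : ℕ} (hx : x < M) (hy : y < M) (h : x + M * z = y + M * w) :
    x = y ∧ z = w := by
  have hM : 0 < M := by omega
  have h1 : (x + M * z) % M = (y + M * w) % M := by rw [h]
  rw [Nat.add_mul_mod_self_left, Nat.add_mul_mod_self_left, Nat.mod_eq_of_lt hx,
    Nat.mod_eq_of_lt hy] at h1
  have h2 : (x + M * z) / M = (y + M * w) / M := by rw [h]
  rw [Nat.add_mul_div_left _ _ hM, Nat.add_mul_div_left _ _ hM, Nat.div_eq_of_lt hx,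
    Nat.div_eq_of_lt hy, zero_add, zero_add] at h2
  exact ⟨h1, h2⟩

theorem mem_P_succ (h2 : q ≠ 2) {K M : ℕ} (hK : 0 < K) (hM : (D q).card ≤ M * K)
    {l : ℕ} {p : ℕ × ℕ} (hp : p ∈ P q K M (l + 1)) :
    (p.1 % q ∈ D q ∧ p.2 % q ∈ D q ∧ (p.1 % q) / K = (p.2 % q) / K) ∧
      (p.1 / q, p.2 / q) ∈ P q K M l := by
  unfold P at hp ⊢
  rw [mem_filter, mem_product, mem_S_succ h2, mem_S_succ h2] at hp
  rw [mem_filter, mem_product]
  obtain ⟨⟨⟨h1, h3⟩, h4, h5⟩, h6⟩ := hp
  simp only [β] at h6
  have h7 := block_eq (digit_block h2 hK hM h1) (digit_block h2 hK hM h4) h6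
  exact ⟨⟨h1, h4, h7.1⟩, ⟨h3, h5⟩, h7.2⟩

omit hq in
/-- Fibrewise bound. -/
theorem fibre_bound (A : Finset (ℕ × ℕ)) (B : Finset (ℕ × ℕ)) (F : ℕ × ℕ → Finset (ℕ × ℕ))
    (h : ∀ p ∈ A, (p.1 / q, p.2 / q) ∈ B ∧ (p.1 % q, p.2 % q) ∈ F (p.1 / q, p.2 / q)) :
    A.card ≤ ∑ b ∈ B, (F b).card := by
  classical
  have hmap : (A : Set (ℕ × ℕ)).MapsTo (fun p => (p.1 / q, p.2 / q)) (B : Finset (ℕ × ℕ)) := by
    intro p hp
    exact (h p hp).1
  rw [card_eq_sum_card_fiberwise hmap]
  apply sum_le_sum
  intro b _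
  apply card_le_card_of_injOn (fun p => (p.1 % q, p.2 % q))
  · intro p hp
    rw [mem_coe, mem_filter] at hp
    have := (h p hp.1).2
    rw [hp.2] at this
    exact this
  · intro p hp p' hp' hpp
    rw [mem_coe, mem_filter] at hp hp'
    have e1 : (p.1 / q, p.2 / q) = (p'.1 / q, p'.2 / q) := by rw [hp.2, hp'.2]
    rw [Prod.mk.injEq] at e1 hpp
    ext
    · rw [← Nat.mod_add_div p.1 q, ← Nat.mod_add_div p'.1 q, e1.1, hpp.1]
    · rw [← Nat.mod_add_div p.2 q, ← Nat.mod_add_div p'.2 q, e1.2, hpp.2]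

omit hq in
theorem card_block_pairs (K : ℕ) (hK : 0 < K) :
    ((D q ×ˢ D q).filter (fun p => p.1 / K = p.2 / K)).card ≤ (D q).card * K := by
  classical
  have hmap : (((D q ×ˢ D q).filter (fun p => p.1 / K = p.2 / K) : Finset (ℕ × ℕ)) :
      Set (ℕ × ℕ)).MapsTo (fun p => p.1) (D q : Finset ℕ) := by
    intro p hp
    rw [mem_coe, mem_filter, mem_product] at hp
    exact hp.1.1
  rw [card_eq_sum_card_fiberwise hmap]
  calc ∑ b ∈ D q, (((D q ×ˢ D q).filter (fun p => p.1 / K = p.2 / K)).filter
        (fun p => p.1 = b)).card ≤ ∑ b ∈ D q, K := by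
        apply sum_le_sum
        intro b _
        calc _ ≤ (range K).card := by
              apply card_le_card_of_injOn (fun p => p.2 % K)
              · intro p _
                rw [mem_coe, mem_range]
                exact Nat.mod_lt _ hK
              · intro p hp p' hp' hpp
                rw [mem_coe, mem_filter, mem_filter] at hp hp'
                have h1 : p.2 / K = p'.2 / K := by
                  rw [← hp.1.2, ← hp'.1.2, hp.2, hp'.2]
                have hpp' : p.2 % K = p'.2 % K := hpp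
                ext
                · rw [hp.2, hp'.2]
                · rw [← Nat.mod_add_div p.2 K, ← Nat.mod_add_div p'.2 K, h1, hpp']
          _ = K := card_range _
    _ = (D q).card * K := by rw [sum_const, smul_eq_mul]

theorem card_P_le (h2 : q ≠ 2) {K M : ℕ} (hK : 0 < K) (hM : (D q).card ≤ M * K) (l : ℕ) :
    (P q K M l).card ≤ ((D q).card * K) ^ l := by
  induction l with
  | zero =>
    have : (P q K M 0).card ≤ (({0} : Finset ℕ) ×ˢ ({0} : Finset ℕ)).card := by
      apply card_le_card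
      intro p hp
      unfold P S at hp
      rw [mem_filter, mem_product, mem_filter, mem_filter, mem_range, mem_range, pow_zero] at hp
      rw [mem_product, mem_singleton, mem_singleton]
      omega
    simpa using this
  | succ l ih =>
    have h := fibre_bound (q := q) (P q K M (l + 1)) (P q K M l)
      (fun _ => (D q ×ˢ D q).filter (fun p => p.1 / K = p.2 / K)) (by
        intro p hp
        have := mem_P_succ h2 hK hM hp
        refine ⟨this.2, ?_⟩
        rw [mem_filter, mem_product]
        exact ⟨⟨this.1.1, this.1.2.1⟩, this.1.2.2⟩)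
    calc _ ≤ _ := h
      _ = (P q K M l).card * ((D q ×ˢ D q).filter (fun p => p.1 / K = p.2 / K)).card := by
          rw [sum_const, smul_eq_mul]
      _ ≤ ((D q).card * K) ^ l * ((D q).card * K) :=
          Nat.mul_le_mul ih (card_block_pairs (q := q) K hK)
      _ = _ := by ring

theorem card_R_le (h2 : q ≠ 2) {K M : ℕ} (hK : 0 < K) (hM : (D q).card ≤ M * K)
    (hKq : 2 * K ≤ q + 2) (l : ℕ) (ρ : ZMod q) (hρ : ρ ≠ 0) :
    (R q K M (l + 1) ρ).card ≤ (D q).card * (R q K M l ρ).card + K ^ 2 * (P q K M l).card := by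
  classical
  set F : ℕ × ℕ → Finset (ℕ × ℕ) := fun b => (D q ×ˢ D q).filter
    (fun p => p.1 / K = p.2 / K ∧ u q p.2 * u q b.2 = ρ * (u q p.1 * u q b.1)) with hF
  have h := fibre_bound (q := q) (R q K M (l + 1) ρ) (P q K M l) F (by
        intro p hp
        unfold R at hp
        rw [mem_filter] at hp
        have := mem_P_succ h2 hK hM hp.1
        refine ⟨this.2, ?_⟩
        rw [hF]
        simp only [mem_filter, mem_product]
        refine ⟨⟨this.1.1, this.1.2.1⟩, this.1.2.2, ?_⟩
        rw [← u_eq, ← u_eq]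
        exact hp.2)
  refine h.trans ?_
  have hb : ∀ b ∈ P q K M l, (F b).card ≤
      (if u q b.2 = ρ * u q b.1 then (D q).card else 0) + K ^ 2 := by
    intro b hb
    have hb' : u q b.1 ≠ 0 ∧ u q b.2 ≠ 0 := by
      unfold P S at hb
      rw [mem_filter, mem_product, mem_filter, mem_filter] at hb
      exact ⟨hb.1.1.2, hb.1.2.2⟩
    set ρ' : ZMod q := ρ * u q b.1 * (u q b.2)⁻¹ with hρ'
    have hρ'0 : ρ' ≠ 0 := mul_ne_zero (mul_ne_zero hρ hb'.1) (inv_ne_zero hb'.2)
    have hsub : F b ⊆ (if u q b.2 = ρ * u q b.1 then (D q).image (fun t => (t, t)) else ∅) ∪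
      ((D q ×ˢ D q).filter (fun p => p.1 ≠ p.2 ∧ p.1 < p.2 + K ∧ p.2 < p.1 + K ∧
      u q p.2 = ρ' * u q p.1)) := by
      intro p hp
      rw [hF] at hp
      simp only [mem_filter, mem_product] at hp
      obtain ⟨⟨h1, h3⟩, h4, h5⟩ := hp
      rw [mem_union]
      by_cases hpe : p.1 = p.2
      · left
        have hu : u q p.1 ≠ 0 := u_ne_zero h2 (mem_D.mp h1)
        have : u q b.2 = ρ * u q b.1 := by
          rw [← hpe] at h5
          have e : u q p.1 * u q b.2 = u q p.1 * (ρ * u q b.1) := by rw [h5]; ring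
          exact mul_left_cancel₀ hu e
        rw [if_pos this, mem_image]
        exact ⟨p.1, h1, by ext <;> simp [hpe]⟩
      · right
        rw [mem_filter, mem_product]
        have hd1 := Nat.div_add_mod p.1 K
        have hd2 := Nat.div_add_mod p.2 K
        have hm1 := Nat.mod_lt p.1 hK
        have hm2 := Nat.mod_lt p.2 hK
        rw [h4] at hd1
        refine ⟨⟨h1, h3⟩, hpe, by omega, by omega, ?_⟩
        rw [hρ']
        have : u q p.2 = u q p.2 * u q b.2 * (u q b.2)⁻¹ := by
          rw [mul_assoc, mul_inv_cancel₀ hb'.2, mul_one]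
        rw [this, h5]; ring
    refine (card_le_card hsub).trans ((card_union_le _ _).trans ?_)
    apply Nat.add_le_add
    · split_ifs
      · exact card_image_le
      · simp
    · exact card_pairs (q := q) h2 K hKq ρ' hρ'0
  refine (sum_le_sum hb).trans ?_
  rw [sum_add_distrib, sum_const, smul_eq_mul, ← sum_filter, sum_const, smul_eq_mul]
  unfold R
  apply le_of_eq; ring

theorem card_R_bound (h2 : q ≠ 2) {K M : ℕ} (hK : 0 < K) (hM : (D q).card ≤ M * K)
    (hKq : 2 * K ≤ q + 2) (l : ℕ) (ρ : ZMod q) (hρ : ρ ≠ 0) :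
    (R q K M l ρ).card ≤ (D q).card ^ l + l * ((D q).card ^ (l - 1) * K ^ (l + 1)) := by
  induction l with
  | zero =>
    have : (R q K M 0 ρ).card ≤ (P q K M 0).card := card_le_card (filter_subset _ _)
    have h := card_P_le h2 hK hM 0
    simp only [pow_zero] at h
    simp; omega
  | succ l ih =>
    have h := card_R_le h2 hK hM hKq l ρ hρ
    have hP := card_P_le h2 hK hM l
    have hD : 1 ≤ (D q).card := by
      have := card_D_odd (q := q) h2
      omega
    have hKK : 1 ≤ K := hK
    calc (R q K M (l + 1) ρ).card ≤ _ := h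
      _ ≤ (D q).card * ((D q).card ^ l + l * ((D q).card ^ (l - 1) * K ^ (l + 1)))
          + K ^ 2 * ((D q).card * K) ^ l :=
          Nat.add_le_add (Nat.mul_le_mul_left _ ih) (Nat.mul_le_mul_left _ hP)
      _ ≤ (D q).card ^ (l + 1) + (l + 1) * ((D q).card ^ l * K ^ (l + 2)) := by
          have e1 : l * ((D q).card * ((D q).card ^ (l - 1) * K ^ (l + 1)))
            ≤ l * ((D q).card ^ l * K ^ (l + 2)) := by
            rcases Nat.eq_zero_or_pos l with h0 | h0
            · subst h0; simp
            · apply Nat.mul_le_mul_left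
              rw [← mul_assoc, ← pow_succ', Nat.sub_add_cancel h0]
              apply Nat.mul_le_mul_left
              exact Nat.pow_le_pow_right hK (by omega)
          have e2 : K ^ 2 * ((D q).card * K) ^ l = (D q).card ^ l * K ^ (l + 2) := by
            rw [mul_pow]; ring
          rw [e2]
          calc (D q).card * ((D q).card ^ l + l * ((D q).card ^ (l - 1) * K ^ (l + 1)))
              + (D q).card ^ l * K ^ (l + 2)
              = (D q).card ^ (l + 1) + (l * ((D q).card * ((D q).card ^ (l - 1) * K ^ (l + 1)))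
                + (D q).card ^ l * K ^ (l + 2)) := by ring
            _ ≤ (D q).card ^ (l + 1) + (l * ((D q).card ^ l * K ^ (l + 2))
                + (D q).card ^ l * K ^ (l + 2)) := by
                apply Nat.add_le_add_left
                exact Nat.add_le_add_right e1 _
            _ = _ := by ring
      _ = _ := by simp

end Pool.Agent.Helper22.Morley
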