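import Pool.Agent.Helper22.Morley.Count

set_option autoImplicit false

/-!
# From the congruence to `u`
-/

namespace Pool.Agent.Helper22.Morley

open Finset

/-- The congruence modulo `n`. -/
def Cong (n : ℕ) : Prop :=
  (((n - 1).choose ((n - 1) / 2) : ℕ) : ℤ) ≡ (-1) ^ ((n - 1) / 2) * 4 ^ (n - 1) [ZMOD (n : ℤ)]

section
variable {q : ℕ} [hq : Fact q.Prime]

theorem choose_pred (k : ℕ) (hk : k < q) : ((q - 1).choose k : ZMod q) = (-1) ^ k := by
  induction k with
  | zero => simp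
  | succ k ih =>
    have h := ih (by omega)
    have h1 : q.choose (k + 1) = (q - 1).choose k + (q - 1).choose (k + 1) := by
      conv_lhs => rw [show q = (q - 1) + 1 by have := hq.out.pos; omega]
      rw [Nat.choose_succ_succ]
    have h2 : (q.choose (k + 1) : ZMod q) = 0 := by
      rw [ZMod.natCast_eq_zero_iff]
      exact hq.out.dvd_choose_self (by omega) hk
    rw [h1] at h2
    push_cast at h2
    rw [h] at h2
    rw [pow_succ]
    linear_combination h2

theorem u_half (h2 : q ≠ 2) : u q ((q - 1) / 2) = 1 := by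
  have hodd : q % 2 = 1 := by
    rcases hq.out.eq_two_or_odd with h | h
    · exact absurd h h2
    · exact h
  set h := (q - 1) / 2 with hh
  have hq1 : q - 1 = 2 * h := by omega
  have hlt : h < q := by omega
  have h16 := sixteen_ne (q := q) h2
  have hc : (Nat.centralBinom h : ZMod q) = (-1) ^ h := by
    rw [Nat.centralBinom_eq_two_mul_choose, ← hq1]
    exact choose_pred h hlt
  have h4 : (4 : ZMod q) ≠ 0 := by
    have := two_ne (q := q) h2
    have e : (4 : ZMod q) = 2 * 2 := by norm_num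
    rw [e]; exact mul_ne_zero this this
  have hF : (4 : ZMod q) ^ (q - 1) = 1 := ZMod.pow_card_sub_one_eq_one h4
  unfold u
  rw [hc, ← mul_pow]
  have e : (-1 : ZMod q) * (-16)⁻¹ = (4 ^ 2)⁻¹ := by
    have : (-16 : ZMod q) = -(4 ^ 2) := by norm_num
    rw [this, inv_neg]; ring
  rw [e, inv_pow, ← pow_mul, ← hq1, hF, inv_one]

theorem u_of_cong (h2 : q ≠ 2) {n : ℕ} (hn : Odd n) (hqn : q ∣ n) (hc : Cong n) :
    u q ((n - 1) / 2) = 1 := by
  obtain ⟨t, ht⟩ := hn
  have h1 : (n - 1) / 2 = t := by omega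
  have h3 : n - 1 = 2 * t := by omega
  unfold Cong at hc
  rw [h1, h3] at hc
  have hc' := hc.of_dvd (show (q : ℤ) ∣ (n : ℤ) by exact_mod_cast hqn)
  rw [← ZMod.intCast_eq_intCast_iff] at hc'
  push_cast at hc'
  have h16 := sixteen_ne (q := q) h2
  rw [h1]
  unfold u
  rw [Nat.centralBinom_eq_two_mul_choose, hc']
  rw [pow_mul, ← mul_pow, ← mul_pow]
  have : (-1 : ZMod q) * 4 ^ 2 * (-16)⁻¹ = 1 := by
    have e : (-1 : ZMod q) * 4 ^ 2 = -16 := by norm_num
    rw [e, mul_inv_cancel₀ h16]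
  rw [this, one_pow]

theorem u_cofactor (h2 : q ≠ 2) {m : ℕ} (hn : Odd (q * m)) (hc : Cong (q * m)) :
    u q ((m - 1) / 2) = 1 := by
  have h := u_of_cong (q := q) h2 hn (Dvd.intro m rfl) hc
  have hqo : q % 2 = 1 := by
    rcases hq.out.eq_two_or_odd with h | h
    · exact absurd h h2
    · exact h
  have hmo : m % 2 = 1 := by
    rw [Nat.odd_mul] at hn
    exact Nat.odd_iff.mp hn.2
  have e : (q * m - 1) / 2 = (q - 1) / 2 + q * ((m - 1) / 2) := by
    obtain ⟨a, ha⟩ : ∃ a, q = 2 * a + 1 := ⟨(q - 1) / 2, by omega⟩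
    obtain ⟨b, hb⟩ : ∃ b, m = 2 * b + 1 := ⟨(m - 1) / 2, by omega⟩
    have e1 : (q - 1) / 2 = a := by omega
    have e2 : (m - 1) / 2 = b := by omega
    have e3 : q * m - 1 = 2 * (a + q * b) := by
      rw [hb, show q * (2 * b + 1) = q + 2 * (q * b) by ring]
      omega
    rw [e1, e2, e3]; omega
  rw [e, u_add_mul _ _ (by omega), u_half h2, one_mul] at h
  exact h

end

/-- The integer `C(2s,s) - (-16)^s`. -/
def Delta (s : ℕ) : ℤ := (Nat.centralBinom s : ℤ) - (-16) ^ s

theorem Delta_ne_zero {s : ℕ} (hs : s ≠ 0) : Delta s ≠ 0 := by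
  unfold Delta
  intro h
  have h1 : (Nat.centralBinom s : ℤ) = (-16) ^ s := by linarith
  have h2 := congrArg Int.natAbs h1
  rw [Int.natAbs_natCast, Int.natAbs_pow] at h2
  have h3 := Nat.centralBinom_lt_four_pow hs
  have h4 : 4 ^ s ≤ 16 ^ s := Nat.pow_le_pow_left (by norm_num) s
  have h5 : (-16 : ℤ).natAbs = 16 := by norm_num
  rw [h5] at h2
  omega

theorem Delta_natAbs_le {s : ℕ} (hs : s ≠ 0) : (Delta s).natAbs < 2 ^ (5 * s) := by
  unfold Delta
  have h1 : ((Nat.centralBinom s : ℤ) - (-16) ^ s).natAbs ≤ Nat.centralBinom s + 16 ^ s := by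
    refine (Int.natAbs_sub_le _ _).trans ?_
    rw [Int.natAbs_natCast, Int.natAbs_pow]
    have h5 : (-16 : ℤ).natAbs = 16 := by norm_num
    rw [h5]
  have h3 := Nat.centralBinom_lt_four_pow hs
  have h4 : 4 ^ s ≤ 16 ^ s := Nat.pow_le_pow_left (by norm_num) s
  have h6 : 2 * 16 ^ s ≤ 2 ^ (5 * s) := by
    rw [pow_mul]
    norm_num
    have : (32 : ℕ) ^ s = 2 ^ s * 16 ^ s := by rw [← mul_pow]; norm_num
    rw [this]
    apply Nat.mul_le_mul_right
    calc 2 = 2 ^ 1 := by norm_num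
      _ ≤ 2 ^ s := Nat.pow_le_pow_right (by norm_num) (by omega)
  omega

theorem dvd_Delta {q : ℕ} [hq : Fact q.Prime] (h2 : q ≠ 2) {s : ℕ} (h : u q s = 1) :
    (q : ℤ) ∣ Delta s := by
  rw [← ZMod.intCast_zmod_eq_zero_iff_dvd]
  unfold Delta
  push_cast
  unfold u at h
  have h16 := sixteen_ne (q := q) h2
  rw [inv_pow, mul_inv_eq_iff_eq_mul₀ (pow_ne_zero _ h16), one_mul] at h
  rw [h, sub_self]

/-- A nonzero integer below `2^k` has at most `k` odd prime divisors. -/
theorem card_prime_divisors (A : Finset ℕ) (N k : ℕ) (hN : N ≠ 0) (hlt : N < 2 ^ k)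
    (hA : ∀ p ∈ A, p.Prime ∧ p ∣ N) : A.card ≤ k := by
  have h1 : (∏ p ∈ A, p) ∣ N := by
    apply Finset.prod_primes_dvd
    · intro p hp; exact (hA p hp).1.prime
    · intro p hp; exact (hA p hp).2
  have h2 : 2 ^ A.card ≤ ∏ p ∈ A, p := by
    calc 2 ^ A.card = ∏ _p ∈ A, 2 := by rw [prod_const]
      _ ≤ ∏ p ∈ A, p := prod_le_prod' (fun p hp => (hA p hp).1.two_le)
  have h3 := Nat.le_of_dvd (Nat.pos_of_ne_zero hN) h1
  have h4 : 2 ^ A.card < 2 ^ k := by omega
  exact ((Nat.pow_lt_pow_iff_right (by norm_num)).mp h4).le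

/-- The composite solutions up to `x`. -/
noncomputable def Sol (x : ℕ) : Finset ℕ :=
  open scoped Classical in
  (Icc 1 x).filter (fun n => Odd n ∧ 1 < n ∧ ¬ n.Prime ∧ Cong n)

theorem mem_Sol {x n : ℕ} : n ∈ Sol x ↔ (1 ≤ n ∧ n ≤ x) ∧ Odd n ∧ 1 < n ∧ ¬ n.Prime ∧ Cong n := by
  classical
  unfold Sol
  rw [mem_filter, mem_Icc]

open scoped Classical in
/-- The solutions divisible by `q`: their number is at most the number of `s < X` with `u s = 1`. -/
theorem card_Sol_dvd {q : ℕ} [hq : Fact q.Prime] (h2 : q ≠ 2) (x : ℕ) :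
    ((Sol x).filter (fun n => q ∣ n)).card ≤
      ((range (x / q)).filter (fun s => u q s = 1)).card := by
  have hq0 : 0 < q := hq.out.pos
  apply card_le_card_of_injOn (fun n => (n / q - 1) / 2)
  · intro n hn
    rw [mem_coe, mem_filter, mem_Sol] at hn
    obtain ⟨⟨⟨h1, hx⟩, ho, h1', hnp, hc⟩, m, rfl⟩ := hn
    rw [mem_coe, mem_filter, mem_range]
    show ((q * m) / q - 1) / 2 < x / q ∧ u q (((q * m) / q - 1) / 2) = 1
    rw [Nat.mul_div_cancel_left _ hq0]
    refine ⟨?_, u_cofactor h2 ho hc⟩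
    have hm : m ≤ x / q := by rw [Nat.le_div_iff_mul_le hq0]; linarith
    have hm0 : m ≠ 0 := by rintro rfl; simp at h1
    omega
  · intro n hn n' hn' h
    rw [mem_coe, mem_filter, mem_Sol] at hn hn'
    obtain ⟨⟨_, ho, _⟩, m, rfl⟩ := hn
    obtain ⟨⟨_, ho', _⟩, m', rfl⟩ := hn'
    have h' : ((q * m) / q - 1) / 2 = ((q * m') / q - 1) / 2 := h
    rw [Nat.mul_div_cancel_left _ hq0, Nat.mul_div_cancel_left _ hq0] at h'
    rw [Nat.odd_mul] at ho ho'
    have e1 := Nat.odd_iff.mp ho.2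
    have e2 := Nat.odd_iff.mp ho'.2
    have : m = m' := by omega
    rw [this]

open scoped Classical in
/-- Solutions `q m` with a small cofactor `m < B`. -/
theorem card_Sol_small_cofactor (x B : ℕ) :
    ((Sol x).filter (fun n => ∃ q m, q.Prime ∧ n = q * m ∧ m < B)).card ≤ 5 * B ^ 2 := by
  set A := (Sol x).filter (fun n => ∃ q m, q.Prime ∧ n = q * m ∧ m < B) with hA
  -- for every cofactor `m` the set of admissible primes
  have hsub : A ⊆ (range B).biUnion (fun m =>
      if h : 1 ≤ (m - 1) / 2 then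
        ((Delta ((m - 1) / 2)).natAbs.primeFactors).image (fun q => q * m)
      else ∅) := by
    intro n hn
    rw [hA, mem_filter, mem_Sol] at hn
    obtain ⟨⟨_, ho, h1, hnp, hc⟩, q, m, hqp, rfl, hm⟩ := hn
    rw [mem_biUnion]
    refine ⟨m, mem_range.mpr hm, ?_⟩
    have : Fact q.Prime := ⟨hqp⟩
    have hoo := ho
    rw [Nat.odd_mul] at hoo
    have hm1 : m ≠ 1 := by rintro rfl; rw [mul_one] at hnp; exact hnp hqp
    have hmo := Nat.odd_iff.mp hoo.2
    have hqo := Nat.odd_iff.mp hoo.1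
    have h2 : q ≠ 2 := by omega
    have hs : 1 ≤ (m - 1) / 2 := by omega
    rw [dif_pos hs, mem_image]
    refine ⟨q, ?_, rfl⟩
    rw [Nat.mem_primeFactors]
    have hD := Delta_ne_zero (s := (m - 1) / 2) (by omega)
    refine ⟨hqp, ?_, Int.natAbs_ne_zero.mpr hD⟩
    have := dvd_Delta (q := q) h2 (u_cofactor h2 ho hc)
    exact Int.natCast_dvd.mp this
  refine (card_le_card hsub).trans ?_
  refine card_biUnion_le.trans ?_
  calc ∑ m ∈ range B, (if h : 1 ≤ (m - 1) / 2 then
        ((Delta ((m - 1) / 2)).natAbs.primeFactors).image (fun q => q * m) else ∅).card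
      ≤ ∑ m ∈ range B, 5 * B := by
        apply sum_le_sum
        intro m hm
        rw [mem_range] at hm
        split_ifs with h
        · refine card_image_le.trans ?_
          have hD := Delta_ne_zero (s := (m - 1) / 2) (by omega)
          have := card_prime_divisors ((Delta ((m - 1) / 2)).natAbs.primeFactors)
            (Delta ((m - 1) / 2)).natAbs (5 * ((m - 1) / 2)) (Int.natAbs_ne_zero.mpr hD)
            (Delta_natAbs_le (by omega)) (fun p hp => by
              rw [Nat.mem_primeFactors] at hp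
              exact ⟨hp.1, hp.2.1⟩)
          omega
        · simp
    _ = 5 * B ^ 2 := by rw [sum_const, card_range, smul_eq_mul]; ring

end Pool.Agent.Helper22.Morley
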