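import Pool.Agent.Helper22.Morley.Bounds

set_option autoImplicit false

/-!
# Upper bound for the number of smooth numbers (Rankin)
-/

namespace Pool.Agent.Helper22.Morley

open Finset

/-- `n ↦ n^(-σ)`. -/
noncomputable def powHom (σ : ℝ) : ℕ →* ℝ where
  toFun n := (n : ℝ) ^ (-σ)
  map_one' := by simp
  map_mul' a b := by
    push_cast
    exact Real.mul_rpow (by positivity) (by positivity)

theorem powHom_apply (σ : ℝ) (n : ℕ) : powHom σ n = (n : ℝ) ^ (-σ) := rfl

theorem inv_one_sub_le (t : ℝ) (ht : 0 ≤ t) (ht' : t ≤ 3 / 4) :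
    (1 - t)⁻¹ ≤ Real.exp (4 * t) := by
  have h1 : 0 < 1 - t := by linarith
  have h2 := Real.one_sub_inv_le_log_of_pos h1
  have h3 : (1 - t)⁻¹ = Real.exp (-Real.log (1 - t)) := by
    rw [Real.exp_neg, Real.exp_log h1]
  rw [h3]
  apply Real.exp_le_exp.mpr
  have h4 : (1 - t)⁻¹ - 1 ≤ 4 * t := by
    have e : (1 - t)⁻¹ - 1 = t * (1 - t)⁻¹ := by field_simp; ring
    rw [e]
    have : (1 - t)⁻¹ ≤ 4 := by
      rw [inv_le_comm₀ h1 (by norm_num)]; linarith
    nlinarith
  linarith

theorem rankin (x : ℕ) (y σ : ℝ) (hy : 1 ≤ y) (hσ : 1 / 2 ≤ σ) (hσ1 : σ ≤ 1) :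
    ((Smooth x y).card : ℝ) ≤ (x : ℝ) ^ σ *
      Real.exp (4 * (y ^ (1 - σ) * ∑ p ∈ (⌊y⌋₊ + 1).primesBelow, 1 / (p : ℝ))) := by
  classical
  set N := ⌊y⌋₊ + 1 with hN
  have hlt : ∀ {p : ℕ}, p.Prime → (p : ℝ) ^ (-σ) ≤ 3 / 4 := by
    intro p hp
    have h1 : (2 : ℝ) ≤ p := by exact_mod_cast hp.two_le
    calc (p : ℝ) ^ (-σ) ≤ (2 : ℝ) ^ (-σ) :=
          Real.rpow_le_rpow_of_nonpos (by norm_num) h1 (by linarith)
      _ ≤ (2 : ℝ) ^ (-(1 / 2) : ℝ) :=
          Real.rpow_le_rpow_of_exponent_le (by norm_num) (by linarith)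
      _ ≤ 3 / 4 := by
          rw [Real.rpow_neg (by norm_num), ← Real.sqrt_eq_rpow]
          rw [inv_le_comm₀ (by positivity) (by norm_num)]
          apply Real.le_sqrt_of_sq_le
          norm_num
  have hnorm : ∀ {p : ℕ}, p.Prime → ‖powHom σ p‖ < 1 := by
    intro p hp
    rw [powHom_apply, Real.norm_of_nonneg (by positivity)]
    have := hlt hp
    linarith
  have h1 := (EulerProduct.summable_and_hasSum_smoothNumbers_prod_primesBelow_geometric
    (f := powHom σ) hnorm N).2
  have hmem : ∀ n ∈ Smooth x y, n ∈ N.smoothNumbers := by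
    intro n hn
    unfold Smooth at hn
    rw [mem_filter, mem_Icc] at hn
    rw [Nat.mem_smoothNumbers_iff_forall_le]
    refine ⟨by omega, fun p _ hp hpn => ?_⟩
    have := hn.2 p hp hpn
    rw [hN]
    exact Nat.lt_succ_of_le (Nat.le_floor this)
  have h2 := sum_le_hasSum ((Smooth x y).subtype (· ∈ N.smoothNumbers))
    (fun n _ => by
      rw [powHom_apply]
      positivity) h1
  have h3 : ∑ n ∈ (Smooth x y).subtype (· ∈ N.smoothNumbers), powHom σ n =
      ∑ n ∈ Smooth x y, (n : ℝ) ^ (-σ) :=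
    Finset.sum_subtype_of_mem (fun n : ℕ => (n : ℝ) ^ (-σ)) hmem
  rw [h3] at h2
  have h4 : ((Smooth x y).card : ℝ) ≤ (x : ℝ) ^ σ * ∑ n ∈ Smooth x y, (n : ℝ) ^ (-σ) := by
    rw [mul_sum, card_eq_sum_ones, Nat.cast_sum]
    apply sum_le_sum
    intro n hn
    unfold Smooth at hn
    rw [mem_filter, mem_Icc] at hn
    have hn0 : (0 : ℝ) < n := by exact_mod_cast hn.1.1
    have hnx : (n : ℝ) ≤ x := by exact_mod_cast hn.1.2
    rw [Real.rpow_neg hn0.le, ← div_eq_mul_inv, Nat.cast_one, one_le_div (by positivity)]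
    exact Real.rpow_le_rpow hn0.le hnx (by linarith)
  have h5 : ∏ p ∈ N.primesBelow, (1 - powHom σ p)⁻¹ ≤
      Real.exp (4 * (y ^ (1 - σ) * ∑ p ∈ N.primesBelow, 1 / (p : ℝ))) := by
    calc ∏ p ∈ N.primesBelow, (1 - powHom σ p)⁻¹
        ≤ ∏ p ∈ N.primesBelow, Real.exp (4 * (y ^ (1 - σ) * (1 / (p : ℝ)))) := by
          apply prod_le_prod
          · intro p hp
            have hpp := Nat.prime_of_mem_primesBelow hp
            have := hlt hpp
            rw [powHom_apply]
            apply inv_nonneg.mpr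
            linarith
          · intro p hp
            have hpp := Nat.prime_of_mem_primesBelow hp
            have hlt' := hlt hpp
            rw [powHom_apply]
            refine (inv_one_sub_le _ (by positivity) hlt').trans ?_
            apply Real.exp_le_exp.mpr
            apply mul_le_mul_of_nonneg_left _ (by norm_num)
            have hp0 : (0 : ℝ) < p := by exact_mod_cast hpp.pos
            have hpy : (p : ℝ) ≤ y := by
              have := Nat.lt_of_mem_primesBelow hp
              rw [hN] at this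
              exact (Nat.le_floor_iff (by linarith)).mp (Nat.lt_succ_iff.mp this)
            have e : (p : ℝ) ^ (-σ) = (p : ℝ) ^ (1 - σ) * (1 / p) := by
              rw [one_div, ← Real.rpow_neg_one (p : ℝ), ← Real.rpow_add hp0]
              congr 1; ring
            rw [e]
            gcongr
      _ = _ := by rw [← Real.exp_sum, mul_sum, mul_sum]
  have hx0 : (0 : ℝ) ≤ (x : ℝ) ^ σ := by positivity
  calc ((Smooth x y).card : ℝ) ≤ (x : ℝ) ^ σ * ∑ n ∈ Smooth x y, (n : ℝ) ^ (-σ) := h4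
    _ ≤ (x : ℝ) ^ σ * ∏ p ∈ N.primesBelow, (1 - powHom σ p)⁻¹ :=
        mul_le_mul_of_nonneg_left h2 hx0
    _ ≤ _ := mul_le_mul_of_nonneg_left h5 hx0

/-- Sum of the reciprocals of the primes up to `2^k`. -/
theorem sum_recip_pow (k : ℕ) (hk : 1 ≤ k) :
    ∑ p ∈ (Icc 1 (2 ^ k)).filter Nat.Prime, 1 / (p : ℝ) ≤ 1 + 4 * (harmonic (k - 1) : ℝ) := by
  induction k, hk using Nat.le_induction with
  | base =>
    have : (Icc 1 (2 ^ 1)).filter Nat.Prime = {2} := by decide
    rw [this]
    simp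
    norm_num
  | succ k hk ih =>
    have hk0 : (0 : ℝ) < k := by exact_mod_cast hk
    have hsplit : (Icc 1 (2 ^ (k + 1))).filter Nat.Prime =
        (Icc 1 (2 ^ k)).filter Nat.Prime ∪ (Ioc (2 ^ k) (2 ^ (k + 1))).filter Nat.Prime := by
      ext p
      simp only [mem_filter, mem_union, mem_Icc, mem_Ioc]
      have : 2 ^ k ≤ 2 ^ (k + 1) := Nat.pow_le_pow_right (by norm_num) (by omega)
      have : 1 ≤ 2 ^ k := Nat.one_le_two_pow
      constructor
      · rintro ⟨h1, h2⟩
        rcases Nat.lt_or_ge (2 ^ k) p with h | h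
        · right; exact ⟨⟨h, h1.2⟩, h2⟩
        · left; exact ⟨⟨h1.1, h⟩, h2⟩
      · rintro (⟨h1, h2⟩ | ⟨h1, h2⟩)
        · exact ⟨⟨h1.1, by omega⟩, h2⟩
        · exact ⟨⟨by omega, h1.2⟩, h2⟩
    have hdisj : Disjoint ((Icc 1 (2 ^ k)).filter Nat.Prime)
        ((Ioc (2 ^ k) (2 ^ (k + 1))).filter Nat.Prime) := by
      rw [disjoint_left]
      intro p
      simp only [mem_filter, mem_Icc, mem_Ioc]
      rintro ⟨h1, _⟩ ⟨h2, _⟩
      omega
    rw [hsplit, sum_union hdisj]
    have hnew : ∑ p ∈ (Ioc (2 ^ k) (2 ^ (k + 1))).filter Nat.Prime, 1 / (p : ℝ) ≤ 4 / k := by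
      set B := (Ioc (2 ^ k) (2 ^ (k + 1))).filter Nat.Prime with hB
      have hlog2 : 0 < Real.log 2 := Real.log_pos (by norm_num)
      have h1 : (B.card : ℝ) * (k * Real.log 2) ≤ Real.log 4 * 2 ^ (k + 1) := by
        calc (B.card : ℝ) * (k * Real.log 2) = ∑ p ∈ B, (k * Real.log 2 : ℝ) := by
              rw [sum_const, nsmul_eq_mul]
          _ ≤ ∑ p ∈ B, Real.log p := by
              apply sum_le_sum
              intro p hp
              rw [hB, mem_filter, mem_Ioc] at hp
              rw [← Real.log_pow]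
              apply Real.log_le_log (by positivity)
              exact_mod_cast hp.1.1.le
          _ ≤ Chebyshev.theta (2 ^ (k + 1)) := by
              rw [Chebyshev.theta_eq_sum_Icc]
              apply sum_le_sum_of_subset_of_nonneg
              · intro p hp
                rw [hB, mem_filter, mem_Ioc] at hp
                rw [mem_filter, mem_Icc]
                refine ⟨⟨by omega, ?_⟩, hp.2⟩
                apply Nat.le_floor
                exact_mod_cast hp.1.2
              · intro p _ _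
                exact Real.log_natCast_nonneg p
          _ ≤ Real.log 4 * 2 ^ (k + 1) := Chebyshev.theta_le_log4_mul_x (by positivity)
      have hlog4 : Real.log 4 = 2 * Real.log 2 := by
        rw [show (4 : ℝ) = 2 ^ 2 by norm_num, Real.log_pow]; norm_num
      rw [hlog4] at h1
      have h2 : (B.card : ℝ) ≤ 4 * 2 ^ k / k := by
        rw [le_div_iff₀ hk0]
        have : (B.card : ℝ) * k * Real.log 2 ≤ 4 * 2 ^ k * Real.log 2 := by
          rw [pow_succ] at h1; linarith
        exact le_of_mul_le_mul_right this hlog2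
      calc ∑ p ∈ B, 1 / (p : ℝ) ≤ ∑ p ∈ B, 1 / (2 : ℝ) ^ k := by
            apply sum_le_sum
            intro p hp
            rw [hB, mem_filter, mem_Ioc] at hp
            apply one_div_le_one_div_of_le (by positivity)
            exact_mod_cast hp.1.1.le
        _ = B.card * (1 / (2 : ℝ) ^ k) := by rw [sum_const, nsmul_eq_mul]
        _ ≤ (4 * 2 ^ k / k) * (1 / (2 : ℝ) ^ k) := by gcongr
        _ = 4 / k := by field_simp
    have hharm : (harmonic (k + 1 - 1) : ℝ) = (harmonic (k - 1) : ℝ) + 1 / k := by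
      have : k + 1 - 1 = (k - 1) + 1 := by omega
      rw [this, harmonic_succ]
      push_cast
      rw [Nat.cast_sub hk]
      push_cast
      simp
    rw [hharm]
    have : (4 : ℝ) / k = 4 * (1 / k) := by ring
    linarith

theorem sum_recip_primes (y : ℝ) (hy : 2 ≤ y) :
    ∑ p ∈ (⌊y⌋₊ + 1).primesBelow, 1 / (p : ℝ) ≤ 10 + 4 * Real.log (Real.log y) := by
  set n := ⌊y⌋₊ with hn
  have hn2 : 2 ≤ n := Nat.le_floor (by exact_mod_cast hy)
  set k := Nat.log 2 n + 1 with hk
  have hk2 : 2 ≤ k := by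
    have : 1 ≤ Nat.log 2 n := Nat.log_pos (by norm_num) hn2
    omega
  have h1 : n < 2 ^ k := Nat.lt_pow_succ_log_self (by norm_num) n
  have h2 : 2 ^ (k - 1) ≤ n := by
    have : k - 1 = Nat.log 2 n := by omega
    rw [this]
    exact Nat.pow_log_le_self 2 (by omega)
  have hlog2 : 0.6931471803 < Real.log 2 := Real.log_two_gt_d9
  have hkl : ((k - 1 : ℕ) : ℝ) * Real.log 2 ≤ Real.log y := by
    rw [← Real.log_pow]
    apply Real.log_le_log (by positivity)
    calc (2 : ℝ) ^ (k - 1) ≤ n := by exact_mod_cast h2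
      _ ≤ y := Nat.floor_le (by linarith)
  have hk1 : (1 : ℝ) ≤ ((k - 1 : ℕ) : ℝ) := by exact_mod_cast (by omega : 1 ≤ k - 1)
  have hlogy : 0 < Real.log y := Real.log_pos (by linarith)
  have hsub : (n + 1).primesBelow ⊆ (Icc 1 (2 ^ k)).filter Nat.Prime := by
    intro p hp
    rw [mem_filter, mem_Icc]
    have := Nat.lt_of_mem_primesBelow hp
    have hpp := Nat.prime_of_mem_primesBelow hp
    exact ⟨⟨hpp.one_le, by omega⟩, hpp⟩
  calc ∑ p ∈ (n + 1).primesBelow, 1 / (p : ℝ)
      ≤ ∑ p ∈ (Icc 1 (2 ^ k)).filter Nat.Prime, 1 / (p : ℝ) := by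
        apply sum_le_sum_of_subset_of_nonneg hsub
        intro p _ _; positivity
    _ ≤ 1 + 4 * (harmonic (k - 1) : ℝ) := sum_recip_pow k (by omega)
    _ ≤ 1 + 4 * (1 + Real.log ((k - 1 : ℕ) : ℝ)) := by
        have := harmonic_le_one_add_log (k - 1)
        linarith
    _ ≤ 1 + 4 * (1 + Real.log (2 * Real.log y)) := by
        have : Real.log ((k - 1 : ℕ) : ℝ) ≤ Real.log (2 * Real.log y) := by
          apply Real.log_le_log (by linarith)
          nlinarith
        linarith
    _ ≤ 10 + 4 * Real.log (Real.log y) := by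
        rw [Real.log_mul (by norm_num) hlogy.ne']
        have : Real.log 2 < 0.6931471808 := Real.log_two_lt_d9
        linarith

theorem smooth_bound (x : ℕ) (y σ : ℝ) (hy : 2 ≤ y) (hσ : 1 / 2 ≤ σ) (hσ1 : σ ≤ 1) :
    ((Smooth x y).card : ℝ) ≤ (x : ℝ) ^ σ *
      Real.exp (4 * (y ^ (1 - σ) * (10 + 4 * Real.log (Real.log y)))) := by
  refine (rankin x y σ (by linarith) hσ hσ1).trans ?_
  have h := sum_recip_primes y hy
  gcongr

end Pool.Agent.Helper22.Morley
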